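import Pool.Agent.LibRG87.R0

/-!
Row R9: the number of `β` with `rr (sp β) ≤ T` is at most `3 T^2`: it is at most `∑_β (T / rr (sp β))^2 =
T^2 ∑_β ∏_p (if β p = none then 1 else 1/p^2) = T^2 ∏_{p ∈ P} (1 + N / p^2)` (`Finset.prod_univ_sum`), and
`∏ (1 + N/p^2) ≤ exp (N ∑ 1/p^2) ≤ e ≤ 3`, because `∑_{n > w} 1/n^2 ≤ 1/(w-1)` (telescoping; use it with `w` a
natural number) and `N ≤ w - 1`.
-/

open Finset

namespace Pool.Agent.LibRG87

private theorem R9_tele {w : ℕ} (hw : 2 ≤ w) (K : ℕ) (hK : w ≤ K) :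
    ∑ n ∈ Finset.Ioc w K, 1 / ((n : ℝ) - 1) ^ 2 ≤ 1 / ((w : ℝ) - 1) - 1 / ((K : ℝ) - 1) := by
  induction K, hK using Nat.le_induction with
  | base => rw [Finset.Ioc_self, Finset.sum_empty, sub_self]
  | succ K hK ih =>
    rw [Finset.sum_Ioc_succ_top hK]
    have hK2 : (2 : ℝ) ≤ (K : ℝ) := by exact_mod_cast hw.trans hK
    have h1 : (0 : ℝ) < (K : ℝ) - 1 := by linarith
    have h2 : (0 : ℝ) < (K : ℝ) := by linarith
    have h3 : 1 / (((K + 1 : ℕ) : ℝ) - 1) ^ 2 ≤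
        1 / ((K : ℝ) - 1) - 1 / (((K + 1 : ℕ) : ℝ) - 1) := by
      have e : (((K + 1 : ℕ) : ℝ) - 1) = K := by push_cast; ring
      rw [e, div_sub_div _ _ h1.ne' h2.ne', div_le_div_iff₀ (pow_pos h2 2) (mul_pos h1 h2)]
      nlinarith
    linarith

variable {ι : Type} [Fintype ι] [DecidableEq ι] (P : Finset ℕ)
theorem sum_inv_sq {w : ℕ} (hw : 2 ≤ w) (hPw : ∀ p ∈ P, w < p) :
    ∑ p ∈ P, 1 / ((p : ℝ) - 1) ^ 2 ≤ 1 / ((w : ℝ) - 1) := by
  have hK : w ≤ max w (P.sup id) := le_max_left _ _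
  have hsub : P ⊆ Finset.Ioc w (max w (P.sup id)) := by
    intro p hp
    rw [Finset.mem_Ioc]
    exact ⟨hPw p hp, (Finset.le_sup (f := id) hp).trans (le_max_right _ _)⟩
  have h1 : ∑ p ∈ P, 1 / ((p : ℝ) - 1) ^ 2 ≤
      ∑ n ∈ Finset.Ioc w (max w (P.sup id)), 1 / ((n : ℝ) - 1) ^ 2 :=
    Finset.sum_le_sum_of_subset_of_nonneg hsub fun n _ _ =>
      div_nonneg zero_le_one (sq_nonneg _)
  have h2 := R9_tele hw _ hK
  have h3 : (0 : ℝ) ≤ 1 / (((max w (P.sup id) : ℕ) : ℝ) - 1) := by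
    refine div_nonneg zero_le_one ?_
    have : (2 : ℝ) ≤ ((max w (P.sup id) : ℕ) : ℝ) := by exact_mod_cast hw.trans hK
    linarith
  linarith

private theorem R9_rr (β : P → Option ι) :
    rr (sp P β) = ∏ p : P, (if β p = none then (1 : ℝ) else ((p : ℕ) : ℝ)) := by
  unfold rr sp
  rw [Finset.prod_image (fun x _ y _ h => Subtype.val_injective h), Finset.prod_filter]
  refine Finset.prod_congr rfl fun p _ => ?_
  by_cases h : β p = none
  · rw [if_neg (not_not.2 h), if_pos h]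
  · rw [if_pos h, if_neg h]

private theorem R9_sum {w : ℕ} (hw : 2 ≤ w) (hPw : ∀ p ∈ P, w < p)
    (hN : Fintype.card ι + 1 ≤ w) :
    ∑ β : P → Option ι, ∏ p : P, (if β p = none then (1 : ℝ) else 1 / ((p : ℕ) : ℝ) ^ 2) ≤ 3 := by
  have hw2 : (2 : ℝ) ≤ (w : ℝ) := by exact_mod_cast hw
  have h1 : ∑ β : P → Option ι, ∏ p : P, (if β p = none then (1 : ℝ) else 1 / ((p : ℕ) : ℝ) ^ 2) =
      ∏ p : P, ∑ o : Option ι, (if o = none then (1 : ℝ) else 1 / ((p : ℕ) : ℝ) ^ 2) := by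
    rw [Finset.prod_univ_sum, Fintype.piFinset_univ]
  have h2 : ∀ p : P, ∑ o : Option ι, (if o = none then (1 : ℝ) else 1 / ((p : ℕ) : ℝ) ^ 2) ≤
      Real.exp ((Fintype.card ι : ℝ) * (1 / (((p : ℕ) : ℝ) - 1) ^ 2)) := by
    intro p
    have hp : (w : ℝ) < ((p : ℕ) : ℝ) := by exact_mod_cast hPw p p.2
    have hp1 : (0 : ℝ) < ((p : ℕ) : ℝ) - 1 := by linarith
    rw [Fintype.sum_option, if_pos rfl]
    have e : ∑ i : ι, (if (some i : Option ι) = none then (1 : ℝ) else 1 / ((p : ℕ) : ℝ) ^ 2) =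
        (Fintype.card ι : ℝ) * (1 / ((p : ℕ) : ℝ) ^ 2) := by
      rw [Finset.sum_congr rfl (g := fun _ => 1 / ((p : ℕ) : ℝ) ^ 2)
        (fun i _ => if_neg (Option.some_ne_none i)), Finset.sum_const, Finset.card_univ,
        nsmul_eq_mul]
    rw [e]
    have h3 : (1 : ℝ) / ((p : ℕ) : ℝ) ^ 2 ≤ 1 / (((p : ℕ) : ℝ) - 1) ^ 2 := by
      refine one_div_le_one_div_of_le (pow_pos hp1 2) ?_
      refine pow_le_pow_left₀ hp1.le (by linarith) 2
    have h4 : (Fintype.card ι : ℝ) * (1 / ((p : ℕ) : ℝ) ^ 2) ≤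
        (Fintype.card ι : ℝ) * (1 / (((p : ℕ) : ℝ) - 1) ^ 2) :=
      mul_le_mul_of_nonneg_left h3 (Nat.cast_nonneg _)
    have h5 := Real.add_one_le_exp ((Fintype.card ι : ℝ) * (1 / (((p : ℕ) : ℝ) - 1) ^ 2))
    linarith
  have hnn : ∀ p : P, 0 ≤ ∑ o : Option ι, (if o = none then (1 : ℝ) else 1 / ((p : ℕ) : ℝ) ^ 2) := by
    intro p
    refine Finset.sum_nonneg fun o _ => ?_
    split
    · exact zero_le_one
    · exact div_nonneg zero_le_one (sq_nonneg _)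
  have hN' : (Fintype.card ι : ℝ) ≤ (w : ℝ) - 1 := by
    have : ((Fintype.card ι + 1 : ℕ) : ℝ) ≤ (w : ℝ) := by exact_mod_cast hN
    push_cast at this
    linarith
  have hexp : (Fintype.card ι : ℝ) * ∑ p : P, (1 / (((p : ℕ) : ℝ) - 1) ^ 2) ≤ 1 := by
    have e : ∑ p : P, (1 / (((p : ℕ) : ℝ) - 1) ^ 2) = ∑ p ∈ P, 1 / ((p : ℝ) - 1) ^ 2 :=
      Finset.sum_coe_sort P (fun p : ℕ => 1 / ((p : ℝ) - 1) ^ 2)
    rw [e]
    have h6 := sum_inv_sq P hw hPw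
    have hw1 : (0 : ℝ) < (w : ℝ) - 1 := by linarith
    calc (Fintype.card ι : ℝ) * ∑ p ∈ P, 1 / ((p : ℝ) - 1) ^ 2
        ≤ ((w : ℝ) - 1) * (1 / ((w : ℝ) - 1)) :=
          mul_le_mul hN' h6 (Finset.sum_nonneg fun n _ => div_nonneg zero_le_one (sq_nonneg _))
            hw1.le
      _ = 1 := by rw [mul_one_div, div_self hw1.ne']
  calc ∑ β : P → Option ι, ∏ p : P, (if β p = none then (1 : ℝ) else 1 / ((p : ℕ) : ℝ) ^ 2)
      = ∏ p : P, ∑ o : Option ι, (if o = none then (1 : ℝ) else 1 / ((p : ℕ) : ℝ) ^ 2) := h1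
    _ ≤ ∏ p : P, Real.exp ((Fintype.card ι : ℝ) * (1 / (((p : ℕ) : ℝ) - 1) ^ 2)) :=
        Finset.prod_le_prod (fun p _ => hnn p) (fun p _ => h2 p)
    _ = Real.exp ((Fintype.card ι : ℝ) * ∑ p : P, (1 / (((p : ℕ) : ℝ) - 1) ^ 2)) := by
        rw [← Real.exp_sum, Finset.mul_sum]
    _ ≤ Real.exp 1 := Real.exp_le_exp.2 hexp
    _ ≤ 3 := by
        have := Real.exp_one_lt_d9
        linarith

open scoped Classical in
theorem card_beta {w : ℕ} (hw : 2 ≤ w) (hPw : ∀ p ∈ P, w < p) (hN : Fintype.card ι + 1 ≤ w) {T : ℝ} (hT : 1 ≤ T) :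
    ∑ β : P → Option ι, (if rr (sp P β) ≤ T then (1 : ℝ) else 0) ≤ 3 * T ^ 2 := by
  have hterm : ∀ β : P → Option ι, (if rr (sp P β) ≤ T then (1 : ℝ) else 0) ≤
      T ^ 2 * ∏ p : P, (if β p = none then (1 : ℝ) else 1 / ((p : ℕ) : ℝ) ^ 2) := by
    intro β
    have hpos : 0 < rr (sp P β) := by
      rw [R9_rr]
      refine Finset.prod_pos fun p _ => ?_
      split
      · exact one_pos
      · have := hPw p p.2
        exact_mod_cast (by omega : 0 < (p : ℕ))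
    have e : ∏ p : P, (if β p = none then (1 : ℝ) else 1 / ((p : ℕ) : ℝ) ^ 2) =
        1 / rr (sp P β) ^ 2 := by
      rw [R9_rr, ← Finset.prod_pow, one_div, ← Finset.prod_inv_distrib]
      refine Finset.prod_congr rfl fun p _ => ?_
      split
      · rw [one_pow, inv_one]
      · rw [one_div]
    rw [e]
    split
    · rename_i h
      rw [mul_one_div, le_div_iff₀ (pow_pos hpos 2), one_mul]
      exact pow_le_pow_left₀ hpos.le h 2
    · positivity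
  calc ∑ β : P → Option ι, (if rr (sp P β) ≤ T then (1 : ℝ) else 0)
      ≤ ∑ β : P → Option ι, T ^ 2 * ∏ p : P, (if β p = none then (1 : ℝ) else 1 / ((p : ℕ) : ℝ) ^ 2) :=
        Finset.sum_le_sum fun β _ => hterm β
    _ = T ^ 2 * ∑ β : P → Option ι, ∏ p : P,
          (if β p = none then (1 : ℝ) else 1 / ((p : ℕ) : ℝ) ^ 2) := by
        rw [Finset.mul_sum]
    _ ≤ T ^ 2 * 3 := mul_le_mul_of_nonneg_left (R9_sum P hw hPw hN) (sq_nonneg _)
    _ = 3 * T ^ 2 := mul_comm _ _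

end Pool.Agent.LibRG87
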