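import Pool.Agent.LibRG87.Defs

/-!
Row R0: basic facts on fibres and supports. `fb P β i` = the primes `p ∈ P` with `β p = some i`,
`sp P β` = the primes with `β p ≠ none`: the fibres are pairwise disjoint, their union is the
support, so products over the support split (`Finset.prod_image`, `Finset.prod_filter`,
`Finset.prod_comm`, or `Finset.prod_biUnion`).
-/

open Finset

namespace Pool.Agent.LibRG87

variable {ι : Type} [Fintype ι] [DecidableEq ι] (P : Finset ℕ)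
theorem mem_fb {β : P → Option ι} {i : ι} {p : ℕ} : p ∈ fb P β i ↔ ∃ h : p ∈ P, β ⟨p, h⟩ = some i := by
  unfold fb
  rw [Finset.mem_image]
  constructor
  · rintro ⟨q, hq, rfl⟩
    rw [Finset.mem_filter] at hq
    exact ⟨q.2, hq.2⟩
  · rintro ⟨h, hb⟩
    exact ⟨⟨p, h⟩, by rw [Finset.mem_filter]; exact ⟨Finset.mem_univ _, hb⟩, rfl⟩

theorem mem_sp {β : P → Option ι} {p : ℕ} : p ∈ sp P β ↔ ∃ h : p ∈ P, β ⟨p, h⟩ ≠ none := by
  unfold sp
  rw [Finset.mem_image]
  constructor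
  · rintro ⟨q, hq, rfl⟩
    rw [Finset.mem_filter] at hq
    exact ⟨q.2, hq.2⟩
  · rintro ⟨h, hb⟩
    exact ⟨⟨p, h⟩, by rw [Finset.mem_filter]; exact ⟨Finset.mem_univ _, hb⟩, rfl⟩

theorem fb_subset (β : P → Option ι) (i : ι) : fb P β i ⊆ P := by
  intro p hp
  exact ((mem_fb P).1 hp).1

theorem sp_subset (β : P → Option ι) : sp P β ⊆ P := by
  intro p hp
  exact ((mem_sp P).1 hp).1

theorem fb_injective : Function.Injective (fb P : (P → Option ι) → ι → Finset ℕ) := by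
  intro β β' h
  funext q
  refine Option.ext fun i => ?_
  have h1 : (q : ℕ) ∈ fb P β i ↔ (q : ℕ) ∈ fb P β' i := by rw [h]
  rw [mem_fb, mem_fb] at h1
  constructor
  · intro h2
    obtain ⟨_, h3⟩ := h1.1 ⟨q.2, h2⟩
    exact h3
  · intro h2
    obtain ⟨_, h3⟩ := h1.2 ⟨q.2, h2⟩
    exact h3

theorem fb_disjoint (β : P → Option ι) {i j : ι} (h : i ≠ j) : Disjoint (fb P β i) (fb P β j) := by
  rw [Finset.disjoint_left]
  intro p hi hj
  obtain ⟨h1, h2⟩ := (mem_fb P).1 hi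
  obtain ⟨_, h3⟩ := (mem_fb P).1 hj
  rw [h2] at h3
  exact h (Option.some.inj h3)

private theorem R0_sp_eq (β : P → Option ι) : sp P β = Finset.univ.biUnion (fb P β) := by
  ext p
  rw [Finset.mem_biUnion, mem_sp]
  constructor
  · rintro ⟨h, hb⟩
    obtain ⟨i, hi⟩ := Option.ne_none_iff_exists'.1 hb
    exact ⟨i, Finset.mem_univ _, (mem_fb P).2 ⟨h, hi⟩⟩
  · rintro ⟨i, _, hi⟩
    obtain ⟨h, hb⟩ := (mem_fb P).1 hi
    exact ⟨h, by rw [hb]; exact Option.some_ne_none i⟩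

theorem prod_sp (g : ℕ → ℝ) (β : P → Option ι) :
    ∏ p ∈ sp P β, g p = ∏ i, ∏ p ∈ fb P β i, g p := by
  rw [R0_sp_eq, Finset.prod_biUnion]
  intro i _ j _ hij
  exact fb_disjoint P β hij

theorem rr_sp (β : P → Option ι) : rr (sp P β) = ∏ i, rr (fb P β i) := by
  unfold rr
  exact prod_sp P (fun p => (p : ℝ)) β

theorem ph_sp (β : P → Option ι) : ph (sp P β) = ∏ i, ph (fb P β i) := by
  unfold ph
  exact prod_sp P (fun p => (p : ℝ) - 1) β

/-- a pairwise disjoint family of subsets of `P` comes from a `β` -/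
theorem exists_beta (A : ι → Finset ℕ) (hA : ∀ i, A i ⊆ P) (hd : ∀ i j, i ≠ j → Disjoint (A i) (A j)) :
    ∃ β : P → Option ι, fb P β = A := by
  classical
  refine ⟨fun q => if h : ∃ i, (q : ℕ) ∈ A i then some h.choose else none, ?_⟩
  funext i
  ext p
  rw [mem_fb]
  constructor
  · rintro ⟨h, hb⟩
    by_cases hex : ∃ j, p ∈ A j
    · rw [dif_pos hex] at hb
      have h1 := hex.choose_spec
      rw [Option.some.inj hb] at h1
      exact h1
    · rw [dif_neg hex] at hb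
      exact absurd hb (Option.some_ne_none i).symm
  · intro hp
    refine ⟨hA i hp, ?_⟩
    have hex : ∃ j, p ∈ A j := ⟨i, hp⟩
    rw [dif_pos hex]
    congr 1
    by_contra hne
    exact Finset.disjoint_left.1 (hd _ _ hne) hex.choose_spec hp

theorem rr_pos (hP : ∀ p ∈ P, Nat.Prime p) {A : Finset ℕ} (hA : A ⊆ P) : 0 < rr A := by
  unfold rr
  refine Finset.prod_pos fun p hp => ?_
  exact_mod_cast (hP p (hA hp)).pos

theorem one_le_rr (hP : ∀ p ∈ P, Nat.Prime p) {A : Finset ℕ} (hA : A ⊆ P) : 1 ≤ rr A := by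
  unfold rr
  rw [← Nat.cast_prod]
  have h : 1 ≤ ∏ p ∈ A, p := Nat.one_le_iff_ne_zero.2 (Finset.prod_ne_zero_iff.2 fun p hp => (hP p (hA hp)).ne_zero)
  exact_mod_cast h

theorem ph_pos (hP : ∀ p ∈ P, Nat.Prime p) {A : Finset ℕ} (hA : A ⊆ P) : 0 < ph A := by
  unfold ph
  refine Finset.prod_pos fun p hp => ?_
  have h : (1 : ℝ) < (p : ℝ) := by exact_mod_cast (hP p (hA hp)).one_lt
  linarith

end Pool.Agent.LibRG87
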