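import Pool.Agent.LibRG87.R0

/-!
Row R1: sums over `β` against sums over all families of subsets.
`sum_beta_le`: `β ↦ fb P β` is injective into `Fintype.piFinset (fun _ => P.powerset)`
(`Finset.sum_le_sum_of_subset_of_nonneg` after `Finset.sum_image`).
`sum_fam_prod`: `Finset.prod_univ_sum` (with `Finset.prod_const`, `Finset.card_univ`).
-/

open Finset

namespace Pool.Agent.LibRG87

variable {ι : Type} [Fintype ι] [DecidableEq ι] (P : Finset ℕ)
theorem sum_beta_le (G : (ι → Finset ℕ) → ℝ)
    (hG : ∀ A ∈ Fintype.piFinset (fun _ : ι => P.powerset), 0 ≤ G A) :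
    ∑ β : P → Option ι, G (fb P β) ≤ ∑ A ∈ Fintype.piFinset (fun _ : ι => P.powerset), G A := by
  classical
  rw [← Finset.sum_image (f := G) (fun a _ b _ h => fb_injective P h)]
  apply Finset.sum_le_sum_of_subset_of_nonneg
  · intro A hA
    rw [Finset.mem_image] at hA
    obtain ⟨β, _, rfl⟩ := hA
    rw [Fintype.mem_piFinset]
    intro i
    exact Finset.mem_powerset.2 (fb_subset P β i)
  · intro A hA _
    exact hG A hA

theorem sum_fam_prod (F : Finset ℕ → ℝ) :
    ∑ A ∈ Fintype.piFinset (fun _ : ι => P.powerset), ∏ i, F (A i) =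
      (∑ A ∈ P.powerset, F A) ^ Fintype.card ι := by
  rw [← Finset.prod_univ_sum (fun _ : ι => P.powerset) (fun _ A => F A), Finset.prod_const,
    Finset.card_univ]

end Pool.Agent.LibRG87
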