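import Pool.Agent.LibRG87.R1

/-!
Row R2: the families which are not pairwise disjoint contribute little. The sum over all families is
`S ^ N`; every family which is not of the form `fb P β` is not pairwise disjoint (`exists_beta`), so some
prime `p ∈ P` lies in `A i` and `A j`, `i ≠ j`. For fixed `i, j, p` the sum over the families with
`p ∈ A i ∩ A j` is `(∑_{A ∋ p} F A)^2 * S^(N-2) ≤ S^N / (p-1)^2` (`Finset.prod_univ_sum` with the
factor at `i`, `j` restricted: take `F' k A = if (k = i ∨ k = j) ∧ p ∉ A then 0 else F A`; no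
division: compare factor by factor with `S`, `S / (p - 1)`). At most `N^2` pairs.
-/

open Finset

namespace Pool.Agent.LibRG87

variable {ι : Type} [Fintype ι] [DecidableEq ι] (P : Finset ℕ)

open scoped Classical in
theorem R2_pair (hP : ∀ p ∈ P, Nat.Prime p) (F : Finset ℕ → ℝ) (hF : ∀ A ∈ P.powerset, 0 ≤ F A)
    (hp : ∀ p ∈ P, ∑ A ∈ P.powerset with p ∈ A, F A ≤ (∑ A ∈ P.powerset, F A) / ((p : ℝ) - 1))
    {i j : ι} (hij : i ≠ j) {p : ℕ} (hpP : p ∈ P) :
    ∑ A ∈ Fintype.piFinset (fun _ : ι => P.powerset),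
        (if p ∈ A i ∧ p ∈ A j then ∏ k, F (A k) else 0) ≤
      (∑ A ∈ P.powerset, F A) ^ Fintype.card ι * (1 / ((p : ℝ) - 1) ^ 2) := by
  set S := ∑ A ∈ P.powerset, F A with hS
  have hp1 : (0 : ℝ) < (p : ℝ) - 1 := by
    have h2 := (hP p hpP).two_le
    have : (2 : ℝ) ≤ (p : ℝ) := by exact_mod_cast h2
    linarith
  have h1 : ∀ A : ι → Finset ℕ, (if p ∈ A i ∧ p ∈ A j then ∏ k, F (A k) else 0) =
      ∏ k, (if (k = i ∨ k = j) ∧ p ∉ A k then 0 else F (A k)) := by
    intro A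
    by_cases h : p ∈ A i ∧ p ∈ A j
    · rw [if_pos h]
      refine Finset.prod_congr rfl fun k _ => ?_
      rw [if_neg]
      rintro ⟨rfl | rfl, h'⟩
      · exact h' h.1
      · exact h' h.2
    · rw [if_neg h]
      symm
      rw [not_and_or] at h
      rcases h with h | h
      · exact Finset.prod_eq_zero (Finset.mem_univ i) (if_pos ⟨Or.inl rfl, h⟩)
      · exact Finset.prod_eq_zero (Finset.mem_univ j) (if_pos ⟨Or.inr rfl, h⟩)
  rw [Finset.sum_congr rfl fun A _ => h1 A]
  have h2 : ∑ A ∈ Fintype.piFinset (fun _ : ι => P.powerset),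
      ∏ k, (if (k = i ∨ k = j) ∧ p ∉ A k then 0 else F (A k)) =
      ∏ k : ι, ∑ A ∈ P.powerset, (if (k = i ∨ k = j) ∧ p ∉ A then 0 else F A) := by
    rw [Finset.prod_univ_sum (fun _ : ι => P.powerset)
      (fun k A => if (k = i ∨ k = j) ∧ p ∉ A then 0 else F A)]
  rw [h2]
  have h3 : ∏ k : ι, ∑ A ∈ P.powerset, (if (k = i ∨ k = j) ∧ p ∉ A then 0 else F A) ≤
      ∏ k : ι, (S * (if k = i ∨ k = j then 1 / ((p : ℝ) - 1) else 1)) := by
    refine Finset.prod_le_prod (fun k _ => Finset.sum_nonneg fun A hA => ?_) fun k _ => ?_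
    · split_ifs
      · exact le_rfl
      · exact hF A hA
    · by_cases hk : k = i ∨ k = j
      · rw [if_pos hk]
        have h4 : ∑ A ∈ P.powerset, (if (k = i ∨ k = j) ∧ p ∉ A then 0 else F A) =
            ∑ A ∈ P.powerset with p ∈ A, F A := by
          rw [Finset.sum_filter]
          refine Finset.sum_congr rfl fun A _ => ?_
          by_cases hA : p ∈ A
          · rw [if_neg (fun h => h.2 hA), if_pos hA]
          · rw [if_pos ⟨hk, hA⟩, if_neg hA]
        rw [h4]
        have := hp p hpP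
        rw [div_eq_mul_one_div] at this
        exact this
      · rw [if_neg hk, mul_one, hS]
        refine le_of_eq (Finset.sum_congr rfl fun A _ => ?_)
        rw [if_neg (fun h => hk h.1)]
  refine h3.trans (le_of_eq ?_)
  rw [Finset.prod_mul_distrib, Finset.prod_const, Finset.card_univ]
  congr 1
  rw [← Finset.prod_filter, Finset.prod_const]
  have h5 : (Finset.univ.filter fun k : ι => k = i ∨ k = j) = {i, j} := by
    ext k
    simp
  rw [h5, Finset.card_pair hij]
  rw [div_pow, one_pow]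

open scoped Classical in
theorem sum_beta_ge (hP : ∀ p ∈ P, Nat.Prime p) (F : Finset ℕ → ℝ) (hF : ∀ A ∈ P.powerset, 0 ≤ F A)
    (hp : ∀ p ∈ P, ∑ A ∈ P.powerset with p ∈ A, F A ≤ (∑ A ∈ P.powerset, F A) / ((p : ℝ) - 1)) :
    (∑ A ∈ P.powerset, F A) ^ Fintype.card ι *
        (1 - (Fintype.card ι : ℝ) ^ 2 * ∑ p ∈ P, 1 / ((p : ℝ) - 1) ^ 2) ≤
      ∑ β : P → Option ι, ∏ i, F (fb P β i) := by
  have hS0 : 0 ≤ ∑ A ∈ P.powerset, F A := Finset.sum_nonneg hF
  have hfam := sum_fam_prod (ι := ι) P F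
  have hFprod : ∀ A ∈ Fintype.piFinset (fun _ : ι => P.powerset), 0 ≤ ∏ i, F (A i) := fun A hA =>
    Finset.prod_nonneg fun i _ => hF _ (Fintype.mem_piFinset.1 hA i)
  -- pointwise bound
  have hpt : ∀ A ∈ Fintype.piFinset (fun _ : ι => P.powerset),
      ∏ k, F (A k) ≤ (if A ∈ Finset.univ.image (fun β : P → Option ι => fb P β) then ∏ k, F (A k) else 0) +
        ∑ ij : ι × ι, ∑ p ∈ P,
          (if ij.1 ≠ ij.2 then (if p ∈ A ij.1 ∧ p ∈ A ij.2 then ∏ k, F (A k) else 0) else 0) := by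
    intro A hA
    have hn : 0 ≤ ∑ ij : ι × ι, ∑ p ∈ P,
          (if ij.1 ≠ ij.2 then (if p ∈ A ij.1 ∧ p ∈ A ij.2 then ∏ k, F (A k) else 0) else 0) := by
      refine Finset.sum_nonneg fun ij _ => Finset.sum_nonneg fun p _ => ?_
      split_ifs
      · exact hFprod A hA
      · exact le_rfl
      · exact le_rfl
    by_cases h : A ∈ Finset.univ.image (fun β : P → Option ι => fb P β)
    · rw [if_pos h]; linarith
    · rw [if_neg h, zero_add]
      have hnd : ¬ ∀ i j, i ≠ j → Disjoint (A i) (A j) := by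
        intro hd
        obtain ⟨β, hβ⟩ := exists_beta P A (fun i => Finset.mem_powerset.1 (Fintype.mem_piFinset.1 hA i)) hd
        exact h (Finset.mem_image.2 ⟨β, Finset.mem_univ _, hβ⟩)
      push Not at hnd
      obtain ⟨i, j, hij, hdis⟩ := hnd
      rw [Finset.not_disjoint_iff] at hdis
      obtain ⟨p, hpi, hpj⟩ := hdis
      have hpP : p ∈ P := Finset.mem_powerset.1 (Fintype.mem_piFinset.1 hA i) hpi
      have hterm : ∏ k, F (A k) = (if (i, j).1 ≠ (i, j).2 then
          (if p ∈ A (i, j).1 ∧ p ∈ A (i, j).2 then ∏ k, F (A k) else 0) else 0) := by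
        rw [if_pos hij, if_pos ⟨hpi, hpj⟩]
      have hnn : ∀ ij : ι × ι, ∀ p ∈ P, 0 ≤
          (if ij.1 ≠ ij.2 then (if p ∈ A ij.1 ∧ p ∈ A ij.2 then ∏ k, F (A k) else 0) else 0) := by
        intro ij p _
        split_ifs
        · exact hFprod A hA
        · exact le_rfl
        · exact le_rfl
      calc ∏ k, F (A k) = _ := hterm
        _ ≤ ∑ p ∈ P, (if (i, j).1 ≠ (i, j).2 then
          (if p ∈ A (i, j).1 ∧ p ∈ A (i, j).2 then ∏ k, F (A k) else 0) else 0) :=
            Finset.single_le_sum (f := fun p => (if (i, j).1 ≠ (i, j).2 then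
          (if p ∈ A (i, j).1 ∧ p ∈ A (i, j).2 then ∏ k, F (A k) else 0) else 0)) (hnn (i, j)) hpP
        _ ≤ _ := Finset.single_le_sum (f := fun ij : ι × ι => ∑ p ∈ P,
          (if ij.1 ≠ ij.2 then (if p ∈ A ij.1 ∧ p ∈ A ij.2 then ∏ k, F (A k) else 0) else 0))
          (fun ij _ => Finset.sum_nonneg (hnn ij)) (Finset.mem_univ (i, j))
  have hsum := Finset.sum_le_sum hpt
  rw [hfam, Finset.sum_add_distrib] at hsum
  -- first part
  have hA1 : ∑ A ∈ Fintype.piFinset (fun _ : ι => P.powerset),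
      (if A ∈ Finset.univ.image (fun β : P → Option ι => fb P β) then ∏ k, F (A k) else 0) ≤
      ∑ β : P → Option ι, ∏ i, F (fb P β i) := by
    rw [← Finset.sum_filter]
    have h1 : ∑ β : P → Option ι, ∏ i, F (fb P β i) =
        ∑ A ∈ Finset.univ.image (fun β : P → Option ι => fb P β), ∏ k, F (A k) := by
      rw [Finset.sum_image]
      intro β _ β' _ h
      exact fb_injective P h
    rw [h1]
    refine Finset.sum_le_sum_of_subset_of_nonneg (fun A hA => (Finset.mem_filter.1 hA).2) ?_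
    intro A hA _
    obtain ⟨β, _, rfl⟩ := Finset.mem_image.1 hA
    exact Finset.prod_nonneg fun i _ => hF _ (Finset.mem_powerset.2 (fb_subset P β i))
  -- second part
  have hA2 : ∑ A ∈ Fintype.piFinset (fun _ : ι => P.powerset), ∑ ij : ι × ι, ∑ p ∈ P,
          (if ij.1 ≠ ij.2 then (if p ∈ A ij.1 ∧ p ∈ A ij.2 then ∏ k, F (A k) else 0) else 0) ≤
      (∑ A ∈ P.powerset, F A) ^ Fintype.card ι *
        ((Fintype.card ι : ℝ) ^ 2 * ∑ p ∈ P, 1 / ((p : ℝ) - 1) ^ 2) := by
    rw [Finset.sum_comm]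
    have h1 : ∀ ij : ι × ι, ∑ A ∈ Fintype.piFinset (fun _ : ι => P.powerset), ∑ p ∈ P,
          (if ij.1 ≠ ij.2 then (if p ∈ A ij.1 ∧ p ∈ A ij.2 then ∏ k, F (A k) else 0) else 0) ≤
        ∑ p ∈ P, (∑ A ∈ P.powerset, F A) ^ Fintype.card ι * (1 / ((p : ℝ) - 1) ^ 2) := by
      intro ij
      rw [Finset.sum_comm]
      refine Finset.sum_le_sum fun p hpP => ?_
      by_cases hij : ij.1 ≠ ij.2
      · simp only [if_pos hij]
        exact R2_pair P hP F hF hp hij hpP
      · simp only [if_neg hij]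
        rw [Finset.sum_const_zero]
        exact mul_nonneg (pow_nonneg hS0 _) (div_nonneg zero_le_one (sq_nonneg _))
    refine (Finset.sum_le_sum fun ij _ => h1 ij).trans (le_of_eq ?_)
    rw [Finset.sum_const, Finset.card_univ, Fintype.card_prod, nsmul_eq_mul, ← Finset.mul_sum]
    push_cast
    ring
  have := hsum.trans (add_le_add hA1 hA2)
  linarith [this, mul_sub ((∑ A ∈ P.powerset, F A) ^ Fintype.card ι) 1
    ((Fintype.card ι : ℝ) ^ 2 * ∑ p ∈ P, 1 / ((p : ℝ) - 1) ^ 2)]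

end Pool.Agent.LibRG87
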