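import Pool.Agent.LibRG87.R1

/-!
Row R3: Markov. `1[∏ rr (A i) > T] ≤ (∑ i, log (rr (A i))) / log T` (all `rr ≥ 1`, `Real.log_prod`), and
`∑_A log (rr (A i)) ∏ F (A j) = σ S^(N-1) ≤ σ S^N` (`Finset.prod_univ_sum` with the factor `i` changed:
`∏_j (if j = i then ∑ log(rr A) F A else ∑ F A)`, `Finset.prod_ite_eq` / `Function.update`; `S ≥ 1`).
-/

open Finset

namespace Pool.Agent.LibRG87

variable {ι : Type} [Fintype ι] [DecidableEq ι] (P : Finset ℕ)
private theorem R3_inner (P : Finset ℕ) (F g : Finset ℕ → ℝ) (i : ι) :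
    ∑ A ∈ Fintype.piFinset (fun _ : ι => P.powerset), g (A i) * ∏ j, F (A j) =
      (∑ A ∈ P.powerset, g A * F A) * (∑ A ∈ P.powerset, F A) ^ (Fintype.card ι - 1) := by
  have h1 : ∀ A : ι → Finset ℕ, g (A i) * ∏ j, F (A j)
      = ∏ j, (if j = i then g (A j) * F (A j) else F (A j)) := by
    intro A
    rw [← Finset.mul_prod_erase Finset.univ _ (Finset.mem_univ i),
      ← Finset.mul_prod_erase Finset.univ (fun j => if j = i then g (A j) * F (A j) else F (A j))
        (Finset.mem_univ i)]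
    rw [if_pos rfl, ← mul_assoc]
    congr 1
    apply Finset.prod_congr rfl
    intro j hj
    rw [if_neg (Finset.ne_of_mem_erase hj)]
  rw [Finset.sum_congr rfl (fun A _ => h1 A),
    ← Finset.prod_univ_sum (fun _ : ι => P.powerset)
      (fun j A => if j = i then g A * F A else F A),
    ← Finset.mul_prod_erase Finset.univ _ (Finset.mem_univ i)]
  simp only [if_true]
  congr 1
  rw [Finset.prod_congr rfl (g := fun _ => ∑ A ∈ P.powerset, F A)]
  · rw [Finset.prod_const, Finset.card_erase_of_mem (Finset.mem_univ i), Finset.card_univ]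
  · intro j hj
    simp only [if_neg (Finset.ne_of_mem_erase hj)]

open scoped Classical in
theorem markov (hP : ∀ p ∈ P, Nat.Prime p) (F : Finset ℕ → ℝ) (hF : ∀ A ∈ P.powerset, 0 ≤ F A)
    (hS : 1 ≤ ∑ A ∈ P.powerset, F A) {T : ℝ} (hT : 1 < T) :
    ∑ A ∈ Fintype.piFinset (fun _ : ι => P.powerset) with T < ∏ i, rr (A i), ∏ i, F (A i) ≤
      (∑ A ∈ P.powerset, F A) ^ Fintype.card ι *
        (Fintype.card ι * (∑ A ∈ P.powerset, F A * Real.log (rr A)) / Real.log T) := by
  have hlT : 0 < Real.log T := Real.log_pos hT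
  have hl : ∀ A ∈ P.powerset, 0 ≤ Real.log (rr A) := fun A hA =>
    Real.log_nonneg (one_le_rr P hP (Finset.mem_powerset.1 hA))
  have hσ : 0 ≤ ∑ A ∈ P.powerset, F A * Real.log (rr A) :=
    Finset.sum_nonneg (fun A hA => mul_nonneg (hF A hA) (hl A hA))
  have hprod : ∀ A ∈ Fintype.piFinset (fun _ : ι => P.powerset), 0 ≤ ∏ i, F (A i) := by
    intro A hA
    rw [Fintype.mem_piFinset] at hA
    exact Finset.prod_nonneg (fun i _ => hF _ (hA i))
  have hsl : ∀ A ∈ Fintype.piFinset (fun _ : ι => P.powerset), 0 ≤ ∑ i, Real.log (rr (A i)) := by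
    intro A hA
    rw [Fintype.mem_piFinset] at hA
    exact Finset.sum_nonneg (fun i _ => hl _ (hA i))
  have step1 : ∑ A ∈ Fintype.piFinset (fun _ : ι => P.powerset) with T < ∏ i, rr (A i), ∏ i, F (A i) ≤
      ∑ A ∈ Fintype.piFinset (fun _ : ι => P.powerset),
        (∑ i, Real.log (rr (A i))) / Real.log T * ∏ j, F (A j) := by
    rw [Finset.sum_filter]
    apply Finset.sum_le_sum
    intro A hA
    have hA' := hA
    rw [Fintype.mem_piFinset] at hA'
    split_ifs with h
    · have h2 : Real.log T ≤ ∑ i, Real.log (rr (A i)) := by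
        rw [← Real.log_prod (fun i _ => (rr_pos P hP (Finset.mem_powerset.1 (hA' i))).ne')]
        exact Real.log_le_log (by linarith) h.le
      have h3 : 1 ≤ (∑ i, Real.log (rr (A i))) / Real.log T := (one_le_div hlT).2 h2
      calc ∏ i, F (A i) = 1 * ∏ i, F (A i) := (one_mul _).symm
        _ ≤ _ := mul_le_mul_of_nonneg_right h3 (hprod A hA)
    · exact mul_nonneg (div_nonneg (hsl A hA) hlT.le) (hprod A hA)
  have step2 : ∑ A ∈ Fintype.piFinset (fun _ : ι => P.powerset),
        (∑ i, Real.log (rr (A i))) / Real.log T * ∏ j, F (A j)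
      = (Fintype.card ι * ((∑ A ∈ P.powerset, Real.log (rr A) * F A)
        * (∑ A ∈ P.powerset, F A) ^ (Fintype.card ι - 1))) / Real.log T := by
    have h1 : ∀ A : ι → Finset ℕ, (∑ i, Real.log (rr (A i))) / Real.log T * ∏ j, F (A j)
        = (∑ i, Real.log (rr (A i)) * ∏ j, F (A j)) / Real.log T := by
      intro A
      rw [← Finset.sum_mul]; ring
    rw [Finset.sum_congr rfl (fun A _ => h1 A), ← Finset.sum_div, Finset.sum_comm]
    congr 1
    rw [Finset.sum_congr rfl (fun i _ => R3_inner P F (fun A => Real.log (rr A)) i),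
      Finset.sum_const, Finset.card_univ, nsmul_eq_mul]
  rw [step2] at step1
  refine step1.trans ?_
  have hcomm : ∑ A ∈ P.powerset, Real.log (rr A) * F A = ∑ A ∈ P.powerset, F A * Real.log (rr A) :=
    Finset.sum_congr rfl (fun A _ => mul_comm _ _)
  rw [hcomm]
  have hpow : (∑ A ∈ P.powerset, F A) ^ (Fintype.card ι - 1)
      ≤ (∑ A ∈ P.powerset, F A) ^ Fintype.card ι := pow_le_pow_right₀ hS (Nat.sub_le _ _)
  rw [← mul_div_assoc]
  apply div_le_div_of_nonneg_right _ hlT.le
  calc (Fintype.card ι : ℝ) * ((∑ A ∈ P.powerset, F A * Real.log (rr A))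
        * (∑ A ∈ P.powerset, F A) ^ (Fintype.card ι - 1))
      = ((Fintype.card ι : ℝ) * (∑ A ∈ P.powerset, F A * Real.log (rr A)))
        * (∑ A ∈ P.powerset, F A) ^ (Fintype.card ι - 1) := by ring
    _ ≤ ((Fintype.card ι : ℝ) * (∑ A ∈ P.powerset, F A * Real.log (rr A)))
        * (∑ A ∈ P.powerset, F A) ^ Fintype.card ι :=
        mul_le_mul_of_nonneg_left hpow (by positivity)
    _ = _ := by ring

end Pool.Agent.LibRG87
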