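import Pool.Agent.LibRG87.R0

/-!
Row R10: the collapse.
-/

open Finset

namespace Pool.Agent.LibRG87

variable {ι : Type} [Fintype ι] [DecidableEq ι] (P : Finset ℕ)

/-- `β` with the position `i₀` removed -/
def R10_rem (i₀ : ι) (β : P → Option ι) : P → Option ι :=
  fun p => if β p = some i₀ then none else β p

/-- the primes in `A` are assigned to `i₀` -/
def R10_ins (i₀ : ι) (A : Finset ℕ) (β : P → Option ι) : P → Option ι :=
  fun p => if (p : ℕ) ∈ A then some i₀ else β p

omit [Fintype ι] in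
theorem R10_rem_ne (i₀ : ι) (β : P → Option ι) (p : P) : R10_rem P i₀ β p ≠ some i₀ := by
  unfold R10_rem
  by_cases h : β p = some i₀
  · rw [if_pos h]
    exact fun h' => by cases h'
  · rw [if_neg h]
    exact h

theorem R10_fb_ne {i i₀ : ι} (h : i ≠ i₀) (β : P → Option ι) :
    fb P (R10_rem P i₀ β) i = fb P β i := by
  ext q
  rw [mem_fb, mem_fb]
  refine exists_congr fun hq => ?_
  unfold R10_rem
  by_cases h1 : β ⟨q, hq⟩ = some i₀
  · rw [if_pos h1, h1]
    constructor
    · intro h2
      cases h2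
    · intro h2
      exact absurd (Option.some_injective _ h2).symm h
  · rw [if_neg h1]

theorem R10_fb_self (i₀ : ι) (β : P → Option ι) : fb P (R10_rem P i₀ β) i₀ = ∅ := by
  ext q
  rw [mem_fb]
  constructor
  · rintro ⟨hq, h1⟩
    exact absurd h1 (R10_rem_ne P i₀ β _)
  · intro h1
    exact absurd h1 (Finset.notMem_empty _)

theorem R10_prod (g : Finset ℕ → ℝ) (hg : g ∅ = 1) (i₀ : ι) (β : P → Option ι) :
    ∏ i, g (fb P β i) = g (fb P β i₀) * ∏ i, g (fb P (R10_rem P i₀ β) i) := by
  rw [← Finset.mul_prod_erase univ (fun i => g (fb P β i)) (mem_univ i₀),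
    ← Finset.mul_prod_erase univ (fun i => g (fb P (R10_rem P i₀ β) i)) (mem_univ i₀),
    R10_fb_self, hg, one_mul]
  congr 1
  refine Finset.prod_congr rfl fun i hi => ?_
  rw [R10_fb_ne P (Finset.ne_of_mem_erase hi)]

theorem R10_ee (b : ι → ℕ) (i₀ : ι) (n : ℕ) (hn : ∀ p ∈ P, ¬ p ∣ n + b i₀) (β : P → Option ι) :
    ee P b β n = ee P b (R10_rem P i₀ β) n * (ph (fb P β i₀))⁻¹ := by
  have h1 : (ph (fb P β i₀))⁻¹ = ∏ p : P, (if β p = some i₀ then (((p : ℕ) : ℝ) - 1)⁻¹ else 1) := by
    unfold ph fb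
    rw [Finset.prod_image (fun x _ y _ h => Subtype.ext h), ← Finset.prod_inv_distrib,
      Finset.prod_filter]
  rw [h1]
  unfold ee
  rw [← Finset.prod_mul_distrib]
  refine Finset.prod_congr rfl fun p _ => ?_
  unfold R10_rem
  by_cases h : β p = some i₀
  · rw [if_pos h, if_pos h, h]
    have e1 : loc b p (some i₀) n = psi p (n + b i₀) := rfl
    have e2 : loc b p (none : Option ι) n = 1 := rfl
    rw [e1, e2]
    unfold psi
    rw [if_neg (hn p p.2), one_mul, one_div]
  · rw [if_neg h, if_neg h, mul_one]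

omit [Fintype ι] [DecidableEq ι] in
theorem R10_ff_empty (z : ℝ) : ff P z ∅ = 1 := by
  unfold ff
  rw [if_pos rfl]

omit [Fintype ι] [DecidableEq ι] in
theorem R10_rr_empty : rr ∅ = 1 := by
  unfold rr
  rw [Finset.prod_empty]

/-- one term -/
theorem R10_term (b : ι → ℕ) (z T : ℝ) (i₀ : ι) (n : ℕ) (hn : ∀ p ∈ P, ¬ p ∣ n + b i₀)
    (β β' : P → Option ι) (h : R10_rem P i₀ β = β') :
    yy P z T β * ee P b β n =
      (if rr (fb P β i₀) * rr (sp P β') ≤ T then
        ff P z (fb P β i₀) / ph (fb P β i₀) else 0) * ((∏ i, ff P z (fb P β' i)) * ee P b β' n) := by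
  have h1 : rr (sp P β) = rr (fb P β i₀) * rr (sp P β') := by
    rw [rr_sp, rr_sp, R10_prod P rr R10_rr_empty i₀ β, h]
  have h2 : ∏ i, ff P z (fb P β i) = ff P z (fb P β i₀) * ∏ i, ff P z (fb P β' i) := by
    rw [R10_prod P (ff P z) (R10_ff_empty P z) i₀ β, h]
  have h3 := R10_ee P b i₀ n hn β
  rw [h] at h3
  unfold yy
  rw [h1, h2, h3]
  by_cases h4 : rr (fb P β i₀) * rr (sp P β') ≤ T
  · rw [if_pos h4, if_pos h4]
    ring
  · rw [if_neg h4, if_neg h4]
    ring

theorem collapse (b : ι → ℕ) (z T : ℝ) (i₀ : ι) (n : ℕ) (hn : ∀ p ∈ P, ¬ p ∣ n + b i₀) :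
    PhiF P b (yy P z T) n = PhiF P b (yc P z T i₀) n := by
  classical
  unfold PhiF
  rw [← Finset.sum_fiberwise univ (R10_rem P i₀) (fun β => yy P z T β * ee P b β n)]
  refine Finset.sum_congr rfl fun β' _ => ?_
  by_cases hβ' : ∀ p, β' p ≠ some i₀
  · have h1 : yc P z T i₀ β' = (∏ i, ff P z (fb P β' i)) * cc P z T β' := by
      unfold yc
      rw [if_pos hβ']
    rw [h1]
    have h2 : ∑ β ∈ univ with R10_rem P i₀ β = β', yy P z T β * ee P b β n =
        ∑ A ∈ (P \ sp P β').powerset, (if rr A * rr (sp P β') ≤ T then ff P z A / ph A else 0) *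
          ((∏ i, ff P z (fb P β' i)) * ee P b β' n) := by
      refine Finset.sum_nbij' (fun β => fb P β i₀) (fun A => R10_ins P i₀ A β') ?_ ?_ ?_ ?_ ?_
      · intro β hβ
        have hβ2 := (Finset.mem_filter.1 hβ).2
        rw [Finset.mem_powerset]
        intro q hq
        obtain ⟨hqP, h3⟩ := (mem_fb P).1 hq
        rw [Finset.mem_sdiff]
        refine ⟨hqP, fun h4 => ?_⟩
        obtain ⟨_, h5⟩ := (mem_sp P).1 h4
        apply h5
        rw [← hβ2]
        unfold R10_rem
        rw [if_pos h3]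
      · intro A hA
        rw [Finset.mem_powerset] at hA
        rw [Finset.mem_filter]
        refine ⟨mem_univ _, ?_⟩
        funext p
        unfold R10_rem R10_ins
        by_cases hp : (p : ℕ) ∈ A
        · rw [if_pos hp, if_pos rfl]
          have h3 := (Finset.mem_sdiff.1 (hA hp)).2
          rw [mem_sp] at h3
          by_contra h4
          exact h3 ⟨p.2, fun h5 => h4 h5.symm⟩
        · rw [if_neg hp, if_neg (hβ' p)]
      · intro β hβ
        have hβ2 := (Finset.mem_filter.1 hβ).2
        funext p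
        unfold R10_ins
        by_cases hp : β p = some i₀
        · rw [if_pos ((mem_fb P).2 ⟨p.2, hp⟩), hp]
        · have h3 : (p : ℕ) ∉ fb P β i₀ := by
            intro h4
            obtain ⟨_, h5⟩ := (mem_fb P).1 h4
            exact hp h5
          rw [if_neg h3, ← hβ2]
          unfold R10_rem
          rw [if_neg hp]
      · intro A hA
        rw [Finset.mem_powerset] at hA
        ext q
        rw [mem_fb]
        constructor
        · rintro ⟨hq, h3⟩
          unfold R10_ins at h3
          by_contra h4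
          rw [if_neg h4] at h3
          exact hβ' _ h3
        · intro hq
          refine ⟨(Finset.mem_sdiff.1 (hA hq)).1, ?_⟩
          unfold R10_ins
          rw [if_pos hq]
      · intro β hβ
        have hβ2 := (Finset.mem_filter.1 hβ).2
        exact R10_term P b z T i₀ n hn β β' hβ2
    rw [h2]
    unfold cc
    rw [Finset.sum_filter, ← Finset.sum_mul]
    ring
  · have h1 : yc P z T i₀ β' = 0 := by
      unfold yc
      rw [if_neg hβ']
    rw [h1, zero_mul]
    push Not at hβ'
    obtain ⟨p, hp⟩ := hβ'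
    refine Finset.sum_eq_zero fun β hβ => ?_
    have hβ2 := (Finset.mem_filter.1 hβ).2
    exfalso
    rw [← hβ2] at hp
    exact R10_rem_ne P i₀ β p hp

end Pool.Agent.LibRG87
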