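import Pool.Agent.LibRG87.Defs

/-!
Row R8b: the local averages. `psi p` is `-1` on one class mod `p` and `1/(p-1)` on the others: mean `0`, mean
square `1/(p-1)`, and for two different classes the mean of the product is
`(1/p)(-2/(p-1) + (p-2)/(p-1)^2) = -1/(p-1)^2`. (Reindex `c ↦ c + b i` mod `p`; or count the `c < p` with
`p ∣ c + b i`: exactly one.) Also: `|loc| ≤ 1`, `loc` is `p`-periodic.
-/

open Finset

namespace Pool.Agent.LibRG87

variable {ι : Type} [Fintype ι] [DecidableEq ι] (P : Finset ℕ)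
theorem loc_per (b : ι → ℕ) (p : ℕ) (o : Option ι) (n : ℕ) : loc b p o (n + p) = loc b p o n := by
  cases o with
  | none => rfl
  | some i =>
    unfold loc
    unfold psi
    have h : (p ∣ n + p + b i) ↔ (p ∣ n + b i) := by
      have e : n + p + b i = (n + b i) + p := by ring
      rw [e]
      exact Nat.dvd_add_self_right
    simp only [h]

theorem R8b_psi_le {p : ℕ} (hp : 2 ≤ p) (n : ℕ) : |psi p n| ≤ 1 := by
  have h2 : (2 : ℝ) ≤ p := by exact_mod_cast hp
  unfold psi
  split_ifs
  · simp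
  · rw [abs_of_nonneg (by apply div_nonneg <;> linarith), div_le_one (by linarith)]
    linarith

theorem abs_loc_le (b : ι → ℕ) {p : ℕ} (hp : 2 ≤ p) (o : Option ι) (n : ℕ) : |loc b p o n| ≤ 1 := by
  cases o with
  | none => simp [loc]
  | some i => exact R8b_psi_le hp _

theorem R8b_unique {p : ℕ} (hp : 0 < p) (s : ℕ) : ∃ c0 : ℕ, c0 < p ∧ ∀ c : ℕ, c < p → (p ∣ c + s ↔ c = c0) := by
  have hs : s % p < p := Nat.mod_lt _ hp
  have key : ∀ c : ℕ, (p ∣ c + s ↔ p ∣ c + s % p) := by
    intro c
    conv_lhs => rw [← Nat.mod_add_div s p, ← add_assoc]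
    exact (Nat.dvd_add_left (dvd_mul_right p _))
  by_cases h0 : s % p = 0
  · refine ⟨0, hp, ?_⟩
    intro c hc
    rw [key, h0, add_zero]
    constructor
    · intro h
      exact Nat.eq_zero_of_dvd_of_lt h hc
    · intro h
      rw [h]
      exact dvd_zero p
  · refine ⟨p - s % p, by omega, ?_⟩
    intro c hc
    rw [key]
    constructor
    · intro h
      obtain ⟨k, hk⟩ := h
      have h1 : k < 2 := by
        by_contra hcon
        have h2 : 2 ≤ k := by omega
        have h3 : p * 2 ≤ p * k := Nat.mul_le_mul_left p h2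
        omega
      have h2 : k ≠ 0 := by
        intro h3
        rw [h3, mul_zero] at hk
        omega
      have h3 : k = 1 := by omega
      rw [h3, mul_one] at hk
      omega
    · intro h
      have : c + s % p = p := by omega
      rw [this]

/-- the indicator of `p ∣ c + s` -/
noncomputable def R8b_I (p s c : ℕ) : ℝ := if p ∣ c + s then 1 else 0

theorem R8b_psi_eq {p : ℕ} (hp : 3 ≤ p) (s c : ℕ) :
    psi p (c + s) = 1 / ((p : ℝ) - 1) - (p : ℝ) / ((p : ℝ) - 1) * R8b_I p s c := by
  have h2 : (3 : ℝ) ≤ p := by exact_mod_cast hp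
  have h3 : (p : ℝ) - 1 ≠ 0 := by linarith
  unfold psi R8b_I
  split_ifs
  · field_simp
    ring
  · simp

theorem R8b_sum_I {p : ℕ} (hp : 0 < p) (s : ℕ) : ∑ c ∈ range p, R8b_I p s c = 1 := by
  obtain ⟨c0, hc0, h⟩ := R8b_unique hp s
  have h1 : ∀ c ∈ range p, R8b_I p s c = if c = c0 then 1 else 0 := by
    intro c hc
    unfold R8b_I
    have := h c (mem_range.1 hc)
    simp only [this]
  rw [sum_congr rfl h1]
  simp [hc0]

theorem R8b_sum_II {p : ℕ} (s t : ℕ) (hst : ¬ s ≡ t [MOD p]) :
    ∑ c ∈ range p, R8b_I p s c * R8b_I p t c = 0 := by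
  refine sum_eq_zero ?_
  intro c _
  unfold R8b_I
  split_ifs with h1 h2
  · exfalso
    apply hst
    have h3 : c + s ≡ c + t [MOD p] := by
      have h4 : c + s ≡ 0 [MOD p] := (Nat.modEq_zero_iff_dvd).2 h1
      have h5 : c + t ≡ 0 [MOD p] := (Nat.modEq_zero_iff_dvd).2 h2
      exact h4.trans h5.symm
    exact Nat.ModEq.add_left_cancel' c h3
  · simp
  · simp
  · simp

theorem R8b_II_self {p : ℕ} (s c : ℕ) : R8b_I p s c * R8b_I p s c = R8b_I p s c := by
  unfold R8b_I
  split_ifs <;> simp

theorem loc_avg (b : ι → ℕ) {p : ℕ} (hp : Nat.Prime p) (hp3 : 3 ≤ p)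
    (hb : ∀ i j : ι, i ≠ j → ¬ b i ≡ b j [MOD p]) (o o' : Option ι) :
    (∑ c ∈ range p, loc b p o c * loc b p o' c) / (p : ℝ) = gg p o o' := by
  have hp0 : 0 < p := hp.pos
  have h2 : (3 : ℝ) ≤ p := by exact_mod_cast hp3
  have h3 : (p : ℝ) - 1 ≠ 0 := by linarith
  have h4 : (p : ℝ) ≠ 0 := by linarith
  have hone : ∀ i : ι, (∑ c ∈ range p, psi p (c + b i)) = 0 := by
    intro i
    simp only [R8b_psi_eq hp3]
    rw [sum_sub_distrib, ← mul_sum, R8b_sum_I hp0]
    simp only [sum_const, card_range, nsmul_eq_mul]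
    field_simp
    ring
  cases o with
  | none =>
    cases o' with
    | none =>
      simp only [loc, gg, mul_one, sum_const, card_range, nsmul_eq_mul]
      field_simp
    | some j =>
      simp only [loc, gg, one_mul]
      rw [hone j, zero_div]
  | some i =>
    cases o' with
    | none =>
      simp only [loc, gg, mul_one]
      rw [hone i, zero_div]
    | some j =>
      simp only [loc, gg]
      have e : ∀ c : ℕ, psi p (c + b i) * psi p (c + b j) = (1 / ((p : ℝ) - 1)) ^ 2
          - (1 / ((p : ℝ) - 1)) * ((p : ℝ) / ((p : ℝ) - 1)) * R8b_I p (b i) c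
          - (1 / ((p : ℝ) - 1)) * ((p : ℝ) / ((p : ℝ) - 1)) * R8b_I p (b j) c
          + ((p : ℝ) / ((p : ℝ) - 1)) ^ 2 * (R8b_I p (b i) c * R8b_I p (b j) c) := by
        intro c
        rw [R8b_psi_eq hp3, R8b_psi_eq hp3]
        ring
      simp only [e]
      rw [sum_add_distrib, sum_sub_distrib, sum_sub_distrib, ← mul_sum, ← mul_sum, ← mul_sum,
        R8b_sum_I hp0, R8b_sum_I hp0]
      simp only [sum_const, card_range, nsmul_eq_mul]
      by_cases hij : i = j
      · subst hij
        rw [if_pos rfl]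
        simp only [R8b_II_self]
        rw [R8b_sum_I hp0]
        field_simp
        ring
      · rw [if_neg hij, R8b_sum_II (b i) (b j) (hb i j hij)]
        field_simp
        ring

end Pool.Agent.LibRG87
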