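import Mathlib

/-! Record gaps (MP_ff81b6_nt), part IV: the interface with the covering lemma. -/

namespace Pool.Agent.LibRG87

/-- The covering lemma: every residue class mod `W` contains, in every interval of length
`exp (9Y/10)`, a number `n` such that all `n + b`, `b ∈ B`, have a prime factor `≤ exp (sqrt Y)`. -/
def Cover : Prop :=
  ∃ c1 : ℝ, 0 < c1 ∧ ∃ Y0 : ℕ, ∀ Y : ℕ, Y0 ≤ Y → ∀ (W n0 M : ℕ) (B : Finset ℕ),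
    0 < W → W ≤ 4 ^ (Y / 8) → (∀ p : ℕ, p.Prime → p ∣ W → p ≤ Y) →
    (∀ b ∈ B, 1 ≤ b ∧ b ≤ Y ^ 2) → (B.card : ℝ) ≤ c1 * Y →
    ∃ n : ℕ, M < n ∧ (n : ℝ) ≤ M + Real.exp (9 / 10 * Y) ∧ n ≡ n0 [MOD W] ∧
      ∀ b ∈ B, ∃ p : ℕ, p.Prime ∧ p ∣ n + b ∧ (p : ℝ) ≤ Real.exp (Real.sqrt Y)

end Pool.Agent.LibRG87
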