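import Pool.Agent.LibRG87.Z

/-!
Row G1: the parameters. `w = Y^3`, `J = ⌊log Y / 4⌋`, `z = w^(2^J)`, `T = exp (Y / 20)`, `P = PP w z`. `c` from
`Z_lower`, `ε₁ = c / 8000` (or smaller).
`ZZ ≥ (c J - 1)/(6 log Y) ≥ c/48` for large `Y` (`J ≥ log Y / 4 - 1`), so `ZZ log w ≥ (c J - 1)/2 ≥ 1`;
`8 N ≤ 8 ε₁ Y ≤ (c/48)(Y/20)`. (h2)-(h4): powers of `Y`. (h5): `log (T/z) = Y/20 - log z`, `N (1/ZZ) ≤ Y/160`
by (h1), so the exponent is at most `1 - (3/80) Y / log z`, and `log z = 2^J * 3 log Y ≤ 3 Y^(1/4) log Y`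
(`2^J = exp (J log 2) ≤ exp (log Y / 4)`), while `16 N ≤ Y`. `z ≤ exp (Y/20)` is also wanted.
-/

open Finset

namespace Pool.Agent.LibRG87

/-- `80 exp (t / 4) t (t + 1) ≤ exp t` for large `t` -/
theorem G1_exp {t : ℝ} (ht : 200 ≤ t) : 80 * (Real.exp (t / 4) * (t * (t + 1))) ≤ Real.exp t := by
  have h1 : Real.exp t = Real.exp (t / 4) * Real.exp (3 * t / 4) := by
    rw [← Real.exp_add]; congr 1; ring
  have h2 : (3 * t / 4) ^ 4 / (Nat.factorial 4 : ℝ) ≤ Real.exp (3 * t / 4) :=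
    Real.pow_div_factorial_le_exp (3 * t / 4) (by linarith) 4
  have h3 : (Nat.factorial 4 : ℝ) = 24 := by norm_num [Nat.factorial]
  rw [h3] at h2
  have h4 : 80 * (t * (t + 1)) ≤ (3 * t / 4) ^ 4 / 24 := by
    have e1 : (3 * t / 4) ^ 4 / 24 = 27 / 2048 * (t ^ 2 * t ^ 2) := by ring
    rw [e1]
    have e2 : 40000 ≤ t ^ 2 := by nlinarith
    have e3 : 80 * (t * (t + 1)) ≤ 160 * t ^ 2 := by nlinarith
    have e4 : (160 : ℝ) * t ^ 2 ≤ 27 / 2048 * (t ^ 2 * t ^ 2) := by nlinarith [sq_nonneg t]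
    linarith
  rw [h1]
  calc 80 * (Real.exp (t / 4) * (t * (t + 1)))
      = Real.exp (t / 4) * (80 * (t * (t + 1))) := by ring
    _ ≤ Real.exp (t / 4) * Real.exp (3 * t / 4) :=
        mul_le_mul_of_nonneg_left (le_trans h4 h2) (Real.exp_pos _).le

theorem params : ∃ ε₁ : ℝ, 0 < ε₁ ∧ ∃ Y₀ : ℕ, ∀ Y : ℕ, Y₀ ≤ Y → ∀ J z : ℕ,
    J = ⌊Real.log Y / 4⌋₊ → z = (Y ^ 3) ^ (2 ^ J) → ∀ N : ℕ, (N : ℝ) ≤ ε₁ * Y →
    3 ≤ Y ^ 3 ∧ 1 < (z : ℝ) ∧ (z : ℝ) ≤ Real.exp (Y / 20) ∧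
    1 ≤ ZZ (PP (Y ^ 3) z) (z : ℝ) * Real.log ((Y ^ 3 : ℕ) : ℝ) ∧
    8 * (N : ℝ) ≤ ZZ (PP (Y ^ 3) z) (z : ℝ) * Real.log (Real.exp (Y / 20)) ∧
    16 * (N : ℝ) ^ 2 ≤ ((Y ^ 3 : ℕ) : ℝ) - 1 ∧
    16 * ((N : ℝ) * Real.log (Real.exp (Y / 20))) ≤
      (((Y ^ 3 : ℕ) : ℝ) - 1) * Real.log ((Y ^ 3 : ℕ) : ℝ) ∧
    16 * ((N : ℝ) * (2 * Real.log (Real.exp (Y / 20)) /
      ((((Y ^ 3 : ℕ) : ℝ) - 1) * Real.log ((Y ^ 3 : ℕ) : ℝ))) ^ 2) ≤ 1 ∧
    16 * ((N : ℝ) * Real.exp (-(Real.log (Real.exp (Y / 20) / z) / Real.log z) +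
          2 * (N * (1 / ZZ (PP (Y ^ 3) z) (z : ℝ)) / Real.log z))) ≤ 1 := by
  obtain ⟨c, hc, hZ⟩ := Z_lower
  refine ⟨min (c / 8000) (1 / 16), lt_min (by positivity) (by norm_num), ?_⟩
  -- the size of `Y`
  set M : ℝ := max 200 (max (8 * (c + 1) / c) (16 / c)) with hM
  refine ⟨⌈Real.exp M⌉₊, ?_⟩
  intro Y hY J z hJ hz N hN
  have hY1 : Real.exp M ≤ Y := le_trans (Nat.le_ceil _) (by exact_mod_cast hY)
  set t : ℝ := Real.log Y with ht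
  have hYpos : (0 : ℝ) < Y := lt_of_lt_of_le (Real.exp_pos M) hY1
  have hMt : M ≤ t := by rw [ht, Real.le_log_iff_exp_le hYpos]; exact hY1
  have ht200 : 200 ≤ t := le_trans (le_max_left _ _) hMt
  have ht1 : 8 * (c + 1) / c ≤ t := le_trans (le_trans (le_max_left _ _) (le_max_right _ _)) hMt
  have ht2 : 16 / c ≤ t := le_trans (le_trans (le_max_right _ _) (le_max_right _ _)) hMt
  have hexpt : Real.exp t = Y := Real.exp_log hYpos
  have hYt : t + 1 ≤ Y := by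
    have := Real.add_one_le_exp t
    rwa [hexpt] at this
  have hY200 : (200 : ℝ) ≤ Y := by linarith
  have hYn : 200 ≤ Y := by exact_mod_cast hY200
  have hN1 : (N : ℝ) ≤ c / 8000 * Y :=
    le_trans hN (mul_le_mul_of_nonneg_right (min_le_left _ _) hYpos.le)
  have hN2 : (N : ℝ) ≤ 1 / 16 * Y :=
    le_trans hN (mul_le_mul_of_nonneg_right (min_le_right _ _) hYpos.le)
  have hN0 : (0 : ℝ) ≤ N := Nat.cast_nonneg N
  have hlw : Real.log ((Y ^ 3 : ℕ) : ℝ) = 3 * t := by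
    rw [Nat.cast_pow, Real.log_pow, ← ht]; norm_num
  have hw2 : 2 ≤ Y ^ 3 := by
    calc 2 ≤ 200 ^ 3 := by norm_num
      _ ≤ Y ^ 3 := Nat.pow_le_pow_left hYn 3
  -- `ZZ`
  set Z := ZZ (PP (Y ^ 3) z) (z : ℝ) with hZdef
  have hZ1 : (c * J - 1) / (2 * (3 * t)) ≤ Z := by
    have := hZ (Y ^ 3) hw2 J
    rw [hlw, ← hz] at this
    exact this
  have hJ1 : t / 4 - 1 ≤ J := by
    rw [hJ]
    have := Nat.lt_floor_add_one (t / 4)
    linarith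
  have hJ2 : (J : ℝ) ≤ t / 4 := by
    rw [hJ]
    exact Nat.floor_le (by linarith)
  have hcJ : c * t / 8 ≤ c * J - 1 := by
    have h1 : 8 * (c + 1) ≤ t * c := by rwa [div_le_iff₀ hc] at ht1
    have h2 : c * (t / 4 - 1) ≤ c * J := mul_le_mul_of_nonneg_left hJ1 hc.le
    nlinarith
  have ht0 : 0 < t := by linarith
  have hZ2 : c / 48 ≤ Z := by
    refine le_trans ?_ hZ1
    rw [le_div_iff₀ (by positivity)]
    calc c / 48 * (2 * (3 * t)) = c * t / 8 := by ring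
      _ ≤ c * J - 1 := hcJ
  have hZpos : 0 < Z := lt_of_lt_of_le (by positivity) hZ2
  -- `log z`
  have hzc : (z : ℝ) = ((Y : ℝ) ^ 3) ^ (2 ^ J) := by rw [hz]; push_cast; ring
  have hlz : Real.log z = 2 ^ J * (3 * t) := by
    rw [hzc, Real.log_pow, Real.log_pow]
    push_cast
    ring
  have h2J : (2 : ℝ) ^ J ≤ Real.exp (t / 4) := by
    have h1 : (2 : ℝ) ^ J ≤ (Real.exp 1) ^ J :=
      pow_le_pow_left₀ (by norm_num) (by have := Real.exp_one_gt_d9; linarith) J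
    rw [← Real.exp_nat_mul, mul_one] at h1
    exact le_trans h1 (Real.exp_le_exp.2 hJ2)
  have h2J1 : (1 : ℝ) ≤ 2 ^ J := one_le_pow₀ (by norm_num)
  have hlz0 : 0 < Real.log z := by rw [hlz]; positivity
  have hlzle : Real.log z ≤ Real.exp (t / 4) * (3 * t) := by
    rw [hlz]
    exact mul_le_mul_of_nonneg_right h2J (by positivity)
  have hkey : 80 * (Real.exp (t / 4) * (t * (t + 1))) ≤ Y := by
    have := G1_exp ht200
    rwa [hexpt] at this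
  have hlzY : Real.log z * (t + 1) * 80 ≤ 3 * Y := by
    have h1 : Real.log z * (t + 1) ≤ Real.exp (t / 4) * (3 * t) * (t + 1) :=
      mul_le_mul_of_nonneg_right hlzle (by linarith)
    nlinarith
  have hlz20 : Real.log z ≤ Y / 20 := by
    have h1 : Real.log z * 201 ≤ Real.log z * (t + 1) :=
      mul_le_mul_of_nonneg_left (by linarith) hlz0.le
    nlinarith
  have hz1 : 1 < (z : ℝ) := by
    have h0 : (0 : ℝ) ≤ z := Nat.cast_nonneg z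
    exact (Real.log_pos_iff h0).1 hlz0
  have hz0 : (0 : ℝ) < z := by linarith
  have hY3 : (8000000 : ℝ) ≤ (Y : ℝ) ^ 3 := by
    have : (200 : ℝ) ^ 3 ≤ (Y : ℝ) ^ 3 := pow_le_pow_left₀ (by norm_num) hY200 3
    linarith
  have hY3' : 200 * (Y : ℝ) ^ 2 ≤ (Y : ℝ) ^ 3 := by
    have : (Y : ℝ) ^ 3 = Y * (Y : ℝ) ^ 2 := by ring
    rw [this]
    exact mul_le_mul_of_nonneg_right hY200 (by positivity)
  have hcast : ((Y ^ 3 : ℕ) : ℝ) = (Y : ℝ) ^ 3 := by push_cast; ring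
  have h5 : 8 * (N : ℝ) ≤ Z * (Y / 20) := by
    have h1 : c / 48 * ((Y : ℝ) / 20) ≤ Z * (Y / 20) :=
      mul_le_mul_of_nonneg_right hZ2 (by positivity)
    have h2 : 8 * (c / 8000 * (Y : ℝ)) ≤ c / 48 * ((Y : ℝ) / 20) := by
      have : 0 < c * Y := by positivity
      nlinarith
    linarith
  refine ⟨?_, hz1, ?_, ?_, ?_, ?_, ?_, ?_, ?_⟩
  · calc 3 ≤ 200 ^ 3 := by norm_num
      _ ≤ Y ^ 3 := Nat.pow_le_pow_left hYn 3
  · rw [← Real.exp_log hz0]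
    exact Real.exp_le_exp.2 hlz20
  · rw [hlw]
    have h1 : 16 ≤ t * c := by rwa [div_le_iff₀ hc] at ht2
    calc (1 : ℝ) ≤ c / 48 * (3 * t) := by linarith
      _ ≤ Z * (3 * t) := mul_le_mul_of_nonneg_right hZ2 (by positivity)
  · rw [Real.log_exp]; exact h5
  · rw [hcast]
    have h1 : (N : ℝ) ^ 2 ≤ (1 / 16 * (Y : ℝ)) ^ 2 := pow_le_pow_left₀ hN0 hN2 2
    nlinarith
  · rw [Real.log_exp, hlw, hcast]
    have h1 : (N : ℝ) * ((Y : ℝ) / 20) ≤ (1 / 16 * (Y : ℝ)) * ((Y : ℝ) / 20) :=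
      mul_le_mul_of_nonneg_right hN2 (by positivity)
    have h2 : ((Y : ℝ) ^ 3 - 1) * 1 ≤ ((Y : ℝ) ^ 3 - 1) * (3 * t) :=
      mul_le_mul_of_nonneg_left (by linarith) (by linarith)
    nlinarith
  · rw [Real.log_exp, hlw, hcast]
    have hD : (0 : ℝ) < ((Y : ℝ) ^ 3 - 1) * (3 * t) := by
      refine mul_pos (by linarith) (by positivity)
    have h1 : 2 * ((Y : ℝ) / 20) / (((Y : ℝ) ^ 3 - 1) * (3 * t)) ≤ 1 / Y := by
      rw [div_le_div_iff₀ hD hYpos]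
      have h2 : ((Y : ℝ) ^ 3 - 1) * 1 ≤ ((Y : ℝ) ^ 3 - 1) * (3 * t) :=
        mul_le_mul_of_nonneg_left (by linarith) (by linarith)
      nlinarith
    have h3 : 0 ≤ 2 * ((Y : ℝ) / 20) / (((Y : ℝ) ^ 3 - 1) * (3 * t)) := by positivity
    have h4 : (2 * ((Y : ℝ) / 20) / (((Y : ℝ) ^ 3 - 1) * (3 * t))) ^ 2 ≤ (1 / Y) ^ 2 :=
      pow_le_pow_left₀ h3 h1 2
    have h5' : (N : ℝ) * (2 * ((Y : ℝ) / 20) / (((Y : ℝ) ^ 3 - 1) * (3 * t))) ^ 2
        ≤ (1 / 16 * Y) * (1 / Y) ^ 2 :=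
      mul_le_mul hN2 h4 (by positivity) (by positivity)
    have h6 : (1 / 16 * (Y : ℝ)) * (1 / Y) ^ 2 = 1 / (16 * Y) := by
      field_simp
    rw [h6] at h5'
    have h7 : 1 / (16 * (Y : ℝ)) ≤ 1 / 16 := by
      apply one_div_le_one_div_of_le (by norm_num)
      linarith
    linarith
  · have hlogdiv : Real.log (Real.exp (Y / 20) / z) = Y / 20 - Real.log z := by
      rw [Real.log_div (Real.exp_pos _).ne' hz0.ne', Real.log_exp]
    rw [hlogdiv]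
    have hNZ : (N : ℝ) * (1 / Z) ≤ Y / 160 := by
      rw [mul_one_div, div_le_iff₀ hZpos]
      linarith
    have hexp : -(((Y : ℝ) / 20 - Real.log z) / Real.log z)
        + 2 * ((N : ℝ) * (1 / Z) / Real.log z) ≤ -t := by
      have h1 : (N : ℝ) * (1 / Z) / Real.log z ≤ Y / 160 / Real.log z :=
        div_le_div_of_nonneg_right hNZ hlz0.le
      have h2 : ((Y : ℝ) / 20 - Real.log z) / Real.log z = Y / 20 / Real.log z - 1 := by
        rw [sub_div, div_self hlz0.ne']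
      have h3 : (t + 1) * (80 / 3) ≤ Y / Real.log z := by
        rw [le_div_iff₀ hlz0]
        nlinarith
      have h4 : (Y : ℝ) / 20 / Real.log z = (Y / Real.log z) * (1 / 20) := by ring
      have h5'' : (Y : ℝ) / 160 / Real.log z = (Y / Real.log z) * (1 / 160) := by ring
      rw [h2, h4]
      rw [h5''] at h1
      linarith
    have h6 : Real.exp (-(((Y : ℝ) / 20 - Real.log z) / Real.log z)
        + 2 * ((N : ℝ) * (1 / Z) / Real.log z)) ≤ (Y : ℝ)⁻¹ := by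
      calc _ ≤ Real.exp (-t) := Real.exp_le_exp.2 hexp
        _ = (Y : ℝ)⁻¹ := by rw [Real.exp_neg, hexpt]
    have h7 : (N : ℝ) * Real.exp (-(((Y : ℝ) / 20 - Real.log z) / Real.log z)
        + 2 * ((N : ℝ) * (1 / Z) / Real.log z)) ≤ (1 / 16 * Y) * (Y : ℝ)⁻¹ :=
      mul_le_mul hN2 h6 (Real.exp_pos _).le (by positivity)
    have h8 : (1 / 16 * (Y : ℝ)) * (Y : ℝ)⁻¹ = 1 / 16 := by
      field_simp
    rw [h8] at h7
    linarith

end Pool.Agent.LibRG87
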