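import Pool.Agent.LibRG87.Fin2
import Pool.Agent.LibRG87.FDefs
import Pool.Agent.LibRG87.G1

/-! The covering lemma in the form `Cover`. -/

set_option autoImplicit false

open Finset Filter Topology

namespace Pool.Agent.LibRG87

/-- `z ≤ exp (√Y)`. -/
theorem Cover_z_le : ∀ᶠ Y : ℕ in atTop, ∀ J z : ℕ, J = ⌊Real.log Y / 4⌋₊ →
    z = (Y ^ 3) ^ (2 ^ J) → (z : ℝ) ≤ Real.exp (Real.sqrt Y) := by
  have h1 : Tendsto (fun x : ℝ => Real.log x / x ^ ((1 : ℝ) / 4)) atTop (𝓝 0) :=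
    (isLittleO_log_rpow_atTop (by norm_num)).tendsto_div_nhds_zero
  have h2 := (h1.comp tendsto_natCast_atTop_atTop).eventually_lt_const
    (show (0 : ℝ) < 1 / 3 by norm_num)
  filter_upwards [h2, eventually_ge_atTop 2] with Y hY hY2 J z hJ hz
  simp only [Function.comp] at hY
  have hY0 : (2 : ℝ) ≤ Y := by exact_mod_cast hY2
  have hYp : (0 : ℝ) < (Y : ℝ) ^ ((1 : ℝ) / 4) := Real.rpow_pos_of_pos (by linarith) _
  rw [div_lt_iff₀ hYp] at hY
  have hl : 0 < Real.log Y := Real.log_pos (by linarith)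
  have hz0 : 0 < (z : ℝ) := by
    rw [hz]
    push_cast
    positivity
  rw [← Real.log_le_iff_le_exp hz0, hz]
  push_cast
  rw [Real.log_pow, Real.log_pow]
  push_cast
  have hJ1 : (J : ℝ) ≤ Real.log Y / 4 := by
    rw [hJ]
    exact Nat.floor_le (by positivity)
  have hpow : (2 : ℝ) ^ J ≤ (Y : ℝ) ^ ((1 : ℝ) / 4) := by
    rw [← Real.rpow_natCast 2 J, Real.rpow_def_of_pos (by norm_num : (0 : ℝ) < 2),
      Real.rpow_def_of_pos (by linarith : (0 : ℝ) < (Y : ℝ))]
    apply Real.exp_le_exp.2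
    have h3 : Real.log 2 ≤ 1 := by
      have := Real.log_two_lt_d9
      linarith
    have h4 : (0 : ℝ) ≤ J := Nat.cast_nonneg _
    nlinarith
  have hs : (Y : ℝ) ^ ((1 : ℝ) / 4) * (Y : ℝ) ^ ((1 : ℝ) / 4) = Real.sqrt Y := by
    rw [← Real.rpow_add (by linarith), Real.sqrt_eq_rpow]
    norm_num
  rw [← hs]
  have h5 : (2 : ℝ) ^ J * (3 * Real.log Y) ≤ (Y : ℝ) ^ ((1 : ℝ) / 4) * (3 * Real.log Y) :=
    mul_le_mul_of_nonneg_right hpow (by positivity)
  refine h5.trans ?_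
  exact mul_le_mul_of_nonneg_left (by linarith) hYp.le

/-- **The covering lemma.** -/
theorem cover : Cover := by
  obtain ⟨ε, hε, Y₀, hpar⟩ := params
  -- the numerical facts
  have hexp : Tendsto (fun Y : ℕ => (Y : ℝ) ^ 1 * Real.exp (-(1 / 5 : ℝ) * Y)) atTop (𝓝 0) := by
    have h := Real.tendsto_pow_mul_exp_neg_atTop_nhds_zero 1
    have h1 := (h.comp (tendsto_natCast_atTop_atTop.const_mul_atTop
      (show (0 : ℝ) < 1 / 5 by norm_num))).const_mul (5 : ℝ)
    rw [mul_zero] at h1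
    refine h1.congr fun Y => ?_
    simp only [Function.comp, pow_one]
    rw [neg_mul]
    ring
  have he1 : ∀ᶠ Y : ℕ in atTop, 36 * ((ε + 1) * ((Y : ℝ) * Real.exp (-(1 / 5 : ℝ) * Y))) ≤
      1 / 4 := by
    have h1 := (hexp.const_mul (ε + 1)).const_mul (36 : ℝ)
    rw [mul_zero, mul_zero] at h1
    filter_upwards [h1.eventually_lt_const (show (0 : ℝ) < 1 / 4 by norm_num)] with Y hY
    rw [pow_one] at hY
    exact hY.le
  have he2 : ∀ᶠ Y : ℕ in atTop, (2 : ℝ) ≤ Real.exp (Y / 2) := by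
    have h1 : Tendsto (fun Y : ℕ => Real.exp ((Y : ℝ) / 2)) atTop atTop :=
      Real.tendsto_exp_atTop.comp (tendsto_natCast_atTop_atTop.atTop_div_const (by norm_num))
    exact h1.eventually_ge_atTop 2
  have he3 : ∀ᶠ Y : ℕ in atTop, (4 : ℝ) ≤ Real.exp (Y / 5) := by
    have h1 : Tendsto (fun Y : ℕ => Real.exp ((Y : ℝ) / 5)) atTop atTop :=
      Real.tendsto_exp_atTop.comp (tendsto_natCast_atTop_atTop.atTop_div_const (by norm_num))
    exact h1.eventually_ge_atTop 4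
  obtain ⟨Y₁, hY₁⟩ := Filter.eventually_atTop.1
    (Cover_z_le.and (he1.and (he2.and (he3.and (eventually_ge_atTop 2)))))
  refine ⟨ε, hε, max Y₀ Y₁, fun Y hYY W n0 M B hW hW4 hWp hB hcard => ?_⟩
  obtain ⟨hzle, h36, h2e, h4e, hY2⟩ := hY₁ Y ((le_max_right _ _).trans hYY)
  set J : ℕ := ⌊Real.log Y / 4⌋₊ with hJ
  set z : ℕ := (Y ^ 3) ^ (2 ^ J) with hz
  obtain ⟨p1, p2, p3, p4, p5, p6, p7, p8, p9⟩ :=
    hpar Y ((le_max_left _ _).trans hYY) J z hJ hz B.card hcard
  have hzs := hzle J z hJ hz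
  set w : ℕ := Y ^ 3 with hw
  set P := PP w z with hPdef
  set N : ℝ := (B.card : ℝ) with hN
  have hN0 : 0 ≤ N := Nat.cast_nonneg _
  have hY2' : (2 : ℝ) ≤ Y := by exact_mod_cast hY2
  have hw1 : (1 : ℝ) < w := by exact_mod_cast (by omega : 1 < w)
  have hlw : 0 < Real.log w := Real.log_pos hw1
  have hPp : ∀ p ∈ P, Nat.Prime p := by
    intro p hp
    rw [hPdef, PP, Finset.mem_filter] at hp
    exact hp.2
  have hPw : ∀ p ∈ P, w < p := by
    intro p hp
    rw [hPdef, PP, Finset.mem_filter, Finset.mem_Ioc] at hp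
    exact hp.1.1
  have hPz : ∀ p ∈ P, p ≤ z := by
    intro p hp
    rw [hPdef, PP, Finset.mem_filter, Finset.mem_Ioc] at hp
    exact hp.1.2
  set T : ℝ := Real.exp (Y / 20) with hT
  have hT1 : 1 < T := by
    rw [hT]
    apply Real.one_lt_exp_iff.2
    positivity
  have hlT : Real.log T = Y / 20 := by rw [hT, Real.log_exp]
  have hlT0 : 0 < Real.log T := Real.log_pos hT1
  have hZZ : 0 < ZZ P (z : ℝ) := by
    by_contra h
    have : ZZ P (z : ℝ) * Real.log w ≤ 0 := mul_nonpos_of_nonpos_of_nonneg (not_lt.1 h) hlw.le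
    linarith
  -- the positions
  have hNcard : Fintype.card {b // b ∈ B} = B.card := Fintype.card_coe B
  have hcardw : B.card + 1 ≤ w := by
    have h1 : 16 * (B.card : ℝ) ^ 2 ≤ (w : ℝ) - 1 := p6
    rcases Nat.eq_zero_or_pos B.card with h0 | h0
    · rw [h0]
      omega
    · have h3 : (1 : ℝ) ≤ B.card := by exact_mod_cast h0
      have h4 : (B.card : ℝ) + 1 ≤ w := by nlinarith
      exact_mod_cast h4
  have hdist : ∀ p ∈ P, ∀ i j : {b // b ∈ B}, i ≠ j → ¬ (i : ℕ) ≡ (j : ℕ) [MOD p] := by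
    intro p hp i j hij hmod
    apply hij
    apply Subtype.ext
    have hYw : Y ^ 2 ≤ w := by
      rw [hw]
      exact Nat.pow_le_pow_right (by omega) (by norm_num)
    have h1 : (i : ℕ) < p := lt_of_le_of_lt ((hB i i.2).2.trans hYw) (hPw p hp)
    have h2 : (j : ℕ) < p := lt_of_le_of_lt ((hB j j.2).2.trans hYw) (hPw p hp)
    exact Nat.ModEq.eq_of_lt_of_lt hmod h1 h2
  have hWc : ∀ p ∈ P, Nat.Coprime p W := by
    intro p hp
    rw [Nat.Prime.coprime_iff_not_dvd (hPp p hp)]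
    intro hd
    have h1 := hWp p (hPp p hp) hd
    have h2 := hPw p hp
    have h3 : Y ≤ w := by
      rw [hw]
      exact Nat.le_self_pow (by norm_num) Y
    omega
  -- the progression
  set n₁ : ℕ := n0 % W + W * (M / W) + W with hn₁
  have hn₁M : M < n₁ := by
    have h1 := Nat.div_add_mod M W
    have h2 := Nat.mod_lt M hW
    rw [hn₁]
    omega
  have hn₁le : n₁ ≤ M + 2 * W := by
    have h1 := Nat.div_add_mod M W
    have h2 := Nat.mod_lt n0 hW
    rw [hn₁]
    omega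
  have hn₁mod : n₁ ≡ n0 [MOD W] := by
    rw [hn₁, Nat.ModEq, Nat.add_mod_right, Nat.add_mul_mod_self_left, Nat.mod_mod]
  set K : ℕ := ⌊Real.exp (Y / 2)⌋₊ with hK
  have hKle : (K : ℝ) ≤ Real.exp (Y / 2) := Nat.floor_le (Real.exp_pos _).le
  have hKge : Real.exp (Y / 2) / 2 ≤ K := by
    have := Nat.lt_floor_add_one (Real.exp ((Y : ℝ) / 2))
    rw [← hK] at this
    linarith
  have hK0 : 0 < K := by
    have : (0 : ℝ) < K := lt_of_lt_of_le (by positivity) hKge
    exact_mod_cast this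
  -- the error term
  have hErr : (N + 1) * (18 * T ^ 6 / K) ≤ 1 / 4 := by
    have h1 : T ^ 6 = Real.exp (3 / 10 * Y) := by
      rw [hT, ← Real.exp_nat_mul]
      congr 1
      push_cast
      ring
    have h2 : 18 * T ^ 6 / K ≤ 36 * Real.exp (-(1 / 5 : ℝ) * Y) := by
      have h3 : 0 < Real.exp ((Y : ℝ) / 2) / 2 := by positivity
      calc 18 * T ^ 6 / K ≤ 18 * T ^ 6 / (Real.exp (Y / 2) / 2) :=
            div_le_div_of_nonneg_left (by positivity) h3 hKge
        _ = 36 * Real.exp (-(1 / 5 : ℝ) * Y) := by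
            rw [h1, div_div_eq_mul_div, div_eq_iff (by positivity)]
            rw [mul_assoc 36, ← Real.exp_add]
            have h4 : -(1 / 5 : ℝ) * Y + Y / 2 = 3 / 10 * Y := by ring
            rw [h4]
            ring
    have h3 : N + 1 ≤ (ε + 1) * Y := by nlinarith
    calc (N + 1) * (18 * T ^ 6 / K) ≤ ((ε + 1) * Y) * (36 * Real.exp (-(1 / 5 : ℝ) * Y)) :=
          mul_le_mul h3 h2 (by positivity) (by positivity)
      _ = 36 * ((ε + 1) * ((Y : ℝ) * Real.exp (-(1 / 5 : ℝ) * Y))) := by ring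
      _ ≤ 1 / 4 := h36
  -- δ
  have hδ : Real.exp (N * (Real.log T / Real.log w) / w) ≤ 1 + 1 / 8 := by
    have h1 : N * (Real.log T / Real.log w) / w ≤ 1 / 16 := by
      rw [mul_div_assoc', div_div, div_le_iff₀ (by positivity)]
      nlinarith [p7]
    have h2 := Real.exp_le_exp.2 h1
    have h3 : Real.exp (1 / 16) ≤ 1 + 1 / 8 := by
      have h4 := Real.exp_bound' (x := 1 / 16) (by norm_num) (by norm_num) (n := 2) (by norm_num)
      norm_num [Finset.sum_range_succ] at h4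
      linarith
    exact h2.trans h3
  have hmain := cover_fin (ι := {b // b ∈ B}) P hPp p1 hPw (by rw [hNcard]; exact hcardw)
    (z := (z : ℝ)) (T := T) (δ := 1 / 8) p2 hT1 p4 (fun i => (i : ℕ)) hdist W n₁ K hWc hK0
    (by rw [hNcard]; exact hδ) (by norm_num) (by
      rw [hNcard]
      have h1 : N ^ 2 / ((w : ℝ) - 1) ≤ 1 / 16 := by
        rw [div_le_iff₀ (by linarith)]
        linarith [p6]
      have h2 : N * (1 / ZZ P (z : ℝ)) / Real.log T ≤ 1 / 8 := by
        rw [mul_one_div, div_div, div_le_iff₀ (by positivity)]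
        linarith [p5]
      have h3 : 16 * (N * (2 * Real.log T / (((w : ℝ) - 1) * Real.log w)) ^ 2) ≤ 1 := p8
      have h4 : 16 * (N * Real.exp (-(Real.log (T / z) / Real.log z) +
          2 * (N * (1 / ZZ P (z : ℝ)) / Real.log z))) ≤ 1 := p9
      show N * ((1 + 1 / 8) * ((2 * Real.log T / (((w : ℝ) - 1) * Real.log w)) ^ 2 +
        Real.exp (-(Real.log (T / z) / Real.log z) +
          2 * (N * (1 / ZZ P (z : ℝ)) / Real.log z)))) + (N + 1) * (18 * T ^ 6 / K) <
        (1 - 1 / 8) * (1 - N ^ 2 / ((w : ℝ) - 1) - N * (1 / ZZ P (z : ℝ)) / Real.log T)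
      nlinarith [h1, h2, h3, h4, hErr])
  obtain ⟨k, hk, hcov⟩ := hmain
  refine ⟨n₁ + W * k, by omega, ?_, ?_, ?_⟩
  · -- the size
    have hW4' : (W : ℝ) ≤ Real.exp (1 / 5 * Y) := by
      have h1 : (W : ℝ) ≤ (4 : ℝ) ^ (Y / 8) := by exact_mod_cast hW4
      refine h1.trans ?_
      rw [← Real.rpow_natCast, Real.rpow_def_of_pos (by norm_num)]
      apply Real.exp_le_exp.2
      have h2 : ((Y / 8 : ℕ) : ℝ) ≤ (Y : ℝ) / 8 := Nat.cast_div_le
      have h3 : Real.log 4 ≤ 8 / 5 := by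
        have h4 : Real.log 4 = 2 * Real.log 2 := by
          rw [show (4 : ℝ) = 2 ^ 2 by norm_num, Real.log_pow]
          norm_num
        rw [h4]
        have := Real.log_two_lt_d9
        linarith
      have h4 : 0 ≤ Real.log 4 := Real.log_nonneg (by norm_num)
      have h5 : (0 : ℝ) ≤ ((Y / 8 : ℕ) : ℝ) := Nat.cast_nonneg _
      nlinarith
    have hk' : (k : ℝ) + 1 ≤ Real.exp (Y / 2) := by
      have : ((k + 1 : ℕ) : ℝ) ≤ K := by exact_mod_cast hk
      push_cast at this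
      linarith
    have h1 : ((n₁ + W * k : ℕ) : ℝ) ≤ M + W * (k + 1 + 1) := by
      have : n₁ + W * k ≤ M + W * (k + 1 + 1) := by
        have h2 : W * (k + 1 + 1) = W * k + 2 * W := by ring
        omega
      exact_mod_cast this
    refine h1.trans ?_
    have h2 : (W : ℝ) * (k + 1 + 1) ≤ Real.exp (1 / 5 * Y) * (2 * Real.exp (Y / 2)) := by
      apply mul_le_mul hW4' _ (by positivity) (Real.exp_pos _).le
      linarith
    have h3 : Real.exp (1 / 5 * (Y : ℝ)) * (2 * Real.exp ((Y : ℝ) / 2)) ≤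
        Real.exp (9 / 10 * Y) := by
      have h4 : Real.exp (9 / 10 * (Y : ℝ)) =
          Real.exp (1 / 5 * (Y : ℝ)) * Real.exp ((Y : ℝ) / 2) * Real.exp ((Y : ℝ) / 5) := by
        rw [← Real.exp_add, ← Real.exp_add]
        congr 1
        ring
      rw [h4]
      have h5 : 0 < Real.exp (1 / 5 * (Y : ℝ)) * Real.exp ((Y : ℝ) / 2) := by positivity
      nlinarith
    linarith
  · have h1 : n₁ + W * k ≡ n₁ [MOD W] := by
      rw [Nat.ModEq, Nat.add_mul_mod_self_left]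
    exact h1.trans hn₁mod
  · intro b hb
    obtain ⟨p, hp, hd⟩ := hcov ⟨b, hb⟩
    refine ⟨p, hPp p hp, hd, ?_⟩
    refine le_trans ?_ hzs
    exact_mod_cast hPz p hp

end Pool.Agent.LibRG87
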