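import Pool.Agent.LibRG87.EDefs

/-! ROW E1 (greedy choice).  PLAN: induction on `P` (Finset.induction_on).  Empty: any `a`.
Step `insert q P`: take `a` from the induction hypothesis for `P`, `T = S.filter (∀ p∈P, ¬ b ≡ a p [MOD p])`.
`T` is the disjoint union over the residues `r < q` of `T.filter (b % q = r)`
(`Finset.card_eq_sum_card_fiberwise`), so some `r < q` has `T.card ≤ q * card(T.filter (b % q = r))`
(`Finset.exists_le_card_fiber_of_mul_le_card_of_maps_to` or: otherwise sum < T.card; careful T empty).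
Put `a' = Function.update a q r`.  Then the new filter is contained in `T.filter (b % q ≠ r)`, whose card is
`T.card - card(fiber) ≤ T.card (1 - 1/q)`.  `Nat.ModEq` unfolds to equality of `%`. -/

namespace Pool.Agent.LibRG87

open Finset

private theorem E1_step (T : Finset ℕ) (q : ℕ) (hq : 0 < q) :
    ∃ r : ℕ, r < q ∧ ((T.filter (fun b => ¬ b % q = r)).card : ℝ) ≤ T.card * (1 - 1 / (q : ℝ)) := by
  have hqR : (0 : ℝ) < q := by exact_mod_cast hq
  have hsum : T.card = ∑ r ∈ Finset.range q, (T.filter (fun b => b % q = r)).card := by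
    apply Finset.card_eq_sum_card_fiberwise
    intro b _
    exact Finset.mem_coe.2 (Finset.mem_range.2 (Nat.mod_lt b hq))
  have hex : ∃ r ∈ Finset.range q, T.card ≤ q * (T.filter (fun b => b % q = r)).card := by
    by_contra hcon
    push Not at hcon
    have h1 : ∑ r ∈ Finset.range q, q * (T.filter (fun b => b % q = r)).card <
        ∑ r ∈ Finset.range q, T.card :=
      Finset.sum_lt_sum_of_nonempty ⟨0, Finset.mem_range.2 hq⟩ hcon
    rw [← Finset.mul_sum, ← hsum, Finset.sum_const, Finset.card_range, smul_eq_mul] at h1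
    exact lt_irrefl _ h1
  obtain ⟨r, hr, hle⟩ := hex
  refine ⟨r, Finset.mem_range.1 hr, ?_⟩
  have hsplit : (T.filter (fun b => b % q = r)).card + (T.filter (fun b => ¬ b % q = r)).card =
      T.card := Finset.card_filter_add_card_filter_not _
  have hsplitR : ((T.filter (fun b => b % q = r)).card : ℝ) +
      ((T.filter (fun b => ¬ b % q = r)).card : ℝ) = (T.card : ℝ) := by exact_mod_cast hsplit
  have hleR : (T.card : ℝ) ≤ q * ((T.filter (fun b => b % q = r)).card : ℝ) := by
    exact_mod_cast hle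
  have h2 : (T.card : ℝ) / q ≤ ((T.filter (fun b => b % q = r)).card : ℝ) := by
    rw [div_le_iff₀ hqR]
    linarith
  have h3 : (T.card : ℝ) * (1 - 1 / (q : ℝ)) = T.card - (T.card : ℝ) / q := by ring
  rw [h3]
  linarith

theorem greedy (S P : Finset ℕ) (hP : ∀ p ∈ P, p.Prime) :
    ∃ a : ℕ → ℕ, ((S.filter (fun b => ∀ p ∈ P, ¬ (b ≡ a p [MOD p]))).card : ℝ) ≤
      S.card * ∏ p ∈ P, (1 - 1 / (p : ℝ)) := by
  classical
  induction P using Finset.induction_on with
  | empty =>
    refine ⟨fun _ => 0, ?_⟩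
    simp
  | insert q P hqP ih =>
    obtain ⟨a, ha⟩ := ih fun p hp => hP p (Finset.mem_insert_of_mem hp)
    have hq : q.Prime := hP q (Finset.mem_insert_self q P)
    have hqR : (1 : ℝ) ≤ q := by exact_mod_cast hq.one_lt.le
    obtain ⟨r, hr, hle⟩ := E1_step (S.filter (fun b => ∀ p ∈ P, ¬ (b ≡ a p [MOD p]))) q hq.pos
    refine ⟨Function.update a q r, ?_⟩
    have hsub : (S.filter (fun b => ∀ p ∈ insert q P, ¬ (b ≡ Function.update a q r p [MOD p]))) ⊆
        ((S.filter (fun b => ∀ p ∈ P, ¬ (b ≡ a p [MOD p]))).filter (fun b => ¬ b % q = r)) := by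
      intro b hb
      rw [Finset.mem_filter] at hb
      rw [Finset.mem_filter, Finset.mem_filter]
      refine ⟨⟨hb.1, fun p hp => ?_⟩, ?_⟩
      · have h1 := hb.2 p (Finset.mem_insert_of_mem hp)
        have hne : p ≠ q := fun h => hqP (h ▸ hp)
        rwa [Function.update_of_ne hne] at h1
      · have h1 := hb.2 q (Finset.mem_insert_self q P)
        rw [Function.update_self] at h1
        intro h2
        apply h1
        show b % q = r % q
        rw [h2, Nat.mod_eq_of_lt hr]
    have h1 : ((S.filter (fun b => ∀ p ∈ insert q P,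
        ¬ (b ≡ Function.update a q r p [MOD p]))).card : ℝ) ≤
        (((S.filter (fun b => ∀ p ∈ P, ¬ (b ≡ a p [MOD p]))).filter
          (fun b => ¬ b % q = r)).card : ℝ) := by
      exact_mod_cast Finset.card_le_card hsub
    rw [Finset.prod_insert hqP]
    have hpos : (0 : ℝ) ≤ 1 - 1 / (q : ℝ) := by
      have : 1 / (q : ℝ) ≤ 1 := by
        rw [div_le_one (by linarith)]
        exact hqR
      linarith
    calc _ ≤ _ := h1
      _ ≤ _ := hle
      _ ≤ (S.card * ∏ p ∈ P, (1 - 1 / (p : ℝ))) * (1 - 1 / (q : ℝ)) :=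
        mul_le_mul_of_nonneg_right ha hpos
      _ = _ := by ring

end Pool.Agent.LibRG87
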