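import Pool.Agent.LibRG87.EDefs
import Pool.Agent.LibMaier.Mertens1

/-! ROW E4 (large primes). -/

namespace Pool.Agent.LibRG87

open Finset

theorem sum_inv_big : ∃ C : ℝ, 0 < C ∧ ∀ a h : ℕ, 2 ≤ a → a ≤ h →
    ∑ q ∈ (Ioc a h).filter Nat.Prime, 1 / (q : ℝ) ≤
      C * (1 + Real.log ((h : ℝ) / a)) / Real.log a := by
  obtain ⟨K, hK, hM⟩ := Pool.Agent.LibMaier.mertens_first
  refine ⟨2 * K + 1, by positivity, ?_⟩
  intro a h ha hah
  have ha2 : (2 : ℝ) ≤ a := by exact_mod_cast ha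
  have hh2 : (2 : ℝ) ≤ h := by exact_mod_cast ha.trans hah
  have hahr : (a : ℝ) ≤ h := by exact_mod_cast hah
  have hla : 0 < Real.log a := Real.log_pos (by linarith)
  have hlr : 0 ≤ Real.log ((h : ℝ) / a) :=
    Real.log_nonneg (by rw [le_div_iff₀ (by linarith)]; linarith)
  -- the sum of log p / p over (a, h]
  have hsplit : Pool.Agent.LibMaier.PN h =
      Pool.Agent.LibMaier.PN a ∪ (Ioc a h).filter Nat.Prime := by
    ext p
    simp only [Pool.Agent.LibMaier.PN, mem_filter, mem_Icc, mem_union, mem_Ioc]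
    constructor
    · rintro ⟨⟨_, h2⟩, h3⟩
      by_cases hp : p ≤ a
      · exact Or.inl ⟨⟨Nat.zero_le _, hp⟩, h3⟩
      · exact Or.inr ⟨⟨by omega, h2⟩, h3⟩
    · rintro (⟨⟨_, h2⟩, h3⟩ | ⟨⟨_, h2⟩, h3⟩)
      · exact ⟨⟨Nat.zero_le _, h2.trans hah⟩, h3⟩
      · exact ⟨⟨Nat.zero_le _, h2⟩, h3⟩
  have hdis : Disjoint (Pool.Agent.LibMaier.PN a) ((Ioc a h).filter Nat.Prime) := by
    rw [Finset.disjoint_left]
    intro p hp hq
    simp only [Pool.Agent.LibMaier.PN, mem_filter, mem_Icc, mem_Ioc] at hp hq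
    omega
  have hT : Pool.Agent.LibMaier.TN h = Pool.Agent.LibMaier.TN a +
      ∑ p ∈ (Ioc a h).filter Nat.Prime, Real.log p / p := by
    simp only [Pool.Agent.LibMaier.TN]
    rw [hsplit, Finset.sum_union hdis]
  have hMh := hM h (by linarith)
  have hMa := hM a (by linarith)
  rw [Nat.floor_natCast] at hMh hMa
  have hlog : Real.log ((h : ℝ) / a) = Real.log h - Real.log a :=
    Real.log_div (by linarith) (by linarith)
  have hS : ∑ p ∈ (Ioc a h).filter Nat.Prime, Real.log p / p ≤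
      Real.log ((h : ℝ) / a) + 2 * K := by
    have h1 := abs_le.mp hMh
    have h2 := abs_le.mp hMa
    rw [hlog]
    linarith [h1.1, h1.2, h2.1, h2.2]
  have hle : ∑ q ∈ (Ioc a h).filter Nat.Prime, 1 / (q : ℝ) ≤
      (∑ p ∈ (Ioc a h).filter Nat.Prime, Real.log p / p) / Real.log a := by
    rw [Finset.sum_div]
    apply Finset.sum_le_sum
    intro p hp
    simp only [mem_filter, mem_Ioc] at hp
    have hap : (a : ℝ) ≤ p := by exact_mod_cast hp.1.1.le
    have hp0 : (0 : ℝ) < p := by linarith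
    have hlap : Real.log a ≤ Real.log p := Real.log_le_log (by linarith) hap
    rw [le_div_iff₀ hla]
    rw [div_mul_eq_mul_div, one_mul]
    exact div_le_div_of_nonneg_right hlap hp0.le
  refine hle.trans ?_
  apply div_le_div_of_nonneg_right _ hla.le
  nlinarith [hS, hlr, hK]

end Pool.Agent.LibRG87
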