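import Pool.Agent.LibRG87.EDefs

/-! ROW E5 (decomposition). -/

namespace Pool.Agent.LibRG87

open Finset

theorem surv_le (h v a : ℕ) :
    ((Surv h v a).card : ℝ) ≤ Psi h v + h * ∑ q ∈ (Ioc a h).filter Nat.Prime, 1 / (q : ℝ) := by
  classical
  have hsub : Surv h v a ⊆ (Icc 1 h).filter (fun b => ∀ p ∈ b.primeFactors, p ≤ v) ∪
      ((Ioc a h).filter Nat.Prime).biUnion (fun q => (Ioc 0 h).filter (fun b => q ∣ b)) := by
    intro b hb
    unfold Surv at hb
    rw [mem_filter, mem_Icc] at hb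
    obtain ⟨⟨hb1, hb2⟩, hb3⟩ := hb
    rw [mem_union, mem_filter, mem_Icc, mem_biUnion]
    by_cases hv : ∀ p ∈ b.primeFactors, p ≤ v
    · exact Or.inl ⟨⟨hb1, hb2⟩, hv⟩
    · push Not at hv
      obtain ⟨q, hq, hqv⟩ := hv
      have hqp := Nat.prime_of_mem_primeFactors hq
      have hqd := Nat.dvd_of_mem_primeFactors hq
      have hqb : q ≤ b := Nat.le_of_dvd (by omega) hqd
      have hqa : a < q := by
        by_contra hcon
        exact hb3 q hq ⟨hqv, by omega⟩
      refine Or.inr ⟨q, ?_, ?_⟩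
      · rw [mem_filter, mem_Ioc]
        exact ⟨⟨hqa, hqb.trans hb2⟩, hqp⟩
      · rw [mem_filter, mem_Ioc]
        exact ⟨⟨by omega, hb2⟩, hqd⟩
  have h1 : (Surv h v a).card ≤ Psi h v + ∑ q ∈ (Ioc a h).filter Nat.Prime, h / q := by
    refine (card_le_card hsub).trans ((card_union_le _ _).trans ?_)
    refine Nat.add_le_add le_rfl (card_biUnion_le.trans ?_)
    refine Finset.sum_le_sum fun q _ => ?_
    rw [Nat.Ioc_filter_dvd_card_eq_div]
  have h2 : ((Surv h v a).card : ℝ) ≤ ((Psi h v + ∑ q ∈ (Ioc a h).filter Nat.Prime, h / q : ℕ) : ℝ) := by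
    exact_mod_cast h1
  refine h2.trans ?_
  push_cast
  refine add_le_add le_rfl ?_
  rw [Finset.mul_sum]
  refine Finset.sum_le_sum fun q _ => ?_
  rw [mul_one_div]
  exact Nat.cast_div_le

end Pool.Agent.LibRG87
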