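import Pool.Agent.LibRG87.EDefs
import Pool.Agent.LibTri.Primes

/-! ROW E6 (Rankin's inequality).  The proof of `harmonic_le_prod` in `Pool/Agent/LibTri/Primes.lean`
with `f : ℕ →* ℝ`, `f n = (n:ℝ)^(-σ)`.
The set `{b ∈ [1,h] : v-smooth} ⊆ Nat.smoothNumbers (v+1)`, so `∑ b^(-σ) ≤ ∏ p ∈ (v+1).primesBelow, (1 - p^(-σ))⁻¹`,
and each `b ≤ h` has `1 ≤ (h/b)^σ = h^σ * b^(-σ)`. -/

namespace Pool.Agent.LibRG87

open Finset

theorem rankin_psi (h v : ℕ) (σ : ℝ) (hσ : 0 < σ) :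
    (Psi h v : ℝ) ≤ (h : ℝ) ^ σ * ∏ p ∈ prs v, (1 - (p : ℝ) ^ (-σ))⁻¹ := by
  let f : ℕ →* ℝ :=
    { toFun := fun n => (n:ℝ) ^ (-σ)
      map_one' := by simp
      map_mul' := fun a b => by
        push_cast
        rw [Real.mul_rpow (Nat.cast_nonneg a) (Nat.cast_nonneg b)] }
  have hfn : ∀ n : ℕ, f n = (n:ℝ) ^ (-σ) := fun n => rfl
  have hf0 : ∀ n : ℕ, 0 ≤ f n := fun n => Real.rpow_nonneg (Nat.cast_nonneg n) _
  have hf : ∀ {p : ℕ}, p.Prime → ‖f p‖ < 1 := by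
    intro p hp
    have h1 : (1:ℝ) < p := by exact_mod_cast hp.one_lt
    rw [Real.norm_of_nonneg (hf0 p), hfn]
    exact Real.rpow_lt_one_of_one_lt_of_neg h1 (by linarith)
  obtain ⟨hsum, hhas⟩ :=
    EulerProduct.summable_and_hasSum_smoothNumbers_prod_primesBelow_geometric (f := f) hf (v + 1)
  set S : Finset ℕ := (Icc 1 h).filter (fun b => ∀ p ∈ b.primeFactors, p ≤ v) with hS
  have hmem : ∀ m ∈ S, m ∈ (v + 1).smoothNumbers := by
    intro m hm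
    rw [hS, mem_filter, mem_Icc] at hm
    rw [Nat.mem_smoothNumbers]
    refine ⟨by omega, ?_⟩
    intro p hp
    have := hm.2 p (List.mem_toFinset.2 hp)
    omega
  have hle : ∑ m ∈ S.attach, f (m : ℕ) ≤ ∏ p ∈ (v + 1).primesBelow, (1 - f p)⁻¹ := by
    let e : {x // x ∈ S} ↪ (v + 1).smoothNumbers :=
      ⟨fun m => ⟨m.1, hmem m.1 m.2⟩, fun a b h => by
        have := congrArg Subtype.val h
        exact Subtype.ext this⟩
    have h2 := sum_le_hasSum (S.attach.map e) (fun m _ => ?_) hhas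
    · rw [Finset.sum_map] at h2
      exact h2
    · exact hf0 _
  rw [Finset.sum_attach S (fun m => f m)] at hle
  have hP : ∏ p ∈ (v + 1).primesBelow, (1 - f p)⁻¹ = ∏ p ∈ prs v, (1 - (p : ℝ) ^ (-σ))⁻¹ := rfl
  rw [hP] at hle
  have h3 : (Psi h v : ℝ) ≤ ∑ m ∈ S, (h : ℝ) ^ σ * f m := by
    have h4 : (Psi h v : ℝ) = ∑ m ∈ S, (1 : ℝ) := by
      rw [Finset.sum_const, nsmul_eq_mul, mul_one]
      rfl
    rw [h4]
    apply Finset.sum_le_sum
    intro m hm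
    rw [hS, mem_filter, mem_Icc] at hm
    have hm0 : (0 : ℝ) < m := by
      have : 0 < m := by omega
      exact_mod_cast this
    have hmh : (m : ℝ) ≤ h := by exact_mod_cast hm.1.2
    have h5 : (m : ℝ) ^ σ * (m : ℝ) ^ (-σ) = 1 := by
      rw [← Real.rpow_add hm0, add_neg_cancel, Real.rpow_zero]
    rw [hfn, ← h5]
    apply mul_le_mul_of_nonneg_right _ (Real.rpow_nonneg hm0.le _)
    exact Real.rpow_le_rpow hm0.le hmh hσ.le
  refine h3.trans ?_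
  rw [← Finset.mul_sum]
  exact mul_le_mul_of_nonneg_left hle (Real.rpow_nonneg (Nat.cast_nonneg h) _)

end Pool.Agent.LibRG87
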