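import Pool.Agent.LibRG87.EDefs
import Pool.Agent.LibMaier.Mertens1
import Pool.Agent.LibGal99.B2

/-! ROW E7.  PLAN: put `V = v^η ≥ 1`, `t_p = log p / log v ∈ [0,1]` for `p ≤ v`.  Convexity:
`p^η = V^(t_p) ≤ 1 + t_p (V - 1) ≤ 1 + t_p V` (Bernoulli `Real.rpow_one_add_le_one_add_mul_self` /
`one_add_mul_self_le_rpow_one_add`, or `Real.add_pow_le...`; concave version: for `0 ≤ t ≤ 1`,
`V^t ≤ 1 + t (V-1)`: `Real.rpow_one_add_le_one_add_mul_self`).  So
`∑ p^(η-1) ≤ ∑ 1/p + (V/log v) ∑ log p/p`.  First sum: `Pool.Gal99.sum_inv_le` (with `w = v+1`,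
`Pool.Gal99.pr (v+1) = prs v`); second: `mertens_first` (`TN v ≤ log v + K ≤ (1+K/log 2) log v`).
`log (log (v+1) + 1) ≤ log(log v + 2)` etc. -/

namespace Pool.Agent.LibRG87

open Finset

theorem sum_rpow_prs : ∃ C : ℝ, 0 < C ∧ ∀ v : ℕ, 2 ≤ v → ∀ η : ℝ, 0 ≤ η →
    ∑ p ∈ prs v, (p : ℝ) ^ (η - 1) ≤ C * (1 + Real.log (Real.log v + 2) + (v : ℝ) ^ η) := by
  obtain ⟨C1, hC1, h1⟩ := Pool.Gal99.sum_inv_le
  obtain ⟨K, hK, h2⟩ := Pool.Agent.LibMaier.mertens_first
  have hl2 : (0:ℝ) < Real.log 2 := Real.log_pos (by norm_num)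
  refine ⟨C1 + (1 + K / Real.log 2), by positivity, ?_⟩
  intro v hv η hη
  have hv' : (2:ℝ) ≤ v := by exact_mod_cast hv
  have hv0 : (0:ℝ) < v := by linarith
  have hlogv : 0 < Real.log v := Real.log_pos (by linarith)
  have hlog2v : Real.log 2 ≤ Real.log v := Real.log_le_log (by norm_num) hv'
  set V : ℝ := (v:ℝ) ^ η with hVdef
  have hV1 : 1 ≤ V := Real.one_le_rpow (by linarith) hη
  -- pointwise
  have hpt : ∀ p ∈ prs v, (p:ℝ) ^ (η - 1) ≤ 1 / (p:ℝ) + (V / Real.log v) * (Real.log p / p) := by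
    intro p hp
    obtain ⟨hpp, hpv⟩ := mem_prs.1 hp
    have hp2 : (2:ℝ) ≤ p := by exact_mod_cast hpp.two_le
    have hp0 : (0:ℝ) < p := by linarith
    have hpv' : (p:ℝ) ≤ v := by exact_mod_cast hpv
    have hlogp : 0 < Real.log p := Real.log_pos (by linarith)
    have hlpv : Real.log p ≤ Real.log v := Real.log_le_log hp0 hpv'
    have ht0 : 0 ≤ Real.log p / Real.log v := by positivity
    have ht1 : Real.log p / Real.log v ≤ 1 := by rw [div_le_one hlogv]; exact hlpv
    have e1 : (p:ℝ) ^ η = V ^ (Real.log p / Real.log v) := by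
      rw [hVdef, ← Real.rpow_mul hv0.le, Real.rpow_def_of_pos hp0, Real.rpow_def_of_pos hv0]
      congr 1
      field_simp
    have e2 : V ^ (Real.log p / Real.log v) ≤ 1 + (Real.log p / Real.log v) * V := by
      have h3 := rpow_one_add_le_one_add_mul_self (s := V - 1) (p := Real.log p / Real.log v)
        (by linarith) ht0 ht1
      have e3 : 1 + (V - 1) = V := by ring
      rw [e3] at h3
      nlinarith
    rw [Real.rpow_sub_one hp0.ne', e1]
    calc V ^ (Real.log p / Real.log v) / (p:ℝ) ≤ (1 + (Real.log p / Real.log v) * V) / p :=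
          div_le_div_of_nonneg_right e2 hp0.le
      _ = 1 / (p:ℝ) + (V / Real.log v) * (Real.log p / p) := by
          field_simp
  have hsum := Finset.sum_le_sum hpt
  rw [Finset.sum_add_distrib, ← Finset.mul_sum] at hsum
  have e4 : prs v = Pool.Gal99.pr v := rfl
  have e5 : prs v = Pool.Agent.LibMaier.PN v := by
    ext p
    rw [mem_prs, Pool.Agent.LibMaier.mem_PN, and_comm]
  have hA : ∑ p ∈ prs v, 1 / (p:ℝ) ≤ C1 * (1 + Real.log (Real.log v + 2)) := by
    rw [e4]
    refine (h1 v hv).trans ?_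
    have h3 : Real.log (Real.log v + 1) ≤ Real.log (Real.log v + 2) :=
      Real.log_le_log (by linarith) (by linarith)
    exact mul_le_mul_of_nonneg_left (by linarith) hC1.le
  have hB : ∑ p ∈ prs v, Real.log p / (p:ℝ) ≤ Real.log v + K := by
    have h3 := h2 (v:ℝ) (by linarith)
    rw [Nat.floor_natCast] at h3
    have h4 := (abs_le.1 h3).2
    have h5 : Pool.Agent.LibMaier.TN v = ∑ p ∈ prs v, Real.log p / (p:ℝ) := by
      rw [e5]; rfl
    rw [← h5]; linarith
  have hC : (V / Real.log v) * ∑ p ∈ prs v, Real.log p / (p:ℝ) ≤ (1 + K / Real.log 2) * V := by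
    calc (V / Real.log v) * ∑ p ∈ prs v, Real.log p / (p:ℝ) ≤ (V / Real.log v) * (Real.log v + K) :=
          mul_le_mul_of_nonneg_left hB (by positivity)
      _ = V + V * (K / Real.log v) := by field_simp
      _ ≤ V + V * (K / Real.log 2) := by
          have : K / Real.log v ≤ K / Real.log 2 := div_le_div_of_nonneg_left hK.le hl2 hlog2v
          nlinarith
      _ = (1 + K / Real.log 2) * V := by ring
  have hll : 0 ≤ Real.log (Real.log v + 2) := Real.log_nonneg (by linarith)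
  have hKl : 0 ≤ K / Real.log 2 := by positivity
  nlinarith [mul_nonneg hC1.le (by linarith : 0 ≤ V), mul_nonneg hKl hll, mul_nonneg hKl (by linarith : 0 ≤ V)]

end Pool.Agent.LibRG87
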