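import Pool.Agent.LibRG87.EDefs

/-! ROW E8. -/

namespace Pool.Agent.LibRG87

open Finset

lemma E8_inv_le_exp {x : ℝ} (h0 : 0 ≤ x) (h1 : x ≤ 3 / 4) : (1 - x)⁻¹ ≤ Real.exp (4 * x) := by
  have h2 : 0 < 1 - x := by linarith
  refine le_trans ?_ (Real.add_one_le_exp (4 * x))
  rw [inv_le_iff_one_le_mul₀ h2]
  nlinarith

lemma E8_rpow_le {p : ℕ} (hp : 2 ≤ p) {σ : ℝ} (hσ : 1 / 2 ≤ σ) : (p : ℝ) ^ (-σ) ≤ 3 / 4 := by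
  have hp2 : (2 : ℝ) ≤ p := by exact_mod_cast hp
  have h1 : (p : ℝ) ^ (-σ) ≤ (2 : ℝ) ^ (-σ) :=
    Real.rpow_le_rpow_of_nonpos (by norm_num) hp2 (by linarith)
  have h2 : (2 : ℝ) ^ (-σ) ≤ (2 : ℝ) ^ (-(1 / 2) : ℝ) :=
    Real.rpow_le_rpow_of_exponent_le (by norm_num) (by linarith)
  refine h1.trans (h2.trans ?_)
  rw [Real.rpow_neg (by norm_num), ← Real.sqrt_eq_rpow]
  have h3 : (4 / 3 : ℝ) ≤ Real.sqrt 2 := by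
    apply Real.le_sqrt_of_sq_le
    norm_num
  have h4 : (Real.sqrt 2)⁻¹ ≤ (4 / 3 : ℝ)⁻¹ := inv_anti₀ (by norm_num) h3
  refine h4.trans (by norm_num)

theorem prod_le_exp (v : ℕ) (σ : ℝ) (hσ : 1 / 2 ≤ σ) :
    ∏ p ∈ prs v, (1 - (p : ℝ) ^ (-σ))⁻¹ ≤ Real.exp (4 * ∑ p ∈ prs v, (p : ℝ) ^ (-σ)) := by
  rw [Finset.mul_sum, Real.exp_sum]
  refine Finset.prod_le_prod (fun p hp => ?_) (fun p hp => ?_)
  · have h2 := (mem_prs.1 hp).1.two_le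
    have := E8_rpow_le h2 hσ
    exact inv_nonneg.2 (by linarith)
  · have h2 := (mem_prs.1 hp).1.two_le
    exact E8_inv_le_exp (Real.rpow_nonneg (Nat.cast_nonneg p) _) (E8_rpow_le h2 hσ)

end Pool.Agent.LibRG87
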