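import Pool.Agent.LibRG87.EDefs
import Pool.Agent.LibRG87.E6
import Pool.Agent.LibRG87.E7
import Pool.Agent.LibRG87.E8

/-! ROW E9 (few smooth numbers).  PLAN: `L1 = log Y`, `L2 = log log Y`, `L3 = log log log Y`, `C` from `sum_rpow_prs`,
`κ = 24 C + 100` (any large constant).  `v = vY κ Y`, so `log v ≤ L1 L3/(κ L2)`, `v ≥ 2` for large `Y`.
`η = κ L2/(2 L1)` (`→ 0`, so `σ = 1 - η ≥ 1/2`).  `v^η ≤ exp (L3/2) = sqrt L2 ≤ L2`,
`log (log v + 2) ≤ L2` (log v + 2 ≤ L1).  By E6, E8, E7: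
`Psi h v ≤ h * h^(-η) * exp (4 C (1 + L2 + L2)) `, and `h ≥ Y` gives `h^(-η) ≤ Y^(-η) = exp (-κ L2/2) = L1^(-κ/2)`;
`exp (4C(1+2 L2)) ≤ exp(12 C L2)` as `L2 ≥ 1`.  So the bound is `h * exp (-(κ/2 - 12 C) L2) ≤ h exp(-2 L2)`.
(`Filter.Tendsto` facts for `L1, L2, L3, L2/L1`: compose `Real.tendsto_log_atTop`, `Real.isLittleO_log_id_atTop`.) -/

namespace Pool.Agent.LibRG87

open Finset

private theorem E9_core (C κ : ℝ) (hC : 0 < C) (hκ : κ = 24 * C + 100)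
    (hsum : ∀ v : ℕ, 2 ≤ v → ∀ η : ℝ, 0 ≤ η →
      ∑ p ∈ prs v, (p : ℝ) ^ (η - 1) ≤ C * (1 + Real.log (Real.log v + 2) + (v : ℝ) ^ η))
    (Y h : ℕ) (hYh : Y ≤ h) (L1 L2 L3 : ℝ) (hL1 : L1 = Real.log Y) (hL2 : L2 = Real.log L1)
    (hL3 : L3 = Real.log L2) (h3 : 1 ≤ L3) (h2 : 1 ≤ L2) (h1 : 3 ≤ L1) (h21 : κ * L2 ≤ L1) :
    (Psi h (vY κ Y) : ℝ) ≤ h / L1 ^ 2 := by
  have hκ1 : 100 ≤ κ := by linarith
  have hκ0 : 0 < κ := by linarith
  have hL1p : 0 < L1 := by linarith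
  have hL2p : 0 < L2 := by linarith
  have hL3p : 0 < L3 := by linarith
  have hY0 : (0:ℝ) < Y := by
    rcases Nat.eq_zero_or_pos Y with h0 | h0
    · rw [h0] at hL1; simp at hL1; linarith
    · exact_mod_cast h0
  have hhY : (Y:ℝ) ≤ h := by exact_mod_cast hYh
  have hh0 : (0:ℝ) < h := by linarith
  have hvdef : vY κ Y = ⌊Real.exp (L1 * L3 / (κ * L2))⌋₊ := by
    unfold vY; rw [hL3, hL2, hL1]
  set v := vY κ Y with hv
  have hq1 : 1 ≤ L1 * L3 / (κ * L2) := by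
    rw [le_div_iff₀ (by positivity)]
    nlinarith
  have hv2 : 2 ≤ v := by
    rw [hvdef]
    apply Nat.le_floor
    have h4 := Real.add_one_le_exp (L1 * L3 / (κ * L2))
    push_cast
    linarith
  have hv2' : (2:ℝ) ≤ v := by exact_mod_cast hv2
  have hv0 : (0:ℝ) < v := by linarith
  have hvle : (v:ℝ) ≤ Real.exp (L1 * L3 / (κ * L2)) := by
    rw [hvdef]; exact Nat.floor_le (Real.exp_pos _).le
  have hlogv : Real.log v ≤ L1 * L3 / (κ * L2) := by
    rw [Real.log_le_iff_le_exp hv0]; exact hvle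
  have hlogv0 : 0 ≤ Real.log v := Real.log_nonneg (by linarith)
  set η : ℝ := κ * L2 / (2 * L1) with hη
  have hη0 : 0 ≤ η := by positivity
  have hη1 : η ≤ 1 / 2 := by
    rw [hη, div_le_iff₀ (by positivity)]; linarith
  have hexpL3 : Real.exp L3 = L2 := by rw [hL3, Real.exp_log hL2p]
  have hexpL2 : Real.exp L2 = L1 := by rw [hL2, Real.exp_log hL1p]
  have hvη : (v:ℝ) ^ η ≤ L2 := by
    rw [Real.rpow_def_of_pos hv0, ← hexpL3]
    apply Real.exp_le_exp.2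
    calc Real.log v * η ≤ (L1 * L3 / (κ * L2)) * η := mul_le_mul_of_nonneg_right hlogv hη0
      _ = L3 / 2 := by rw [hη]; field_simp
      _ ≤ L3 := by linarith
  have hL32 : L3 ≤ L2 := by
    have := Real.add_one_le_exp L3
    rw [hexpL3] at this; linarith
  have hlogv1 : Real.log v ≤ L1 / 100 := by
    refine hlogv.trans ?_
    rw [div_le_div_iff₀ (by positivity) (by norm_num)]
    have : L1 * L3 ≤ L1 * L2 := mul_le_mul_of_nonneg_left hL32 hL1p.le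
    have h5 : L1 * L2 * 100 ≤ L1 * L2 * κ := mul_le_mul_of_nonneg_left hκ1 (by positivity)
    nlinarith
  have hll : Real.log (Real.log v + 2) ≤ L2 := by
    rw [Real.log_le_iff_le_exp (by linarith), hexpL2]
    linarith
  have hS := hsum v hv2 η hη0
  have hS2 : ∑ p ∈ prs v, (p : ℝ) ^ (-(1 - η)) ≤ C * (3 * L2) := by
    have e : -(1 - η) = η - 1 := by ring
    rw [e]
    exact hS.trans (mul_le_mul_of_nonneg_left (by linarith) hC.le)
  have hR := rankin_psi h v (1 - η) (by linarith)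
  have hP := prod_le_exp v (1 - η) (by linarith)
  have hE : Real.exp (4 * ∑ p ∈ prs v, (p : ℝ) ^ (-(1 - η))) ≤ Real.exp (12 * C * L2) :=
    Real.exp_le_exp.2 (by nlinarith)
  have hhη : (h:ℝ) ^ (1 - η) ≤ h * Real.exp (-(κ * L2 / 2)) := by
    have e1 : (h:ℝ) ^ (1 - η) = h * Real.exp (-(Real.log h * η)) := by
      rw [Real.rpow_def_of_pos hh0]
      nth_rewrite 2 [← Real.exp_log hh0]
      rw [← Real.exp_add]
      congr 1; ring
    rw [e1]
    apply mul_le_mul_of_nonneg_left _ hh0.le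
    apply Real.exp_le_exp.2
    have h6 : L1 ≤ Real.log h := by rw [hL1]; exact Real.log_le_log hY0 hhY
    have h7 : L1 * η = κ * L2 / 2 := by rw [hη]; field_simp
    have h8 : L1 * η ≤ Real.log h * η := mul_le_mul_of_nonneg_right h6 hη0
    linarith
  calc (Psi h v : ℝ) ≤ (h : ℝ) ^ (1 - η) * ∏ p ∈ prs v, (1 - (p : ℝ) ^ (-(1 - η)))⁻¹ := hR
    _ ≤ (h : ℝ) ^ (1 - η) * Real.exp (12 * C * L2) :=
        mul_le_mul_of_nonneg_left (hP.trans hE) (Real.rpow_nonneg hh0.le _)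
    _ ≤ (h * Real.exp (-(κ * L2 / 2))) * Real.exp (12 * C * L2) :=
        mul_le_mul_of_nonneg_right hhη (Real.exp_pos _).le
    _ = h * Real.exp (-(50 * L2)) := by
        rw [mul_assoc, ← Real.exp_add]
        congr 2
        rw [hκ]; ring
    _ ≤ h * Real.exp (-(2 * L2)) := by
        apply mul_le_mul_of_nonneg_left _ hh0.le
        apply Real.exp_le_exp.2
        linarith
    _ = h / L1 ^ 2 := by
        rw [Real.exp_neg, show (2:ℝ) * L2 = L2 + L2 by ring, Real.exp_add, hexpL2, div_eq_mul_inv, pow_two]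

theorem smooth_small : ∃ κ : ℝ, 1 ≤ κ ∧ ∃ Y0 : ℕ, ∀ Y : ℕ, Y0 ≤ Y → ∀ h : ℕ, Y ≤ h →
    (Psi h (vY κ Y) : ℝ) ≤ h / (Real.log Y) ^ 2 := by
  obtain ⟨C, hC, hsum⟩ := sum_rpow_prs
  refine ⟨24 * C + 100, by linarith, ?_⟩
  have hκ0 : 0 < 24 * C + 100 := by linarith
  have t1 : Filter.Tendsto (fun Y : ℕ => Real.log (Y:ℝ)) Filter.atTop Filter.atTop :=
    Real.tendsto_log_atTop.comp tendsto_natCast_atTop_atTop
  have t2 : Filter.Tendsto (fun Y : ℕ => Real.log (Real.log (Y:ℝ))) Filter.atTop Filter.atTop :=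
    Real.tendsto_log_atTop.comp t1
  have t3 : Filter.Tendsto (fun Y : ℕ => Real.log (Real.log (Real.log (Y:ℝ)))) Filter.atTop Filter.atTop :=
    Real.tendsto_log_atTop.comp t2
  have o1 := Real.isLittleO_log_id_atTop.def (c := (24 * C + 100)⁻¹) (by positivity)
  have o2 := t1.eventually o1
  have ev := ((t3.eventually_ge_atTop 1).and (t2.eventually_ge_atTop 1)).and
    ((t1.eventually_ge_atTop 3).and o2)
  obtain ⟨Y0, hY0⟩ := Filter.eventually_atTop.1 ev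
  refine ⟨Y0, ?_⟩
  intro Y hY h hYh
  obtain ⟨⟨h3, h2⟩, ⟨h1, h4⟩⟩ := hY0 Y hY
  refine E9_core C (24 * C + 100) hC rfl hsum Y h hYh _ _ _ rfl rfl rfl h3 h2 h1 ?_
  simp only [id, Real.norm_eq_abs] at h4
  rw [abs_of_nonneg (by linarith : 0 ≤ Real.log (Real.log (Y:ℝ))),
    abs_of_nonneg (by linarith : 0 ≤ Real.log (Y:ℝ)), inv_mul_eq_div, le_div_iff₀ hκ0] at h4
  linarith

end Pool.Agent.LibRG87
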