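import Pool.Agent.LibRG87.EDefs
import Pool.Agent.LibRG87.E4
import Pool.Agent.LibRG87.E5
import Pool.Agent.LibRG87.E9

/-! ROW E10 (survivors of the zero classes).  PLAN: `a = Y / 8`, `v = vY κ Y`, `h = hY c Y`, `c ≤ 1`.
`surv_le` + `smooth_small` (needs `Y ≤ h`: true for large `Y` as `(log Y)^2 L3/L2^2 → ∞`) + `sum_inv_big`:
`Surv ≤ h/(log Y)^2 + C h (1 + log (h/a))/log a`, `h ≤ Y (log Y)^2 L3/L2^2 ≤ Y (log Y)^2`,
`log (h/a) ≤ log (16 (log Y)^2) ≤ 3 L2`, `log a ≥ (log Y)/2`.  So `Surv ≤ C' h L2/L1`. -/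

namespace Pool.Agent.LibRG87

open Finset

/-- For large `Y` the iterated logarithms are large. -/
theorem E10_ev (c : ℝ) : ∃ Y0 : ℕ, ∀ Y : ℕ, Y0 ≤ Y → 16 ≤ Y ∧ c ≤ Real.log Y ∧
    1 ≤ Real.log (Real.log Y) ∧ 1 ≤ Real.log (Real.log (Real.log Y)) := by
  have t1 : Filter.Tendsto (fun Y : ℕ => Real.log Y) Filter.atTop Filter.atTop :=
    Real.tendsto_log_atTop.comp tendsto_natCast_atTop_atTop
  have t2 := Real.tendsto_log_atTop.comp t1
  have t3 := Real.tendsto_log_atTop.comp t2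
  have e := (Filter.eventually_ge_atTop (16 : ℕ)).and ((t1.eventually_ge_atTop c).and
    ((t2.eventually_ge_atTop 1).and (t3.eventually_ge_atTop 1)))
  obtain ⟨Y0, h⟩ := Filter.eventually_atTop.1 e
  exact ⟨Y0, fun Y hY => h Y hY⟩

/-- `log x ≤ 2 sqrt x`, squared. -/
theorem E10_log_sq {x : ℝ} (hx : 1 ≤ x) : (Real.log x) ^ 2 ≤ 4 * x := by
  have h0 : 0 < x := by linarith
  have h1 : Real.log (Real.sqrt x) ≤ Real.sqrt x := by
    have := Real.log_le_sub_one_of_pos (Real.sqrt_pos.2 h0)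
    linarith
  rw [Real.log_sqrt h0.le] at h1
  have h2 : 0 ≤ Real.log x := Real.log_nonneg hx
  have h3 : Real.log x ≤ 2 * Real.sqrt x := by linarith
  have h4 := Real.sq_sqrt h0.le
  nlinarith [Real.sqrt_nonneg x]

/-- Size of `hY`. -/
theorem E10_hY {c : ℝ} (hc : 0 < c) (hc1 : c ≤ 1) {Y : ℕ} (h16 : 16 ≤ Y) (h1 : 8 / c ≤ Real.log Y)
    (h1' : 1 ≤ Real.log Y)
    (h2 : 1 ≤ Real.log (Real.log Y)) (h3 : 1 ≤ Real.log (Real.log (Real.log Y))) :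
    Y ≤ hY c Y ∧ (hY c Y : ℝ) ≤ Y * (Real.log Y) ^ 2 := by
  set L1 := Real.log Y
  set L2 := Real.log L1
  set L3 := Real.log L2
  have hYp : (16 : ℝ) ≤ Y := by exact_mod_cast h16
  have hL2 : L2 ^ 2 ≤ 4 * L1 := E10_log_sq h1'
  have hL3 : L3 ≤ L2 := by
    have := Real.log_le_sub_one_of_pos (show 0 < L2 by linarith)
    linarith
  have hx0 : 0 ≤ c * Y * L1 ^ 2 * L3 / L2 ^ 2 := by positivity
  have hlow : 2 * (Y : ℝ) ≤ c * Y * L1 ^ 2 * L3 / L2 ^ 2 := by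
    rw [le_div_iff₀ (by positivity)]
    have e1 : 8 ≤ c * L1 := by
      rw [div_le_iff₀ hc] at h1; linarith
    have e2 : 8 * L1 ≤ c * L1 ^ 2 := by nlinarith
    have e3 : 2 * L2 ^ 2 ≤ 8 * L1 := by linarith
    have e4 : 2 * L2 ^ 2 ≤ c * L1 ^ 2 * L3 := by
      have : c * L1 ^ 2 * 1 ≤ c * L1 ^ 2 * L3 := by
        apply mul_le_mul_of_nonneg_left h3 (by positivity)
      linarith
    nlinarith
  have hup : c * Y * L1 ^ 2 * L3 / L2 ^ 2 ≤ Y * L1 ^ 2 := by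
    rw [div_le_iff₀ (by positivity)]
    have e1 : L3 ≤ L2 ^ 2 := by nlinarith
    have e2 : c * (Y * L1 ^ 2) ≤ 1 * (Y * L1 ^ 2) := by
      apply mul_le_mul_of_nonneg_right hc1 (by positivity)
    calc c * Y * L1 ^ 2 * L3 = (c * (Y * L1 ^ 2)) * L3 := by ring
      _ ≤ (1 * (Y * L1 ^ 2)) * L2 ^ 2 := by
        apply mul_le_mul e2 e1 (by linarith) (by positivity)
      _ = Y * L1 ^ 2 * L2 ^ 2 := by ring
  constructor
  · unfold hY
    apply Nat.le_floor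
    linarith
  · have : (hY c Y : ℝ) ≤ c * Y * L1 ^ 2 * L3 / L2 ^ 2 := Nat.floor_le hx0
    linarith

theorem surv_small : ∃ κ : ℝ, 1 ≤ κ ∧ ∃ C : ℝ, 0 < C ∧ ∀ c : ℝ, 0 < c → c ≤ 1 → ∃ Y0 : ℕ, ∀ Y : ℕ, Y0 ≤ Y →
    ((Surv (hY c Y) (vY κ Y) (Y / 8)).card : ℝ) ≤
      C * hY c Y * Real.log (Real.log Y) / Real.log Y := by
  obtain ⟨κ, hκ, Y1, hY1⟩ := smooth_small
  obtain ⟨C, hC, hS⟩ := sum_inv_big
  refine ⟨κ, hκ, 1 + 12 * C, by positivity, fun c hc hc1 => ?_⟩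
  obtain ⟨Y2, hY2⟩ := E10_ev (max (8 / c) 8)
  refine ⟨max Y1 Y2, fun Y hYY => ?_⟩
  obtain ⟨h16, hL1, hL2, hL3⟩ := hY2 Y (le_trans (le_max_right _ _) hYY)
  have hL1a : 8 / c ≤ Real.log Y := le_trans (le_max_left _ _) hL1
  have hL1b : 8 ≤ Real.log Y := le_trans (le_max_right _ _) hL1
  obtain ⟨hh1, hh2⟩ := E10_hY hc hc1 h16 hL1a (by linarith) hL2 hL3
  set h := hY c Y
  set L1 := Real.log Y with hL1d
  set L2 := Real.log L1 with hL2d
  have hYp : (16 : ℝ) ≤ Y := by exact_mod_cast h16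
  have hhp : (16 : ℝ) ≤ h := le_trans hYp (by exact_mod_cast hh1)
  have hs := hY1 Y (le_trans (le_max_left _ _) hYY) h hh1
  have ha2 : 2 ≤ Y / 8 := by omega
  have hah : Y / 8 ≤ h := le_trans (Nat.div_le_self _ _) hh1
  have hb := hS (Y / 8) h ha2 hah
  have ha16 : (Y : ℝ) / 16 ≤ ((Y / 8 : ℕ) : ℝ) := by
    have : Y ≤ 16 * (Y / 8) := by omega
    have h' : (Y : ℝ) ≤ 16 * ((Y / 8 : ℕ) : ℝ) := by exact_mod_cast this
    linarith
  have hap : (0 : ℝ) < ((Y / 8 : ℕ) : ℝ) := by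
    have : (0 : ℝ) < (Y : ℝ) / 16 := by positivity
    linarith
  have hl16 : Real.log 16 ≤ 3 := by
    have e : (16 : ℝ) = 2 ^ 4 := by norm_num
    rw [e, Real.log_pow]
    have := Real.log_two_lt_d9
    push_cast
    linarith
  have hloga : L1 / 2 ≤ Real.log ((Y / 8 : ℕ) : ℝ) := by
    have e1 : Real.log ((Y : ℝ) / 16) ≤ Real.log ((Y / 8 : ℕ) : ℝ) :=
      Real.log_le_log (by positivity) ha16
    rw [Real.log_div (by positivity) (by norm_num)] at e1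
    linarith
  have hlogh : Real.log ((h : ℝ) / ((Y / 8 : ℕ) : ℝ)) ≤ 3 + 2 * L2 := by
    have e1 : (h : ℝ) / ((Y / 8 : ℕ) : ℝ) ≤ 16 * L1 ^ 2 := by
      rw [div_le_iff₀ hap]
      calc (h : ℝ) ≤ Y * L1 ^ 2 := hh2
        _ = 16 * L1 ^ 2 * (Y / 16) := by ring
        _ ≤ 16 * L1 ^ 2 * ((Y / 8 : ℕ) : ℝ) := by
          apply mul_le_mul_of_nonneg_left ha16 (by positivity)
    have e2 := Real.log_le_log (by positivity) e1
    rw [Real.log_mul (by norm_num) (by positivity), Real.log_pow] at e2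
    push_cast at e2
    linarith
  have hsum : ∑ q ∈ (Ioc (Y / 8) h).filter Nat.Prime, 1 / (q : ℝ) ≤ 12 * C * L2 / L1 := by
    refine hb.trans ?_
    have e1 : C * (1 + Real.log ((h : ℝ) / ((Y / 8 : ℕ) : ℝ))) ≤ C * (6 * L2) := by
      apply mul_le_mul_of_nonneg_left _ hC.le
      linarith
    calc C * (1 + Real.log ((h : ℝ) / ((Y / 8 : ℕ) : ℝ))) / Real.log ((Y / 8 : ℕ) : ℝ)
        ≤ C * (6 * L2) / Real.log ((Y / 8 : ℕ) : ℝ) := by
          apply div_le_div_of_nonneg_right e1; linarith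
      _ ≤ C * (6 * L2) / (L1 / 2) := by
          apply div_le_div_of_nonneg_left (by positivity) (by linarith) hloga
      _ = 12 * C * L2 / L1 := by field_simp; ring
  have hfirst : (h : ℝ) / L1 ^ 2 ≤ h * L2 / L1 := by
    rw [div_le_div_iff₀ (by positivity) (by linarith)]
    have : (1 : ℝ) ≤ L2 * L1 := by nlinarith
    nlinarith [mul_nonneg (show (0 : ℝ) ≤ h by linarith) (show (0 : ℝ) ≤ L1 by linarith)]
  calc ((Surv h (vY κ Y) (Y / 8)).card : ℝ)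
      ≤ Psi h (vY κ Y) + h * ∑ q ∈ (Ioc (Y / 8) h).filter Nat.Prime, 1 / (q : ℝ) :=
        surv_le h (vY κ Y) (Y / 8)
    _ ≤ h * L2 / L1 + h * (12 * C * L2 / L1) := by
        have e1 : (h : ℝ) * ∑ q ∈ (Ioc (Y / 8) h).filter Nat.Prime, 1 / (q : ℝ) ≤
            h * (12 * C * L2 / L1) := mul_le_mul_of_nonneg_left hsum (by linarith)
        linarith
    _ = (1 + 12 * C) * h * L2 / L1 := by ring

end Pool.Agent.LibRG87
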