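import Pool.Agent.LibRG87.EDefs

/-! ROW E2 (CRT). -/

namespace Pool.Agent.LibRG87

open Finset

theorem crt_classes (P1 P2 : Finset ℕ) (h1 : ∀ p ∈ P1, p.Prime) (h2 : ∀ p ∈ P2, p.Prime)
    (hd : Disjoint P1 P2) (a : ℕ → ℕ) :
    ∃ n0 : ℕ, (∀ p ∈ P1, ∀ b : ℕ, p ∣ n0 + b ↔ b ≡ a p [MOD p]) ∧
      (∀ p ∈ P2, ∀ b : ℕ, p ∣ n0 + b ↔ p ∣ b) := by
  classical
  set r : ℕ → ℕ := fun p => if p ∈ P1 then (p - 1) * a p else 0 with hr
  have hpr : ∀ p ∈ P1 ∪ P2, p.Prime := by
    intro p hp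
    rcases mem_union.mp hp with h | h
    · exact h1 p h
    · exact h2 p h
  have hne : ∀ p ∈ P1 ∪ P2, id p ≠ 0 := fun p hp => (hpr p hp).ne_zero
  have hco : Set.Pairwise ((P1 ∪ P2 : Finset ℕ) : Set ℕ) (Function.onFun Nat.Coprime id) := by
    intro p hp q hq hpq
    exact (Nat.coprime_primes (hpr p (by exact_mod_cast hp)) (hpr q (by exact_mod_cast hq))).mpr hpq
  obtain ⟨n0, hn0⟩ := Nat.chineseRemainderOfFinset r id (P1 ∪ P2) hne hco
  refine ⟨n0, ?_, ?_⟩
  · intro p hp b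
    have hc := hn0 p (mem_union_left _ hp)
    simp only [id] at hc
    have hrp : r p = (p - 1) * a p := by simp [hr, hp]
    rw [hrp] at hc
    have hp1 : 1 ≤ p := (h1 p hp).one_le
    have key : n0 + a p ≡ 0 [MOD p] := by
      have h := hc.add_right (a p)
      have e : (p - 1) * a p + a p = p * a p := by
        obtain ⟨k, rfl⟩ : ∃ k, p = k + 1 := ⟨p - 1, by omega⟩
        simp only [Nat.add_sub_cancel]
        ring
      rw [e] at h
      exact h.trans ((Nat.modEq_zero_iff_dvd).mpr (dvd_mul_right _ _))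
    constructor
    · intro hb
      have hb' : n0 + b ≡ 0 [MOD p] := (Nat.modEq_zero_iff_dvd).mpr hb
      exact Nat.ModEq.add_left_cancel' n0 (hb'.trans key.symm)
    · intro hb
      have : n0 + b ≡ 0 [MOD p] := (Nat.ModEq.add_left n0 hb).trans key
      exact (Nat.modEq_zero_iff_dvd).mp this
  · intro p hp b
    have hc := hn0 p (mem_union_right _ hp)
    simp only [id] at hc
    have hrp : r p = 0 := by
      have : p ∉ P1 := fun h => (Finset.disjoint_left.mp hd) h hp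
      simp [hr, this]
    rw [hrp] at hc
    exact (Nat.dvd_add_right ((Nat.modEq_zero_iff_dvd).mp hc))

end Pool.Agent.LibRG87
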