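import Pool.Agent.LibRG87.EDefs
import Pool.Agent.LibTri.Primes

/-! ROW E3 (upper bound for the Mertens product).  PLAN: `Pool.Agent.LibTri.log_le_prod (v+1)` gives
`log (v+1) ≤ ∏ p ∈ (v+1).primesBelow, (1 - p⁻¹)⁻¹`; `(v+1).primesBelow = prs v` (both are
`(range (v+1)).filter Prime`); invert (`Finset.prod_inv_distrib`), all factors are in `(0,1]`;
`log v ≤ log (v+1)`. -/

namespace Pool.Agent.LibRG87

open Finset

theorem prod_prs_le (v : ℕ) (hv : 2 ≤ v) :
    ∏ p ∈ prs v, (1 - 1 / (p : ℝ)) ≤ 1 / Real.log v := by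
  have h1 := Pool.Agent.LibTri.log_le_prod (v + 1) (by omega)
  have h2 : (v + 1).primesBelow = prs v := rfl
  rw [h2, Finset.prod_inv_distrib] at h1
  have h3 : ∏ p ∈ prs v, (1 - ((p : ℝ))⁻¹) = ∏ p ∈ prs v, (1 - 1 / (p : ℝ)) :=
    Finset.prod_congr rfl (fun p _ => by rw [one_div])
  rw [h3] at h1
  have hv' : (2 : ℝ) ≤ v := by exact_mod_cast hv
  have hlog : 0 < Real.log v := Real.log_pos (by linarith)
  have hle : Real.log v ≤ Real.log ((v + 1 : ℕ) : ℝ) :=
    Real.log_le_log (by linarith) (by push_cast; linarith)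
  have hpos : 0 < ∏ p ∈ prs v, (1 - 1 / (p : ℝ)) := by
    apply Finset.prod_pos
    intro p hp
    have h2p : (2 : ℝ) ≤ p := by exact_mod_cast (mem_prs.mp hp).1.two_le
    have : 1 / (p : ℝ) ≤ 1 / 2 := by
      apply one_div_le_one_div_of_le (by norm_num) h2p
    linarith
  rw [le_div_iff₀ hlog, ← le_div_iff₀' hpos, one_div]
  exact hle.trans h1

end Pool.Agent.LibRG87
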