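import Pool.Agent.LibRG87.EDefs
import Pool.Agent.LibRG87.E1
import Pool.Agent.LibRG87.E2
import Pool.Agent.LibRG87.E3
import Pool.Agent.LibRG87.E10

/-! ROW E11 (the target of part III).  PLAN: `κ, C` from `surv_small`; given `ε`, choose
`c0 = min 1 (ε/(2 κ C + 1))`-like.  For large `Y`: `v = vY κ Y < Y/8` and `v ≥ 2`.  `P1 = prs v`,
`P2 = (prs (Y/8)).filter (v < ·)`, `W = ∏ p ∈ prs (Y/8), p = primorial (Y/8)` (`primorial_le_four_pow`, or
`primorial_le_4_pow`), `W > 0`, prime factors of `W` are `≤ Y/8` (`Prime.dvd_finset_prod_iff`).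
`a` from `greedy (Surv h v (Y/8)) P1`, `n0` from `crt_classes P1 P2`.
`(n0 + b).Coprime W` iff no `p ∈ prs (Y/8)` divides `n0 + b` (`Nat.Coprime.prod_right`,
`Nat.coprime_prod_right_iff`), i.e. `b ∈ Surv h v (Y/8)` and `¬ b ≡ a p [MOD p]` for `p ≤ v`.  So the count is
`≤ |Surv| * ∏_{p ≤ v} (1-1/p) ≤ C h (L2/L1) / log v`, `log v ≥ L1 L3/(2 κ L2)` (floor costs a factor 2 only),
`h ≤ c0 Y L1^2 L3/L2^2`: product `≤ 2 κ C c0 Y ≤ ε Y`. -/

namespace Pool.Agent.LibRG87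

open Finset

/-- For large `Y` the iterated logarithms are large. -/
theorem E11_ev (c : ℝ) : ∃ Y0 : ℕ, ∀ Y : ℕ, Y0 ≤ Y → 1000 ≤ Y ∧ c ≤ Real.log Y ∧
    1 ≤ Real.log (Real.log Y) ∧ 1 ≤ Real.log (Real.log (Real.log Y)) := by
  have t1 : Filter.Tendsto (fun Y : ℕ => Real.log Y) Filter.atTop Filter.atTop :=
    Real.tendsto_log_atTop.comp tendsto_natCast_atTop_atTop
  have t2 := Real.tendsto_log_atTop.comp t1
  have t3 := Real.tendsto_log_atTop.comp t2
  have e := (Filter.eventually_ge_atTop (1000 : ℕ)).and ((t1.eventually_ge_atTop c).and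
    ((t2.eventually_ge_atTop 1).and (t3.eventually_ge_atTop 1)))
  obtain ⟨Y0, h⟩ := Filter.eventually_atTop.1 e
  exact ⟨Y0, fun Y hY => h Y hY⟩

/-- `log x ≤ 2 sqrt x`. -/
theorem E11_log_sqrt {x : ℝ} (hx : 1 ≤ x) : Real.log x ≤ 2 * Real.sqrt x := by
  have h0 : 0 < x := by linarith
  have h1 : Real.log (Real.sqrt x) ≤ Real.sqrt x := by
    have := Real.log_le_sub_one_of_pos (Real.sqrt_pos.2 h0)
    linarith
  rw [Real.log_sqrt h0.le] at h1
  linarith

/-- `log x ≤ x / 2`. -/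
theorem E11_log_half {x : ℝ} (hx : 0 < x) : Real.log x ≤ x / 2 := by
  have h1 := Real.log_le_sub_one_of_pos (show 0 < x / 2 by linarith)
  rw [Real.log_div hx.ne' (by norm_num)] at h1
  have := Real.log_two_lt_d9
  linarith

/-- Size of `vY`. -/
theorem E11_vY {κ : ℝ} (hκ : 1 ≤ κ) {Y : ℕ} (hY : 1000 ≤ Y) (h1 : (4 * κ) ^ 2 ≤ Real.log Y)
    (h1' : 1 ≤ Real.log Y)
    (h2 : 1 ≤ Real.log (Real.log Y)) (h3 : 1 ≤ Real.log (Real.log (Real.log Y))) :
    vY κ Y ≤ Y / 8 ∧ 2 ≤ vY κ Y ∧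
      Real.log Y * Real.log (Real.log (Real.log Y)) / (2 * κ * Real.log (Real.log Y)) ≤
        Real.log (vY κ Y) := by
  set L1 := Real.log Y with hL1d
  set L2 := Real.log L1
  set L3 := Real.log L2
  have hYp : (1000 : ℝ) ≤ Y := by exact_mod_cast hY
  set E := L1 * L3 / (κ * L2) with hE
  have hκL : 0 < κ * L2 := by positivity
  -- lower bound for E
  have hs := E11_log_sqrt h1'
  have hsq := Real.sq_sqrt (show (0 : ℝ) ≤ L1 by linarith)
  have hs0 := Real.sqrt_nonneg L1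
  have hs4 : 4 * κ ≤ Real.sqrt L1 := by
    apply Real.le_sqrt_of_sq_le h1
  have hE2 : 2 ≤ E := by
    rw [hE, le_div_iff₀ hκL]
    have e1 : κ * L2 ≤ κ * (2 * Real.sqrt L1) := by
      apply mul_le_mul_of_nonneg_left hs (by linarith)
    have e2 : 2 * (κ * (2 * Real.sqrt L1)) = 4 * κ * Real.sqrt L1 := by ring
    have e3 : 4 * κ * Real.sqrt L1 ≤ Real.sqrt L1 * Real.sqrt L1 :=
      mul_le_mul_of_nonneg_right hs4 hs0
    nlinarith
  have hEh : E ≤ L1 / 2 := by
    rw [hE, div_le_iff₀ hκL]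
    have e1 : L3 ≤ L2 / 2 := E11_log_half (by linarith)
    have e2 : L2 ≤ κ * L2 := by nlinarith
    nlinarith
  have hexp2 : 2 ≤ Real.exp E := by
    have := Real.add_one_le_exp E
    linarith
  have hfl : Real.exp E - 1 < (vY κ Y : ℝ) := Nat.sub_one_lt_floor _
  have hfl2 : (vY κ Y : ℝ) ≤ Real.exp E := Nat.floor_le (Real.exp_pos _).le
  refine ⟨?_, ?_, ?_⟩
  · have e1 : Real.exp E ≤ Real.sqrt Y := by
      have : Real.sqrt Y = Real.exp (L1 / 2) := by
        rw [Real.sqrt_eq_rpow, Real.rpow_def_of_pos (by linarith)]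
        congr 1
        ring
      rw [this]
      exact Real.exp_le_exp.2 hEh
    have e2 : Real.sqrt Y ≤ Y / 16 := by
      rw [Real.sqrt_le_left (by positivity)]
      nlinarith
    have e3 : (vY κ Y : ℝ) ≤ Y / 16 := by linarith
    have e4 : 16 * vY κ Y ≤ Y := by
      have : (16 : ℝ) * (vY κ Y : ℝ) ≤ Y := by linarith
      exact_mod_cast this
    omega
  · unfold vY
    apply Nat.le_floor
    push_cast
    exact hexp2
  · have e1 : Real.exp (E / 2) ≤ (vY κ Y : ℝ) := by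
      have e3 : Real.exp E = Real.exp (E / 2) * Real.exp (E / 2) := by
        rw [← Real.exp_add]; congr 1; ring
      have e4 : 2 ≤ Real.exp (E / 2) := by
        have := Real.add_one_le_exp (E / 2)
        linarith
      nlinarith
    have e2 := Real.log_le_log (Real.exp_pos _) e1
    rw [Real.log_exp] at e2
    have e5 : L1 * L3 / (2 * κ * L2) = E / 2 := by
      rw [hE]; field_simp
    rw [e5]
    exact e2

theorem E11_W_pos (n : ℕ) : 0 < ∏ p ∈ prs n, p :=
  Finset.prod_pos fun _ hp => (mem_prs.1 hp).1.pos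

theorem E11_W_le (n : ℕ) : ∏ p ∈ prs n, p ≤ 4 ^ n := primorial_le_four_pow n

theorem survivors (ε : ℝ) (hε : 0 < ε) : ∃ c0 : ℝ, 0 < c0 ∧ ∃ Y0 : ℕ, ∀ Y : ℕ, Y0 ≤ Y →
    ∃ W n0 : ℕ, 0 < W ∧ W ≤ 4 ^ (Y / 8) ∧ (∀ p : ℕ, p.Prime → p ∣ W → p ≤ Y / 8) ∧
      (((Icc 1 (hY c0 Y)).filter (fun b => (n0 + b).Coprime W)).card : ℝ) ≤ ε * Y := by
  obtain ⟨κ, hκ, C, hC, hS⟩ := surv_small
  have hκC : 0 < 2 * κ * C := by positivity
  set c0 := min 1 (ε / (2 * κ * C)) with hc0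
  have hc0p : 0 < c0 := lt_min one_pos (by positivity)
  have hc1 : c0 ≤ 1 := min_le_left _ _
  have hce : 2 * κ * C * c0 ≤ ε := by
    have := min_le_right 1 (ε / (2 * κ * C))
    rw [← hc0, le_div_iff₀ hκC] at this
    linarith
  obtain ⟨Y1, hY1⟩ := hS c0 hc0p hc1
  obtain ⟨Y2, hY2⟩ := E11_ev (max 1 ((4 * κ) ^ 2))
  refine ⟨c0, hc0p, max Y1 Y2, fun Y hYY => ?_⟩
  obtain ⟨h1000, hL1, hL2, hL3⟩ := hY2 Y (le_trans (le_max_right _ _) hYY)
  have hL1a : 1 ≤ Real.log Y := le_trans (le_max_left _ _) hL1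
  have hL1b : (4 * κ) ^ 2 ≤ Real.log Y := le_trans (le_max_right _ _) hL1
  obtain ⟨hv1, hv2, hv3⟩ := E11_vY hκ h1000 hL1b hL1a hL2 hL3
  have hsv := hY1 Y (le_trans (le_max_left _ _) hYY)
  set v := vY κ Y
  set h := hY c0 Y
  set L1 := Real.log Y with hL1d
  set L2 := Real.log L1 with hL2d
  set L3 := Real.log L2 with hL3d
  have hP1 : ∀ p ∈ prs v, p.Prime := fun p hp => (mem_prs.1 hp).1
  have hP2 : ∀ p ∈ (prs (Y / 8)).filter (fun p => v < p), p.Prime := fun p hp =>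
    (mem_prs.1 (mem_filter.1 hp).1).1
  have hd : Disjoint (prs v) ((prs (Y / 8)).filter (fun p => v < p)) := by
    rw [Finset.disjoint_left]
    intro p hp hp2
    have h1 := (mem_prs.1 hp).2
    have h2 := (mem_filter.1 hp2).2
    omega
  obtain ⟨a, ha⟩ := greedy (Surv h v (Y / 8)) (prs v) hP1
  obtain ⟨n0, hn1, hn2⟩ := crt_classes (prs v) ((prs (Y / 8)).filter (fun p => v < p)) hP1 hP2 hd a
  refine ⟨∏ p ∈ prs (Y / 8), p, n0, E11_W_pos _, E11_W_le _, ?_, ?_⟩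
  · intro p hp hpd
    rw [Prime.dvd_finsetProd_iff hp.prime] at hpd
    obtain ⟨q, hq, hpq⟩ := hpd
    rw [mem_prs] at hq
    rw [(Nat.prime_dvd_prime_iff_eq hp hq.1).1 hpq]
    exact hq.2
  · have hsub : (Icc 1 h).filter (fun b => (n0 + b).Coprime (∏ p ∈ prs (Y / 8), p)) ⊆
        (Surv h v (Y / 8)).filter (fun b => ∀ p ∈ prs v, ¬ (b ≡ a p [MOD p])) := by
      intro b hb
      rw [mem_filter] at hb
      have hcop : ∀ p ∈ prs (Y / 8), ¬ p ∣ n0 + b := by
        intro p hp hpd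
        have hpp := (mem_prs.1 hp).1
        have h1 : p ∣ ∏ p ∈ prs (Y / 8), p := Finset.dvd_prod_of_mem (fun p => p) hp
        have h2 := Nat.dvd_gcd hpd h1
        rw [hb.2] at h2
        exact hpp.one_lt.ne' (Nat.dvd_one.1 h2)
      rw [mem_filter]
      constructor
      · unfold Surv
        rw [mem_filter]
        refine ⟨hb.1, fun p hp hpv => ?_⟩
        have hpp := Nat.prime_of_mem_primeFactors hp
        have hpb := Nat.dvd_of_mem_primeFactors hp
        have hp8 : p ∈ prs (Y / 8) := mem_prs.2 ⟨hpp, hpv.2⟩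
        have hp2 : p ∈ (prs (Y / 8)).filter (fun p => v < p) := mem_filter.2 ⟨hp8, hpv.1⟩
        exact hcop p hp8 ((hn2 p hp2 b).2 hpb)
      · intro p hp hpm
        have hp8 : p ∈ prs (Y / 8) := by
          rw [mem_prs] at hp ⊢
          exact ⟨hp.1, hp.2.trans hv1⟩
        exact hcop p hp8 ((hn1 p hp b).2 hpm)
    have hcard : (((Icc 1 h).filter (fun b => (n0 + b).Coprime (∏ p ∈ prs (Y / 8), p))).card : ℝ) ≤
        (Surv h v (Y / 8)).card * ∏ p ∈ prs v, (1 - 1 / (p : ℝ)) := by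
      refine le_trans ?_ ha
      exact_mod_cast Finset.card_le_card hsub
    have hlogv : 0 < Real.log (v : ℝ) := Real.log_pos (by
      have : (2 : ℝ) ≤ (v : ℝ) := by exact_mod_cast hv2
      linarith)
    have hprod := prod_prs_le v hv2
    have hprod0 : 0 ≤ ∏ p ∈ prs v, (1 - 1 / (p : ℝ)) := by
      apply Finset.prod_nonneg
      intro p hp
      have : (1 : ℝ) ≤ (p : ℝ) := by exact_mod_cast (hP1 p hp).one_lt.le
      have : 1 / (p : ℝ) ≤ 1 := by
        rw [div_le_one (by linarith)]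
        exact this
      linarith
    have hYp : (1000 : ℝ) ≤ Y := by exact_mod_cast h1000
    have hhup : (h : ℝ) ≤ c0 * Y * L1 ^ 2 * L3 / L2 ^ 2 := by
      apply Nat.floor_le
      positivity
    have hq : 0 < L1 * L3 / (2 * κ * L2) := by positivity
    calc (((Icc 1 h).filter (fun b => (n0 + b).Coprime (∏ p ∈ prs (Y / 8), p))).card : ℝ)
        ≤ (Surv h v (Y / 8)).card * ∏ p ∈ prs v, (1 - 1 / (p : ℝ)) := hcard
      _ ≤ (C * h * L2 / L1) * (1 / Real.log (v : ℝ)) := by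
          apply mul_le_mul hsv hprod hprod0
          positivity
      _ ≤ (C * h * L2 / L1) * (1 / (L1 * L3 / (2 * κ * L2))) := by
          apply mul_le_mul_of_nonneg_left _ (by positivity)
          exact one_div_le_one_div_of_le hq hv3
      _ = (C * L2 / L1 * (2 * κ * L2) / (L1 * L3)) * h := by
          field_simp
      _ ≤ (C * L2 / L1 * (2 * κ * L2) / (L1 * L3)) * (c0 * Y * L1 ^ 2 * L3 / L2 ^ 2) := by
          apply mul_le_mul_of_nonneg_left hhup (by positivity)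
      _ = (2 * κ * C * c0) * Y := by
          field_simp
      _ ≤ ε * Y := by
          apply mul_le_mul_of_nonneg_right hce (by linarith)

end Pool.Agent.LibRG87
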