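import Mathlib

/-! Record gaps (MP_ff81b6_nt), part III: the Erdos-Rankin choice of residue classes.  Definitions. -/

namespace Pool.Agent.LibRG87

open Finset

/-- the primes up to `n` -/
def prs (n : ℕ) : Finset ℕ := (range (n + 1)).filter Nat.Prime

theorem mem_prs {n p : ℕ} : p ∈ prs n ↔ p.Prime ∧ p ≤ n := by
  simp only [prs, mem_filter, mem_range]
  constructor
  · rintro ⟨h1, h2⟩; exact ⟨h2, by omega⟩
  · rintro ⟨h1, h2⟩; exact ⟨by omega, h1⟩

/-- the number of `b ∈ [1,h]` all of whose prime factors are `≤ v` -/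
def Psi (h v : ℕ) : ℕ := ((Icc 1 h).filter (fun b => ∀ p ∈ b.primeFactors, p ≤ v)).card

/-- the `b ∈ [1,h]` without a prime factor in `(v, a]` -/
def Surv (h v a : ℕ) : Finset ℕ := (Icc 1 h).filter (fun b => ∀ p ∈ b.primeFactors, ¬ (v < p ∧ p ≤ a))

/-- the smoothness bound `v = exp (log Y log log log Y / (κ log log Y))` -/
noncomputable def vY (κ : ℝ) (Y : ℕ) : ℕ :=
  ⌊Real.exp (Real.log Y * Real.log (Real.log (Real.log Y)) / (κ * Real.log (Real.log Y)))⌋₊

/-- the length `c Y (log Y)^2 log log log Y / (log log Y)^2` -/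
noncomputable def hY (c : ℝ) (Y : ℕ) : ℕ :=
  ⌊c * Y * (Real.log Y) ^ 2 * Real.log (Real.log (Real.log Y)) / (Real.log (Real.log Y)) ^ 2⌋₊

end Pool.Agent.LibRG87
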