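import Mathlib

/-! Extraction of two consecutive primes from a run of composite numbers. -/

namespace Pool.Agent.LibRG87

open Finset

theorem extract (n h : ℕ) (hn : 2 ≤ n) (hno : ∀ b, 1 ≤ b → b ≤ h → ¬ (n + b).Prime) :
    ∃ p q : ℕ, p.Prime ∧ q.Prime ∧ (∀ r, p < r → r < q → ¬ r.Prime) ∧ p ≤ n ∧ n + h < q := by
  have hex : ∃ q, n < q ∧ q.Prime := by
    obtain ⟨q, hq, hqp⟩ := Nat.exists_infinite_primes (n + 1)
    exact ⟨q, by omega, hqp⟩
  classical
  set q := Nat.find hex with hq
  have hqs := Nat.find_spec hex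
  rw [← hq] at hqs
  set p := Nat.findGreatest Nat.Prime n with hp
  have hpp : p.Prime := Nat.findGreatest_spec (P := Nat.Prime) hn Nat.prime_two
  have hpn : p ≤ n := Nat.findGreatest_le n
  refine ⟨p, q, hpp, hqs.2, ?_, hpn, ?_⟩
  · intro r h1 h2 hr
    rcases le_or_gt r n with h3 | h3
    · exact (Nat.findGreatest_is_greatest h1 h3) hr
    · exact (Nat.find_min hex h2) ⟨h3, hr⟩
  · by_contra hcon
    push Not at hcon
    have h1 : n + (q - n) = q := by omega
    have := hno (q - n) (by omega) (by omega)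
    rw [h1] at this
    exact this hqs.2

end Pool.Agent.LibRG87
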