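import Pool.Agent.LibRG87.EDefs

/-! ROW F2 (conversion `Y = ⌊θ log X⌋`).  PLAN: `T = log X → ∞`, `Y = ⌊θ T⌋₊ ≥ θ T/2`, `Y ≤ T`.  For large `T`:
`log T / 2 ≤ log Y ≤ log T`, `loglog T / 2 ≤ loglog Y ≤ loglog T`, `logloglog Y ≥ logloglog T / 2`.
So `c0 Y (log Y)^2 L3(Y)/L2(Y)^2 ≥ c0 (θ T/2) (log T/2)^2 (L3(T)/2)/L2(T)^2 = (c0 θ/16) R(X)`, it is `≥ 2` for large `X`, and
`⌊t⌋₊ ≥ t/2` for `t ≥ 2`.  `c = c0 θ / 32`.  Use `Real.tendsto_log_atTop` and its iterates; everything eventually positive. -/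

namespace Pool.Agent.LibRG87

open Finset

theorem hY_ge (θ c0 : ℝ) (hθ : 0 < θ) (hθ1 : θ ≤ 1) (hc0 : 0 < c0) :
    ∃ c : ℝ, 0 < c ∧ ∃ X0 : ℝ, ∀ X : ℝ, X0 ≤ X →
      c * Real.log X * (Real.log (Real.log X)) ^ 2 * Real.log (Real.log (Real.log (Real.log X))) /
        (Real.log (Real.log (Real.log X))) ^ 2 ≤ (hY c0 ⌊θ * Real.log X⌋₊ : ℝ) := by
  have t1 : Filter.Tendsto (fun X : ℝ => Real.log X) Filter.atTop Filter.atTop :=
    Real.tendsto_log_atTop
  have t2 : Filter.Tendsto (fun X : ℝ => Real.log (Real.log X)) Filter.atTop Filter.atTop :=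
    Real.tendsto_log_atTop.comp t1
  have t3 : Filter.Tendsto (fun X : ℝ => Real.log (Real.log (Real.log X))) Filter.atTop
      Filter.atTop := Real.tendsto_log_atTop.comp t2
  have t4 : Filter.Tendsto (fun X : ℝ => Real.log (Real.log (Real.log (Real.log X))))
      Filter.atTop Filter.atTop := Real.tendsto_log_atTop.comp t3
  have hev : ∀ᶠ X : ℝ in Filter.atTop,
      c0 * θ / 32 * Real.log X * (Real.log (Real.log X)) ^ 2 *
          Real.log (Real.log (Real.log (Real.log X))) /
        (Real.log (Real.log (Real.log X))) ^ 2 ≤ (hY c0 ⌊θ * Real.log X⌋₊ : ℝ) := by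
    filter_upwards [t1.eventually_ge_atTop (2 / θ), t1.eventually_ge_atTop (32 / (c0 * θ)),
      t1.eventually_ge_atTop 1, t2.eventually_ge_atTop (-2 * Real.log (θ / 2)),
      t2.eventually_ge_atTop 1, t3.eventually_ge_atTop (2 * Real.log 2),
      t3.eventually_ge_atTop 1, t4.eventually_ge_atTop (2 * Real.log 2),
      t4.eventually_ge_atTop 1] with X a1 a2 a3 a4 a5 a6 a7 a8 a9
    set T := Real.log X with hT
    have hT0 : 0 < T := by linarith
    have hb1 : 1 ≤ θ * T / 2 := by
      rw [div_le_iff₀ hθ] at a1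
      linarith
    have hy1 : θ * T / 2 ≤ (⌊θ * T⌋₊ : ℝ) := by
      have := Nat.lt_floor_add_one (θ * T)
      linarith
    have hy2 : (⌊θ * T⌋₊ : ℝ) ≤ T := by
      have h1 := Nat.floor_le (mul_nonneg hθ.le hT0.le)
      have h2 : θ * T ≤ 1 * T := mul_le_mul_of_nonneg_right hθ1 hT0.le
      linarith
    unfold hY
    generalize (⌊θ * T⌋₊ : ℝ) = y at hy1 hy2 ⊢
    have hy0 : 0 < y := by linarith
    -- first logarithm
    have hl1 : Real.log T / 2 ≤ Real.log y := by
      have h1 : Real.log (θ / 2 * T) ≤ Real.log y :=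
        Real.log_le_log (by positivity) (by linarith)
      rw [Real.log_mul (by positivity) hT0.ne'] at h1
      linarith
    have hl2 : Real.log y ≤ Real.log T := Real.log_le_log hy0 hy2
    have hlT : 0 < Real.log T := by linarith
    have hly : 0 < Real.log y := by linarith
    -- second logarithm
    have hm1 : Real.log (Real.log T) / 2 ≤ Real.log (Real.log y) := by
      have h1 := Real.log_le_log (by linarith) hl1
      rw [Real.log_div hlT.ne' (by norm_num)] at h1
      linarith
    have hm2 : Real.log (Real.log y) ≤ Real.log (Real.log T) := Real.log_le_log hly hl2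
    have hmT : 0 < Real.log (Real.log T) := by linarith
    have hmy : 0 < Real.log (Real.log y) := by linarith
    -- third logarithm
    have hn1 : Real.log (Real.log (Real.log T)) / 2 ≤ Real.log (Real.log (Real.log y)) := by
      have h1 := Real.log_le_log (by linarith) hm1
      rw [Real.log_div hmT.ne' (by norm_num)] at h1
      linarith
    have hnT : 0 < Real.log (Real.log (Real.log T)) := by linarith
    have hny : 0 < Real.log (Real.log (Real.log y)) := by linarith
    generalize Real.log (Real.log (Real.log T)) = n at *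
    generalize Real.log (Real.log (Real.log y)) = n' at *
    have hmT1 : Real.log (Real.log T) ≤ Real.log T := by
      have := Real.log_le_sub_one_of_pos hlT
      linarith
    generalize Real.log (Real.log T) = m at *
    generalize Real.log (Real.log y) = m' at *
    generalize Real.log T = l at *
    generalize Real.log y = l' at *
    -- the main inequality
    have key : c0 * θ / 16 * T * l ^ 2 * n / m ^ 2 ≤ c0 * y * l' ^ 2 * n' / m' ^ 2 := by
      have h1 : c0 * θ / 16 * T * l ^ 2 * n = c0 * (θ * T / 2) * (l / 2) ^ 2 * (n / 2) := by ring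
      rw [h1]
      have h2 : c0 * (θ * T / 2) * (l / 2) ^ 2 * (n / 2) ≤ c0 * y * l' ^ 2 * n' := by
        gcongr
      have h3 : m' ^ 2 ≤ m ^ 2 := by gcongr
      exact div_le_div₀ (by positivity) h2 (by positivity) h3
    have hbig : 2 ≤ c0 * θ / 16 * T * l ^ 2 * n / m ^ 2 := by
      rw [le_div_iff₀ (by positivity)]
      have h1 : 2 ≤ c0 * θ / 16 * T := by
        rw [div_le_iff₀ (by positivity)] at a2
        linarith
      have h2 : m ^ 2 ≤ l ^ 2 := by gcongr
      calc 2 * m ^ 2 ≤ c0 * θ / 16 * T * l ^ 2 := by gcongr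
        _ = c0 * θ / 16 * T * l ^ 2 * 1 := by ring
        _ ≤ c0 * θ / 16 * T * l ^ 2 * n := by gcongr
    have hfl := Nat.lt_floor_add_one (c0 * y * l' ^ 2 * n' / m' ^ 2)
    have hhalf : c0 * θ / 32 * T * l ^ 2 * n / m ^ 2 =
        (c0 * θ / 16 * T * l ^ 2 * n / m ^ 2) / 2 := by ring
    rw [hhalf]
    linarith
  obtain ⟨X0, hX0⟩ := Filter.eventually_atTop.1 hev
  exact ⟨c0 * θ / 32, by positivity, X0, hX0⟩

end Pool.Agent.LibRG87
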