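import Pool.Agent.LibRG87.EDefs

/-! ROW F3 (sizes).  PLAN: `Y = ⌊θ log X⌋₊`, `exp (9/10 Y) ≤ X^(9θ/10)`.  `hY c0 Y ≤ c0 Y (log Y)^2 * L3/L2^2 ≤ Y^2` for large
`Y` (as `L3 ≤ L2^2`, `(log Y)^2 = o(Y)`), and `Y^2 + 3 + X^(9θ/10) ≤ X^θ` for large `X`
(`(log X)^2 = o(X^(θ/20))`: `Real.isLittleO_log_id_atTop`, `isLittleO_log_rpow_atTop`).  For (b):
`sqrt Y ≤ Y ≤ log X` so `exp (sqrt Y) ≤ X`; `Y/8 ≤ log X ≤ X`. -/

namespace Pool.Agent.LibRG87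

open Finset Filter

/-- (a) -/
theorem hY_le (c0 : ℝ) : ∃ Y0 : ℕ, ∀ Y : ℕ, Y0 ≤ Y → hY c0 Y ≤ Y ^ 2 := by
  have t1 : Tendsto (fun Y : ℕ => Real.log (Real.log (Y : ℝ))) atTop atTop :=
    (Real.tendsto_log_atTop.comp Real.tendsto_log_atTop).comp tendsto_natCast_atTop_atTop
  have e1 : ∀ᶠ Y : ℕ in atTop, 1 ≤ Real.log (Real.log (Y : ℝ)) := t1.eventually_ge_atTop 1
  have hc : (0 : ℝ) < 1 / (|c0| + 1) := by positivity
  have e2' : ∀ᶠ x : ℝ in atTop, ‖Real.log x ^ 2‖ ≤ 1 / (|c0| + 1) * ‖id x‖ :=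
    (Real.isLittleO_pow_log_id_atTop (n := 2)).bound hc
  have e2 : ∀ᶠ Y : ℕ in atTop, ‖Real.log (Y : ℝ) ^ 2‖ ≤ 1 / (|c0| + 1) * ‖id (Y : ℝ)‖ :=
    tendsto_natCast_atTop_atTop.eventually e2'
  obtain ⟨Y0, h0⟩ := eventually_atTop.1 (e1.and e2)
  refine ⟨Y0, fun Y hY0 => ?_⟩
  obtain ⟨h1, h2⟩ := h0 Y hY0
  have hYn : (0 : ℝ) ≤ (Y : ℝ) := Nat.cast_nonneg Y
  rw [id, Real.norm_of_nonneg (sq_nonneg _), Real.norm_of_nonneg hYn] at h2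
  set L2 : ℝ := Real.log (Real.log (Y : ℝ)) with hL2
  have h3 : 0 ≤ Real.log L2 := Real.log_nonneg h1
  have h4 : Real.log L2 ≤ L2 ^ 2 := by
    have := Real.log_le_sub_one_of_pos (show 0 < L2 by linarith)
    nlinarith
  have h5 : Real.log L2 / L2 ^ 2 ≤ 1 := by
    rw [div_le_one (by positivity)]
    exact h4
  have h6 : 0 ≤ Real.log L2 / L2 ^ 2 := div_nonneg h3 (sq_nonneg _)
  have h7 : |c0| * Real.log (Y : ℝ) ^ 2 ≤ Y := by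
    have h8 : (|c0| + 1) * Real.log (Y : ℝ) ^ 2 ≤ Y := by
      have hp : (0 : ℝ) < |c0| + 1 := by positivity
      calc (|c0| + 1) * Real.log (Y : ℝ) ^ 2 ≤ (|c0| + 1) * (1 / (|c0| + 1) * Y) :=
            mul_le_mul_of_nonneg_left h2 hp.le
        _ = Y := by field_simp
    nlinarith [sq_nonneg (Real.log (Y : ℝ))]
  have key : c0 * Y * (Real.log Y) ^ 2 * Real.log L2 / L2 ^ 2 ≤ ((Y ^ 2 : ℕ) : ℝ) := by
    have e : c0 * Y * (Real.log Y) ^ 2 * Real.log L2 / L2 ^ 2 =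
        c0 * (Y * (Real.log Y) ^ 2 * (Real.log L2 / L2 ^ 2)) := by ring
    rw [e]
    have hp : 0 ≤ (Y : ℝ) * (Real.log Y) ^ 2 * (Real.log L2 / L2 ^ 2) := by positivity
    calc c0 * (Y * (Real.log Y) ^ 2 * (Real.log L2 / L2 ^ 2))
        ≤ |c0| * (Y * (Real.log Y) ^ 2 * (Real.log L2 / L2 ^ 2)) :=
          mul_le_mul_of_nonneg_right (le_abs_self c0) hp
      _ = Y * (|c0| * (Real.log Y) ^ 2) * (Real.log L2 / L2 ^ 2) := by ring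
      _ ≤ Y * Y * 1 := by
          refine mul_le_mul (mul_le_mul_of_nonneg_left h7 hYn) h5 h6 (by positivity)
      _ = ((Y ^ 2 : ℕ) : ℝ) := by push_cast; ring
  unfold hY
  exact Nat.floor_le_of_le key

theorem sizes (θ : ℝ) (hθ : 0 < θ) (hθ1 : θ ≤ 1) : ∃ X0 : ℝ, ∀ X : ℝ, X0 ≤ X →
    3 ≤ X ∧ ((⌊θ * Real.log X⌋₊ : ℕ) : ℝ) ^ 2 + 3 + Real.exp (9 / 10 * (⌊θ * Real.log X⌋₊ : ℕ)) ≤ X ^ θ ∧
      Real.exp (Real.sqrt (⌊θ * Real.log X⌋₊ : ℕ)) ≤ X ∧ ((⌊θ * Real.log X⌋₊ : ℕ) : ℝ) ≤ X := by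
  have hlo := (isLittleO_pow_exp_pos_mul_atTop 2 (show (0 : ℝ) < 9 / 10 * θ by positivity)).bound
    (show (0 : ℝ) < 1 / 4 by norm_num)
  have e1 : ∀ᶠ T : ℝ in atTop, T ^ 2 + 3 ≤ Real.exp (9 / 10 * θ * T) := by
    filter_upwards [hlo, eventually_ge_atTop (2 : ℝ)] with T h1 h2
    rw [Real.norm_of_nonneg (sq_nonneg _), Real.norm_of_nonneg (Real.exp_pos _).le] at h1
    nlinarith
  have e2 : ∀ᶠ T : ℝ in atTop, 2 ≤ Real.exp (1 / 10 * θ * T) := by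
    have : Tendsto (fun T : ℝ => Real.exp (1 / 10 * θ * T)) atTop atTop :=
      Real.tendsto_exp_atTop.comp (tendsto_id.const_mul_atTop (by positivity))
    exact this.eventually_ge_atTop 2
  have e3 := Real.tendsto_log_atTop.eventually (e1.and (e2.and (eventually_ge_atTop (1 : ℝ))))
  obtain ⟨X0, h0⟩ := eventually_atTop.1 (e3.and (eventually_ge_atTop (3 : ℝ)))
  refine ⟨X0, fun X hX => ?_⟩
  obtain ⟨⟨h1, h2, h3⟩, h4⟩ := h0 X hX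
  have hX0 : 0 < X := by linarith
  set T : ℝ := Real.log X with hT
  have hXT : Real.exp T = X := Real.exp_log hX0
  have hθT : 0 ≤ θ * T := by positivity
  have hfl : ((⌊θ * T⌋₊ : ℕ) : ℝ) ≤ θ * T := Nat.floor_le hθT
  have hf0 : (0 : ℝ) ≤ ((⌊θ * T⌋₊ : ℕ) : ℝ) := Nat.cast_nonneg _
  have hθTT : θ * T ≤ T := by nlinarith
  have hfT : ((⌊θ * T⌋₊ : ℕ) : ℝ) ≤ T := hfl.trans hθTT
  refine ⟨h4, ?_, ?_, ?_⟩
  · have e5 : X ^ θ = Real.exp (9 / 10 * θ * T) * Real.exp (1 / 10 * θ * T) := by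
      rw [Real.rpow_def_of_pos hX0, ← hT, ← Real.exp_add]
      congr 1
      ring
    have e6 : ((⌊θ * T⌋₊ : ℕ) : ℝ) ^ 2 ≤ T ^ 2 := pow_le_pow_left₀ hf0 hfT 2
    have e7 : Real.exp (9 / 10 * (⌊θ * T⌋₊ : ℕ)) ≤ Real.exp (9 / 10 * θ * T) := by
      apply Real.exp_le_exp.2
      nlinarith
    rw [e5]
    have e8 : 0 < Real.exp (9 / 10 * θ * T) := Real.exp_pos _
    nlinarith
  · rw [← hXT]
    apply Real.exp_le_exp.2
    rw [Real.sqrt_le_left (by linarith)]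
    nlinarith
  · refine hfT.trans ?_
    have := Real.log_le_sub_one_of_pos hX0
    linarith

end Pool.Agent.LibRG87
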