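import Pool.Agent.LibRG87.FDefs
import Pool.Agent.LibRG87.E11
import Pool.Agent.LibRG87.F1
import Pool.Agent.LibRG87.F2
import Pool.Agent.LibRG87.F3

/-! Assembly of the record theorem, uniformly in the length of the interval. -/

namespace Pool.Agent.LibRG87

open Finset

theorem record_uniform (hcov : Cover) :
    ∃ c : ℝ, 0 < c ∧ ∃ H0 : ℝ, ∀ H X : ℝ, H0 ≤ H → H ≤ X → ∃ p q m g : ℕ,
      p.Prime ∧ q.Prime ∧ (∀ r, p < r → r < q → ¬ r.Prime) ∧ p ≤ m ∧ m + g < q ∧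
      X ≤ m ∧ (m : ℝ) + g ≤ X + H ∧
      c * Real.log H * (Real.log (Real.log H)) ^ 2 * Real.log (Real.log (Real.log (Real.log H))) /
        (Real.log (Real.log (Real.log H))) ^ 2 ≤ g := by
  obtain ⟨c1, hc1, Y1, hY1⟩ := hcov
  obtain ⟨c0, hc0, Y2, hY2⟩ := survivors c1 hc1
  obtain ⟨c, hc, X1, hX1⟩ := hY_ge 1 c0 one_pos le_rfl hc0
  obtain ⟨Y3, hY3⟩ := hY_le c0
  obtain ⟨X2, hX2⟩ := sizes 1 one_pos le_rfl
  refine ⟨c, hc, max (max X1 X2) (Real.exp ((Y1 + Y2 + Y3 + 1 : ℕ))), ?_⟩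
  intro H X hH hHX
  have hXa : X1 ≤ H := (le_max_left _ _).trans ((le_max_left _ _).trans hH)
  have hXb : X2 ≤ H := (le_max_right _ _).trans ((le_max_left _ _).trans hH)
  have hXc : Real.exp ((Y1 + Y2 + Y3 + 1 : ℕ)) ≤ H := (le_max_right _ _).trans hH
  obtain ⟨h3, hs, hsq, hYX⟩ := hX2 H hXb
  have hX1' := hX1 H hXa
  simp only [one_mul, Real.rpow_one] at hs hsq hYX hX1'
  have hX0 : 0 < X := by linarith
  set Y : ℕ := ⌊Real.log H⌋₊ with hYdef
  have hYbig : Y1 + Y2 + Y3 + 1 ≤ Y := by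
    apply Nat.le_floor
    have h1 := Real.log_le_log (Real.exp_pos _) hXc
    rwa [Real.log_exp] at h1
  obtain ⟨W, n0, hW, hW4, hWp, hcnt⟩ := hY2 Y (by omega)
  set h := hY c0 Y with hh
  have hhY : h ≤ Y ^ 2 := hY3 Y (by omega)
  set B := (Icc 1 h).filter (fun b => (n0 + b).Coprime W) with hB
  obtain ⟨n, hn1, hn2, hn3, hn4⟩ := hY1 Y (by omega) W n0 ⌈X⌉₊ B hW hW4
    (fun p hp hpW => (hWp p hp hpW).trans (Nat.div_le_self _ _))
    (fun b hb => by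
      rw [hB, mem_filter, mem_Icc] at hb
      exact ⟨hb.1.1, hb.1.2.trans hhY⟩) hcnt
  have hnX : X < n := (Nat.le_ceil X).trans_lt (by exact_mod_cast hn1)
  have hno : ∀ b, 1 ≤ b → b ≤ h → ¬ (n + b).Prime := by
    intro b hb1 hb2 hpr
    by_cases hbB : b ∈ B
    · obtain ⟨p, hp, hpd, hple⟩ := hn4 b hbB
      have h1 : p = n + b := (Nat.prime_dvd_prime_iff_eq hp hpr).1 hpd
      have h2 : (p : ℝ) ≤ X := (hple.trans hsq).trans hHX
      rw [h1] at h2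
      push_cast at h2
      have : (0:ℝ) ≤ b := Nat.cast_nonneg b
      linarith
    · have hnc : ¬ (n0 + b).Coprime W := by
        intro hco
        apply hbB
        rw [hB, mem_filter, mem_Icc]
        exact ⟨⟨hb1, hb2⟩, hco⟩
      obtain ⟨p, hp, hp1, hp2⟩ := Nat.Prime.not_coprime_iff_dvd.1 hnc
      have h1 : p ∣ n + b := by
        have h2 : n + b ≡ n0 + b [MOD p] := (hn3.of_dvd hp2).add_right b
        exact (h2.dvd_iff dvd_rfl).2 hp1
      have h3' : p = n + b := (Nat.prime_dvd_prime_iff_eq hp hpr).1 h1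
      have h4 : p ≤ Y := (hWp p hp hp2).trans (Nat.div_le_self _ _)
      have h5 : (p : ℝ) ≤ X := (le_trans (by exact_mod_cast h4) hYX).trans hHX
      rw [h3'] at h5
      push_cast at h5
      have : (0:ℝ) ≤ b := Nat.cast_nonneg b
      linarith
  have hn2' : 2 ≤ n := by
    have : (2:ℝ) < n := by linarith
    exact_mod_cast this.le
  obtain ⟨p, q, hp, hq, hpq, hpn, hqn⟩ := extract n h hn2' hno
  refine ⟨p, q, n, h, hp, hq, hpq, hpn, hqn, hnX.le, ?_, hX1'⟩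
  have h5 : (⌈X⌉₊ : ℝ) < X + 1 := Nat.ceil_lt_add_one hX0.le
  have h6 : (h : ℝ) ≤ (Y : ℝ) ^ 2 := by exact_mod_cast hhY
  linarith

end Pool.Agent.LibRG87
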