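import Pool.Agent.LibRG87.R1

/-!
Row R4: Chernoff (Rankin). With `θ = 1 / log z`:
`1[∏ rr (A i) > T] ≤ exp (θ (∑ log (rr (A i)) - log T))`, so the sum is at most
`exp (- θ log T) (∑_A F A exp (θ log (rr A)))^N` (`Finset.prod_univ_sum`). For `rr A ≤ z`, `x = θ log rr A ∈ [0,1]` and
`exp x ≤ 1 + 2 x` (convexity: `exp x ≤ 1 + (e - 1) x`), so the inner sum is at most
`S + 2 σ / log z ≤ S (1 + 2 σ / log z) ≤ S exp (2 σ / log z)` (`S ≥ 1`).
-/

open Finset

namespace Pool.Agent.LibRG87

theorem exp_le_one_add_two_mul {x : ℝ} (h0 : 0 ≤ x) (h1 : x ≤ 1) : Real.exp x ≤ 1 + 2 * x := by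
  have h := Real.abs_exp_sub_one_sub_id_le (x := x) (by rw [abs_of_nonneg h0]; exact h1)
  have h' := (abs_le.mp h).2
  nlinarith [mul_le_of_le_one_right h0 h1]

variable {ι : Type} [Fintype ι] [DecidableEq ι] (P : Finset ℕ)
open scoped Classical in
theorem chernoff (hP : ∀ p ∈ P, Nat.Prime p) (F : Finset ℕ → ℝ) (hF : ∀ A ∈ P.powerset, 0 ≤ F A)
    (hS : 1 ≤ ∑ A ∈ P.powerset, F A) {z T : ℝ} (hz : 1 < z) (hT : 0 < T)
    (hFz : ∀ A ∈ P.powerset, F A ≠ 0 → rr A ≤ z) :
    ∑ A ∈ Fintype.piFinset (fun _ : ι => P.powerset) with T < ∏ i, rr (A i), ∏ i, F (A i) ≤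
      (∑ A ∈ P.powerset, F A) ^ Fintype.card ι *
        Real.exp (-(Real.log T / Real.log z) +
          2 * (Fintype.card ι * (∑ A ∈ P.powerset, F A * Real.log (rr A)) / Real.log z)) := by
  have hlz : 0 < Real.log z := Real.log_pos hz
  set S : ℝ := ∑ A ∈ P.powerset, F A with hSdef
  set σ : ℝ := ∑ A ∈ P.powerset, F A * Real.log (rr A) with hσdef
  have hrr1 : ∀ A ∈ P.powerset, 1 ≤ rr A := fun A hA => one_le_rr P hP (Finset.mem_powerset.mp hA)
  have hσ0 : 0 ≤ σ := Finset.sum_nonneg fun A hA => mul_nonneg (hF A hA) (Real.log_nonneg (hrr1 A hA))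
  -- step 1
  have h1 : ∑ A ∈ Fintype.piFinset (fun _ : ι => P.powerset) with T < ∏ i, rr (A i), ∏ i, F (A i) ≤
      ∑ A ∈ Fintype.piFinset (fun _ : ι => P.powerset),
        Real.exp (-(Real.log T / Real.log z)) *
          ∏ i, (F (A i) * Real.exp (Real.log (rr (A i)) / Real.log z)) := by
    rw [Finset.sum_filter]
    refine Finset.sum_le_sum fun A hA => ?_
    have hAi : ∀ i, A i ∈ P.powerset := fun i => Fintype.mem_piFinset.mp hA i
    have hprod0 : 0 ≤ ∏ i, F (A i) := Finset.prod_nonneg fun i _ => hF _ (hAi i)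
    rw [Finset.prod_mul_distrib, ← Real.exp_sum]
    split_ifs with hTA
    · have hpos : ∀ i ∈ (Finset.univ : Finset ι), rr (A i) ≠ 0 := fun i _ =>
        ne_of_gt (lt_of_lt_of_le one_pos (hrr1 _ (hAi i)))
      have hlog : Real.log T ≤ ∑ i, Real.log (rr (A i)) := by
        rw [← Real.log_prod hpos]
        exact Real.log_le_log hT hTA.le
      have hexp : (1 : ℝ) ≤ Real.exp (-(Real.log T / Real.log z)) *
          Real.exp (∑ i, Real.log (rr (A i)) / Real.log z) := by
        rw [← Real.exp_add]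
        apply Real.one_le_exp
        rw [← Finset.sum_div]
        have : Real.log T / Real.log z ≤ (∑ i, Real.log (rr (A i))) / Real.log z :=
          div_le_div_of_nonneg_right hlog hlz.le
        linarith
      calc ∏ i, F (A i) = (∏ i, F (A i)) * 1 := (mul_one _).symm
        _ ≤ (∏ i, F (A i)) * (Real.exp (-(Real.log T / Real.log z)) *
              Real.exp (∑ i, Real.log (rr (A i)) / Real.log z)) :=
            mul_le_mul_of_nonneg_left hexp hprod0
        _ = _ := by ring
    · positivity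
  -- step 2
  have h2 : ∑ A ∈ P.powerset, F A * Real.exp (Real.log (rr A) / Real.log z) ≤
      S * Real.exp (2 * (σ / Real.log z)) := by
    have h2a : ∑ A ∈ P.powerset, F A * Real.exp (Real.log (rr A) / Real.log z) ≤
        ∑ A ∈ P.powerset, (F A + 2 * (F A * Real.log (rr A) / Real.log z)) := by
      refine Finset.sum_le_sum fun A hA => ?_
      by_cases hF0 : F A = 0
      · simp [hF0]
      · have hx0 : 0 ≤ Real.log (rr A) / Real.log z :=
          div_nonneg (Real.log_nonneg (hrr1 A hA)) hlz.le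
        have hx1 : Real.log (rr A) / Real.log z ≤ 1 := by
          rw [div_le_one hlz]
          exact Real.log_le_log (lt_of_lt_of_le one_pos (hrr1 A hA)) (hFz A hA hF0)
        have := mul_le_mul_of_nonneg_left (exp_le_one_add_two_mul hx0 hx1) (hF A hA)
        calc F A * Real.exp (Real.log (rr A) / Real.log z)
            ≤ F A * (1 + 2 * (Real.log (rr A) / Real.log z)) := this
          _ = F A + 2 * (F A * Real.log (rr A) / Real.log z) := by ring
    have h2b : ∑ A ∈ P.powerset, (F A + 2 * (F A * Real.log (rr A) / Real.log z)) =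
        S + 2 * (σ / Real.log z) := by
      rw [Finset.sum_add_distrib, ← Finset.mul_sum, ← Finset.sum_div]
    have hq : 0 ≤ 2 * (σ / Real.log z) := by positivity
    calc _ ≤ _ := h2a
      _ = S + 2 * (σ / Real.log z) := h2b
      _ ≤ S * (1 + 2 * (σ / Real.log z)) := by nlinarith
      _ ≤ S * Real.exp (2 * (σ / Real.log z)) := by
          apply mul_le_mul_of_nonneg_left _ (by linarith)
          have := Real.add_one_le_exp (2 * (σ / Real.log z))
          linarith
  have h20 : 0 ≤ ∑ A ∈ P.powerset, F A * Real.exp (Real.log (rr A) / Real.log z) :=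
    Finset.sum_nonneg fun A hA => mul_nonneg (hF A hA) (Real.exp_pos _).le
  calc _ ≤ _ := h1
    _ = Real.exp (-(Real.log T / Real.log z)) *
        (∑ A ∈ P.powerset, F A * Real.exp (Real.log (rr A) / Real.log z)) ^ Fintype.card ι := by
        rw [← Finset.mul_sum]
        congr 1
        exact sum_fam_prod P (fun A => F A * Real.exp (Real.log (rr A) / Real.log z))
    _ ≤ Real.exp (-(Real.log T / Real.log z)) *
        (S * Real.exp (2 * (σ / Real.log z))) ^ Fintype.card ι :=
        mul_le_mul_of_nonneg_left (pow_le_pow_left₀ h20 h2 _) (Real.exp_pos _).le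
    _ = _ := by
        rw [mul_pow, ← Real.exp_nat_mul, Real.exp_add]
        have : (Fintype.card ι : ℝ) * (2 * (σ / Real.log z)) =
            2 * (Fintype.card ι * σ / Real.log z) := by ring
        rw [this]
        ring

end Pool.Agent.LibRG87
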