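import Pool.Agent.LibRG87.R5

/-!
Row R6: the collapsed coefficient `cc β = ∑_{A ⊆ P \ sp β, rr A rr(sp β) ≤ T} f(A)/ph(A)`.
`cc ≤ 1`: the term `A = ∅` is at most 1, the others are `≤ 0`. `cc ≥ 0` if `rr (sp β) ≤ T`: the term `A = ∅` is
`1`, the others are bounded below by the sum over all nonempty `A ⊆ P`, which is `-1` (`sum_ff`).
`cc = 0` if `T < rr (sp β)` (`rr A ≥ 1`, empty sum). If `rr (sp β) * z ≤ T` the condition `rr A * rr (sp β) ≤ T`
holds whenever `f(A) ≠ 0`, so `cc = 0 - ∑_{A ∩ sp β ≠ ∅} f(A)/ph(A) ≤ ∑_{p ∈ sp β} ∑_{A ∋ p} |f(A)|/ph(A)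
≤ ∑_{p ∈ sp β} 2/(p-1) ≤ 2 card (sp β)/(w - 1)` (`sum_ff_mem`).
-/

open Finset

namespace Pool.Agent.LibRG87

variable {ι : Type} [Fintype ι] [DecidableEq ι] (P : Finset ℕ)
theorem R6_ph_pos (hP : ∀ p ∈ P, Nat.Prime p) {A : Finset ℕ} (hA : A ⊆ P) : 0 < ph A := by
  unfold ph
  refine Finset.prod_pos fun p hp => ?_
  have h1 : (2 : ℝ) ≤ p := by exact_mod_cast (hP p (hA hp)).two_le
  linarith

theorem R6_one_le_rr (hP : ∀ p ∈ P, Nat.Prime p) {A : Finset ℕ} (hA : A ⊆ P) : 1 ≤ rr A := by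
  have h1 : ∏ p ∈ A, (1 : ℝ) ≤ rr A := by
    unfold rr
    refine Finset.prod_le_prod (fun _ _ => zero_le_one) fun p hp => ?_
    exact_mod_cast (hP p (hA hp)).one_le
  simpa using h1

theorem R6_sp_sub (β : P → Option ι) : sp P β ⊆ P := by
  intro p hp
  unfold sp at hp
  rw [Finset.mem_image] at hp
  obtain ⟨q, -, rfl⟩ := hp
  exact q.2

theorem R6_term_empty (z : ℝ) : ff P z ∅ / ph ∅ = 1 := by
  rw [ff_empty]
  simp [ph]

theorem R6_term_nonpos (hP : ∀ p ∈ P, Nat.Prime p) {w z : ℝ} (hw : 1 < w) (hPw : ∀ p ∈ P, w < p)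
    (hZ : 1 ≤ ZZ P z * Real.log w) {A : Finset ℕ} (hA : A ⊆ P) (hA0 : A ≠ ∅) :
    ff P z A / ph A ≤ 0 :=
  div_nonpos_of_nonpos_of_nonneg (ff_nonpos P hP hw hPw hZ hA hA0) (R6_ph_pos P hP hA).le

theorem cc_le_one (hP : ∀ p ∈ P, Nat.Prime p) {w z T : ℝ} (hw : 1 < w) (hPw : ∀ p ∈ P, w < p)
    (hZ : 1 ≤ ZZ P z * Real.log w) (β : P → Option ι) : cc P z T β ≤ 1 := by
  classical
  unfold cc
  have h1 : ∀ A ∈ ((P \ sp P β).powerset).filter (fun A => rr A * rr (sp P β) ≤ T),
      ff P z A / ph A ≤ if A = ∅ then (1 : ℝ) else 0 := by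
    intro A hA
    rw [Finset.mem_filter, Finset.mem_powerset] at hA
    have hAP : A ⊆ P := hA.1.trans Finset.sdiff_subset
    split_ifs with h
    · rw [h, R6_term_empty]
    · exact R6_term_nonpos P hP hw hPw hZ hAP h
  refine (Finset.sum_le_sum h1).trans ?_
  rw [Finset.sum_ite_eq']
  split_ifs <;> norm_num

theorem cc_eq_zero (hP : ∀ p ∈ P, Nat.Prime p) {z T : ℝ} (β : P → Option ι)
    (h : T < rr (sp P β)) : cc P z T β = 0 := by
  classical
  unfold cc
  refine Finset.sum_eq_zero fun A hA => ?_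
  exfalso
  rw [Finset.mem_filter, Finset.mem_powerset] at hA
  have hAP : A ⊆ P := hA.1.trans Finset.sdiff_subset
  have h1 := R6_one_le_rr P hP hAP
  have h2 := R6_one_le_rr P hP (R6_sp_sub P β)
  have h3 := hA.2
  nlinarith

theorem cc_nonneg (hP : ∀ p ∈ P, Nat.Prime p) {w z T : ℝ} (hw : 1 < w) (hPw : ∀ p ∈ P, w < p)
    (hZ : 1 ≤ ZZ P z * Real.log w) (β : P → Option ι) : 0 ≤ cc P z T β := by
  classical
  by_cases hT : T < rr (sp P β)
  · exact (cc_eq_zero P hP β hT).ge
  unfold cc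
  have h0 := sum_ff P hP hw hPw hZ
  have h1 : ∑ A ∈ ((P \ sp P β).powerset).filter (fun A => rr A * rr (sp P β) ≤ T),
      -(ff P z A / ph A) ≤ ∑ A ∈ P.powerset, -(ff P z A / ph A) := by
    refine Finset.sum_le_sum_of_subset_of_nonneg ?_ ?_
    · intro A hA
      rw [Finset.mem_filter, Finset.mem_powerset] at hA
      rw [Finset.mem_powerset]
      exact hA.1.trans Finset.sdiff_subset
    · intro A hA hA'
      rw [Finset.mem_powerset] at hA
      have hA0 : A ≠ ∅ := by
        rintro rfl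
        apply hA'
        rw [Finset.mem_filter, Finset.mem_powerset]
        refine ⟨Finset.empty_subset _, ?_⟩
        simp only [rr, Finset.prod_empty, one_mul]
        exact not_lt.1 hT
      have := R6_term_nonpos P hP hw hPw hZ hA hA0
      linarith
  rw [Finset.sum_neg_distrib, Finset.sum_neg_distrib, h0] at h1
  linarith

theorem cc_small (hP : ∀ p ∈ P, Nat.Prime p) {w z T : ℝ} (hw : 1 < w) (hPw : ∀ p ∈ P, w < p)
    (hZ : 1 ≤ ZZ P z * Real.log w) (β : P → Option ι) (h : rr (sp P β) * z ≤ T) (hz : 1 < z) :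
    cc P z T β ≤ 2 * (sp P β).card / (w - 1) := by
  classical
  have hspP := R6_sp_sub P β
  have hsp1 := R6_one_le_rr P hP hspP
  have hcc : cc P z T β = ∑ A ∈ (P \ sp P β).powerset, ff P z A / ph A := by
    unfold cc
    refine Finset.sum_filter_of_ne fun A hA hne => ?_
    have hff : ff P z A ≠ 0 := by
      intro h0
      rw [h0, zero_div] at hne
      exact hne rfl
    have hrr : rr A ≤ z := by
      by_cases hA0 : A = ∅
      · rw [hA0]
        simp only [rr, Finset.prod_empty]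
        exact hz.le
      · exact ff_le_rr P hA0 hff
    have h1 : rr A * rr (sp P β) ≤ z * rr (sp P β) :=
      mul_le_mul_of_nonneg_right hrr (by linarith)
    linarith [mul_comm z (rr (sp P β))]
  have h0 := sum_ff P hP hw hPw hZ
  have hsub : (P \ sp P β).powerset ⊆ P.powerset :=
    Finset.powerset_mono.2 Finset.sdiff_subset
  rw [← Finset.sum_sdiff hsub] at h0
  have h1 : cc P z T β =
      ∑ A ∈ P.powerset \ (P \ sp P β).powerset, -(ff P z A / ph A) := by
    rw [hcc, Finset.sum_neg_distrib]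
    linarith
  rw [h1]
  have h2 : ∀ A ∈ P.powerset \ (P \ sp P β).powerset, -(ff P z A / ph A) ≤
      ∑ p ∈ sp P β, if p ∈ A then |ff P z A| / ph A else 0 := by
    intro A hA
    rw [Finset.mem_sdiff, Finset.mem_powerset, Finset.mem_powerset] at hA
    obtain ⟨hAP, hA2⟩ := hA
    have hpos := R6_ph_pos P hP hAP
    obtain ⟨p, hpA, hps⟩ : ∃ p ∈ A, p ∈ sp P β := by
      by_contra hcon
      push Not at hcon
      apply hA2
      intro p hp
      rw [Finset.mem_sdiff]
      exact ⟨hAP hp, hcon p hp⟩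
    have h3 : (if p ∈ A then |ff P z A| / ph A else 0) ≤
        ∑ p ∈ sp P β, if p ∈ A then |ff P z A| / ph A else 0 := by
      refine Finset.single_le_sum (f := fun p => if p ∈ A then |ff P z A| / ph A else 0)
        (fun q _ => ?_) hps
      change 0 ≤ if q ∈ A then |ff P z A| / ph A else 0
      split_ifs
      · positivity
      · exact le_rfl
    rw [if_pos hpA] at h3
    refine le_trans ?_ h3
    rw [← neg_div]
    exact div_le_div_of_nonneg_right (neg_le_abs _) hpos.le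
  refine (Finset.sum_le_sum h2).trans ?_
  have h4 : ∑ A ∈ P.powerset \ (P \ sp P β).powerset,
      ∑ p ∈ sp P β, (if p ∈ A then |ff P z A| / ph A else 0) ≤
      ∑ A ∈ P.powerset, ∑ p ∈ sp P β, (if p ∈ A then |ff P z A| / ph A else 0) := by
    refine Finset.sum_le_sum_of_subset_of_nonneg Finset.sdiff_subset fun A hA _ => ?_
    rw [Finset.mem_powerset] at hA
    have hpos := R6_ph_pos P hP hA
    refine Finset.sum_nonneg fun p _ => ?_
    split_ifs
    · positivity
    · exact le_rfl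
  refine h4.trans ?_
  rw [Finset.sum_comm]
  have h5 : ∀ p ∈ sp P β, ∑ A ∈ P.powerset, (if p ∈ A then |ff P z A| / ph A else 0) ≤
      2 / (w - 1) := by
    intro p hp
    rw [← Finset.sum_filter]
    have h6 := sum_ff_mem P hP hw hPw hZ (hspP hp)
    have h7 : 2 / ((p : ℝ) - 1) ≤ 2 / (w - 1) :=
      div_le_div_of_nonneg_left (by norm_num) (by linarith) (by linarith [hPw p (hspP hp)])
    refine le_trans (le_of_eq ?_) (h6.trans h7)
    congr 1
  refine (Finset.sum_le_sum h5).trans ?_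
  rw [Finset.sum_const, nsmul_eq_mul]
  apply le_of_eq
  ring

end Pool.Agent.LibRG87
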