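import Pool.Agent.LibRG87.R0

/-!
Row R7: Schur test for the Gram matrix `KK β β' = ∏_p gg p (β p) (β' p)`.
`KK β β = 1 / ph (sp β)`. Row sums: `∑_β' |KK β β'| = ∏_p ∑_o |gg p (β p) o|` (`Finset.prod_univ_sum`,
`Fintype.piFinset_univ`), the factor is `1` if `β p = none` and `1/(p-1) + (N-1)/(p-1)^2 ≤ (1/(p-1)) (1 + N/(p-1))`
if `β p = some i`; so the row sum is at most `(1/ph(sp β)) ∏_{p ∈ sp β} (1 + N/(p-1)) ≤ (1+δ)/ph(sp β)` when `y β ≠ 0`.
`|∑_{β ≠ β'} y β y β' KK| ≤ ∑_{β ≠ β'} (y β^2 + y β'^2)/2 |KK| = ∑_β y β^2 (row sum - 1/ph)` (`gg` is symmetric; the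
terms with `y β = 0` are dropped first). `DD` is the diagonal part.
-/

open Finset

namespace Pool.Agent.LibRG87

variable {ι : Type} [Fintype ι] [DecidableEq ι] (P : Finset ℕ)
private theorem R7_prod_sp (h : ℕ → ℝ) (β : P → Option ι) :
    ∏ p ∈ sp P β, h p = ∏ p : P, if β p ≠ none then h p else 1 := by
  unfold sp
  rw [Finset.prod_image (fun a _ b _ hab => Subtype.val_injective hab), Finset.prod_filter]

private theorem R7_gg_symm (p : ℕ) (o o' : Option ι) : gg p o o' = gg p o' o := by
  cases o with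
  | none =>
    cases o' with
    | none => rfl
    | some j => rfl
  | some i =>
    cases o' with
    | none => rfl
    | some j =>
      simp only [gg, eq_comm (a := i) (b := j)]

private theorem R7_KK_symm (β β' : P → Option ι) : KK P β β' = KK P β' β := by
  unfold KK
  exact Finset.prod_congr rfl fun p _ => R7_gg_symm _ _ _

private theorem R7_KK_diag (β : P → Option ι) : KK P β β = 1 / ph (sp P β) := by
  unfold KK ph
  rw [R7_prod_sp, one_div, ← Finset.prod_inv_distrib]
  refine Finset.prod_congr rfl fun p _ => ?_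
  cases hβ : β p with
  | none => simp [gg]
  | some i => simp [gg]

private theorem R7_row (hP3 : ∀ p ∈ P, 3 ≤ p) (β : P → Option ι) :
    ∑ β', |KK P β β'| ≤
      (1 / ph (sp P β)) * ∏ p ∈ sp P β, (1 + (Fintype.card ι : ℝ) / ((p : ℝ) - 1)) := by
  have h1 : ∑ β', |KK P β β'| = ∏ p : P, ∑ o : Option ι, |gg (p : ℕ) (β p) o| := by
    rw [Finset.prod_univ_sum, Fintype.piFinset_univ]
    refine Finset.sum_congr rfl fun β' _ => ?_
    unfold KK
    rw [Finset.abs_prod]
  have h2 : (1 / ph (sp P β)) * ∏ p ∈ sp P β, (1 + (Fintype.card ι : ℝ) / ((p : ℝ) - 1)) =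
      ∏ p : P, if β p ≠ none then
        (1 / (((p : ℕ) : ℝ) - 1)) * (1 + (Fintype.card ι : ℝ) / (((p : ℕ) : ℝ) - 1)) else 1 := by
    rw [← R7_prod_sp P (fun p => (1 / ((p : ℝ) - 1)) * (1 + (Fintype.card ι : ℝ) / ((p : ℝ) - 1))) β,
      Finset.prod_mul_distrib]
    unfold ph
    rw [one_div, ← Finset.prod_inv_distrib]
    simp only [one_div]
  rw [h1, h2]
  refine Finset.prod_le_prod (fun p _ => Finset.sum_nonneg fun _ _ => abs_nonneg _) fun p _ => ?_
  have hp : (3 : ℝ) ≤ ((p : ℕ) : ℝ) := by exact_mod_cast hP3 p.1 p.2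
  have hp1 : (0 : ℝ) < ((p : ℕ) : ℝ) - 1 := by linarith
  cases hβ : β p with
  | none =>
    rw [Fintype.sum_option]
    simp [gg]
  | some i =>
    rw [Fintype.sum_option]
    have h3 : |gg (p : ℕ) (some i) none| = 0 := by simp [gg]
    rw [h3, zero_add, if_pos (by simp)]
    have ha : (0 : ℝ) ≤ 1 / (((p : ℕ) : ℝ) - 1) := by positivity
    have hb : (0 : ℝ) ≤ 1 / (((p : ℕ) : ℝ) - 1) ^ 2 := by positivity
    calc ∑ j : ι, |gg (p : ℕ) (some i) (some j)|
        ≤ ∑ j : ι, ((if i = j then 1 / (((p : ℕ) : ℝ) - 1) else 0) +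
            1 / (((p : ℕ) : ℝ) - 1) ^ 2) := by
          refine Finset.sum_le_sum fun j _ => ?_
          simp only [gg]
          split_ifs with hij
          · rw [abs_of_nonneg ha]
            linarith
          · rw [abs_neg, abs_of_nonneg hb]
            linarith
      _ = 1 / (((p : ℕ) : ℝ) - 1) + (Fintype.card ι : ℝ) * (1 / (((p : ℕ) : ℝ) - 1) ^ 2) := by
          rw [Finset.sum_add_distrib, Finset.sum_ite_eq, if_pos (Finset.mem_univ _),
            Finset.sum_const, Finset.card_univ, nsmul_eq_mul]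
      _ = (1 / (((p : ℕ) : ℝ) - 1)) * (1 + (Fintype.card ι : ℝ) / (((p : ℕ) : ℝ) - 1)) := by
          field_simp

theorem schur (hP : ∀ p ∈ P, Nat.Prime p) (hP3 : ∀ p ∈ P, 3 ≤ p) (y : (P → Option ι) → ℝ) {δ : ℝ}
    (hδ : ∀ β, y β ≠ 0 → ∏ p ∈ sp P β, (1 + (Fintype.card ι : ℝ) / ((p : ℝ) - 1)) ≤ 1 + δ) :
    |QQ P y - DD P y| ≤ δ * DD P y := by
  classical
  have hph : ∀ β : P → Option ι, 0 < ph (sp P β) := fun β => ph_pos P hP (sp_subset P β)
  let a : (P → Option ι) → (P → Option ι) → ℝ := fun β β' => if β = β' then 0 else |KK P β β'|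
  have ha0 : ∀ β β', 0 ≤ a β β' := fun β β' => by
    change 0 ≤ if β = β' then 0 else |KK P β β'|
    split_ifs
    · exact le_rfl
    · exact abs_nonneg _
  have hasymm : ∀ β β', a β β' = a β' β := fun β β' => by
    change (if β = β' then 0 else |KK P β β'|) = if β' = β then 0 else |KK P β' β|
    rw [R7_KK_symm P β β']
    by_cases h : β = β'
    · rw [if_pos h, if_pos h.symm]
    · rw [if_neg h, if_neg (fun h' => h h'.symm)]
  -- the difference
  have hdiff : QQ P y - DD P y =
      ∑ β, ∑ β', (if β = β' then 0 else y β * y β' * KK P β β') := by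
    have h1 : ∀ β, ∑ β', y β * y β' * KK P β β' =
        ∑ β', (if β = β' then 0 else y β * y β' * KK P β β') + y β ^ 2 / ph (sp P β) := by
      intro β
      have h2 : ∀ β', y β * y β' * KK P β β' = (if β = β' then 0 else y β * y β' * KK P β β') +
          if β = β' then y β * y β' * KK P β β' else 0 := by
        intro β'
        by_cases h : β = β'
        · rw [if_pos h, if_pos h, zero_add]
        · rw [if_neg h, if_neg h, add_zero]
      rw [Finset.sum_congr rfl fun β' _ => h2 β', Finset.sum_add_distrib, Finset.sum_ite_eq,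
        if_pos (Finset.mem_univ _), R7_KK_diag]
      ring
    unfold QQ DD
    rw [Finset.sum_congr rfl fun β _ => h1 β, Finset.sum_add_distrib, add_sub_cancel_right]
  have hrow : ∀ β, y β ^ 2 * ∑ β', a β β' ≤ δ * (y β ^ 2 / ph (sp P β)) := by
    intro β
    by_cases hy : y β = 0
    · rw [hy]
      simp
    · have h1 : ∑ β', |KK P β β'| = ∑ β', a β β' + 1 / ph (sp P β) := by
        have h2 : ∀ β', |KK P β β'| = a β β' + if β = β' then |KK P β β'| else 0 := by
          intro β'
          change _ = (if β = β' then 0 else |KK P β β'|) + _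
          by_cases h : β = β'
          · rw [if_pos h, if_pos h, zero_add]
          · rw [if_neg h, if_neg h, add_zero]
        rw [Finset.sum_congr rfl fun β' _ => h2 β', Finset.sum_add_distrib, Finset.sum_ite_eq,
          if_pos (Finset.mem_univ _), R7_KK_diag, abs_of_pos (one_div_pos.2 (hph β))]
      have h3 := R7_row P hP3 β
      have h4 : (1 / ph (sp P β)) * ∏ p ∈ sp P β, (1 + (Fintype.card ι : ℝ) / ((p : ℝ) - 1)) ≤
          (1 / ph (sp P β)) * (1 + δ) :=
        mul_le_mul_of_nonneg_left (hδ β hy) (one_div_pos.2 (hph β)).le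
      have h5 : ∑ β', a β β' ≤ δ * (1 / ph (sp P β)) := by
        have : (1 / ph (sp P β)) * (1 + δ) = 1 / ph (sp P β) + δ * (1 / ph (sp P β)) := by ring
        linarith
      calc y β ^ 2 * ∑ β', a β β' ≤ y β ^ 2 * (δ * (1 / ph (sp P β))) :=
            mul_le_mul_of_nonneg_left h5 (sq_nonneg _)
        _ = δ * (y β ^ 2 / ph (sp P β)) := by ring
  rw [hdiff]
  have hhalf : ∑ β, ∑ β', y β' ^ 2 * a β β' = ∑ β, ∑ β', y β ^ 2 * a β β' := by
    rw [Finset.sum_comm]
    refine Finset.sum_congr rfl fun β _ => Finset.sum_congr rfl fun β' _ => ?_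
    rw [hasymm]
  calc |∑ β, ∑ β', (if β = β' then 0 else y β * y β' * KK P β β')|
      ≤ ∑ β, ∑ β', |if β = β' then 0 else y β * y β' * KK P β β'| :=
        (Finset.abs_sum_le_sum_abs _ _).trans
          (Finset.sum_le_sum fun β _ => Finset.abs_sum_le_sum_abs _ _)
    _ ≤ ∑ β, ∑ β', ((1 / 2) * (y β ^ 2 * a β β') + (1 / 2) * (y β' ^ 2 * a β β')) := by
        refine Finset.sum_le_sum fun β _ => Finset.sum_le_sum fun β' _ => ?_
        by_cases h : β = β'
        · rw [if_pos h, abs_zero]
          have h1 := mul_nonneg (sq_nonneg (y β)) (ha0 β β')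
          have h2 := mul_nonneg (sq_nonneg (y β')) (ha0 β β')
          linarith
        · rw [if_neg h, abs_mul, abs_mul]
          have h1 : a β β' = |KK P β β'| := if_neg h
          rw [h1]
          have h2 : |y β| * |y β'| ≤ (1 / 2) * y β ^ 2 + (1 / 2) * y β' ^ 2 := by
            have := sq_nonneg (|y β| - |y β'|)
            rw [sub_sq, sq_abs, sq_abs] at this
            linarith
          have h3 := mul_le_mul_of_nonneg_right h2 (abs_nonneg (KK P β β'))
          linarith
    _ = ∑ β, y β ^ 2 * ∑ β', a β β' := by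
        simp only [Finset.sum_add_distrib, ← Finset.mul_sum]
        simp only [Finset.mul_sum] at hhalf ⊢
        rw [← Finset.sum_add_distrib]
        have h1 : ∑ β, ∑ β', (1 / 2 : ℝ) * (y β' ^ 2 * a β β') =
            ∑ β, ∑ β', (1 / 2 : ℝ) * (y β ^ 2 * a β β') := by
          simp only [← Finset.mul_sum]
          rw [show ∑ β, ∑ β', y β' ^ 2 * a β β' = ∑ β, y β ^ 2 * ∑ β', a β β' by
            rw [hhalf]
            simp only [Finset.mul_sum]]
        rw [Finset.sum_add_distrib, h1, ← Finset.sum_add_distrib]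
        refine Finset.sum_congr rfl fun β _ => ?_
        rw [← Finset.sum_add_distrib]
        refine Finset.sum_congr rfl fun β' _ => ?_
        ring
    _ ≤ ∑ β, δ * (y β ^ 2 / ph (sp P β)) := Finset.sum_le_sum fun β _ => hrow β
    _ = δ * DD P y := by
        unfold DD
        rw [Finset.mul_sum]

end Pool.Agent.LibRG87
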