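import Pool.Agent.LibRG87.Defs

/-!
Row R8a: averages of products of periodic functions over an arithmetic progression. `q = ∏_{p ∈ S} p`.
(1) over a full period: `∑_{k < q} ∏_{p ∈ S} g p (n₀ + W k) = ∏_{p ∈ S} ∑_{c < p} g p c`: induction on `S`: for a new prime
`p`, `k = k' + q' j`, `k' < q'`, `j < p`: the factors of `S'` do not depend on `j` and
`j ↦ n₀ + W k' + W q' j` runs through all classes mod `p` (`W q'` is prime to `p`). Every `g p` depends only on
`n % p`.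
(2) the function `F k` is `q`-periodic with `|F| ≤ 1`; `K = q t + s`, `s < q`, so
`|∑_{k<K} F - K mean| ≤ 2 s ≤ 2 q`.
-/

open Finset

namespace Pool.Agent.LibRG87

theorem R8a_mod (a : ℕ) (H : ℕ → ℝ) (hH : ∀ n, H (n + a) = H n) (n : ℕ) : H (n % a) = H n := by
  have h : ∀ t n, H (n + a * t) = H n := by
    intro t
    induction t with
    | zero => intro n; simp
    | succ t ih =>
      intro n
      rw [Nat.mul_succ, ← Nat.add_assoc, hH, ih]
  conv_rhs => rw [← Nat.mod_add_div n a]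
  rw [h]

theorem R8a_crt (a b : ℕ) (ha : 0 < a) (hb : 0 < b) (hab : Nat.Coprime a b) (H₁ H₂ : ℕ → ℝ)
    (h₁ : ∀ n, H₁ (n + a) = H₁ n) (h₂ : ∀ n, H₂ (n + b) = H₂ n) :
    ∑ k ∈ range (a * b), H₁ k * H₂ k = (∑ k ∈ range a, H₁ k) * ∑ k ∈ range b, H₂ k := by
  rw [Finset.sum_mul_sum, ← Finset.sum_product']
  have hmaps : Set.MapsTo (fun k : ℕ => (k % a, k % b)) (range (a * b) : Set ℕ)
      ((range a ×ˢ range b : Finset (ℕ × ℕ)) : Set (ℕ × ℕ)) := by
    intro k _
    simp only [coe_product, coe_range, Set.mem_prod, Set.mem_Iio]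
    exact ⟨Nat.mod_lt _ ha, Nat.mod_lt _ hb⟩
  have hinj : Set.InjOn (fun k : ℕ => (k % a, k % b)) (range (a * b) : Set ℕ) := by
    intro k hk l hl hkl
    simp only [coe_range, Set.mem_Iio] at hk hl
    simp only [Prod.mk.injEq] at hkl
    have h := (Nat.modEq_and_modEq_iff_modEq_mul hab).1 ⟨hkl.1, hkl.2⟩
    have h' : k % (a * b) = l % (a * b) := h
    rwa [Nat.mod_eq_of_lt hk, Nat.mod_eq_of_lt hl] at h'
  refine Finset.sum_nbij (fun k => (k % a, k % b)) (fun k hk => ?_) hinj ?_ ?_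
  · exact hmaps (by simpa using hk)
  · exact Finset.surjOn_of_injOn_of_card_le _ hmaps hinj (by simp)
  · intro k _
    simp only
    rw [R8a_mod a H₁ h₁, R8a_mod b H₂ h₂]

theorem R8a_lin (p : ℕ) (hp : 0 < p) (G : ℕ → ℝ) (hG : ∀ n, G (n + p) = G n) (W n₀ : ℕ)
    (hW : Nat.Coprime p W) :
    ∑ k ∈ range p, G (n₀ + W * k) = ∑ c ∈ range p, G c := by
  have hmaps : Set.MapsTo (fun k : ℕ => (n₀ + W * k) % p) (range p : Set ℕ) (range p : Set ℕ) := by
    intro k _
    simp only [coe_range, Set.mem_Iio]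
    exact Nat.mod_lt _ hp
  have hinj : Set.InjOn (fun k : ℕ => (n₀ + W * k) % p) (range p : Set ℕ) := by
    intro k hk l hl hkl
    simp only [coe_range, Set.mem_Iio] at hk hl
    have h : n₀ + W * k ≡ n₀ + W * l [MOD p] := hkl
    have h2 : W * k ≡ W * l [MOD p] := Nat.ModEq.add_left_cancel' n₀ h
    have h3 : k ≡ l [MOD p] := Nat.ModEq.cancel_left_of_coprime hW h2
    have h' : k % p = l % p := h3
    rwa [Nat.mod_eq_of_lt hk, Nat.mod_eq_of_lt hl] at h'
  refine Finset.sum_nbij (fun k => (n₀ + W * k) % p) (fun k hk => ?_) hinj ?_ ?_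
  · exact hmaps (by simpa using hk)
  · exact Finset.surjOn_of_injOn_of_card_le _ hmaps hinj le_rfl
  · intro k _
    rw [R8a_mod p G hG]

theorem R8a_shift (p : ℕ) (G : ℕ → ℝ) (hG : ∀ n, G (n + p) = G n) (t n : ℕ) :
    G (n + t * p) = G n := by
  rw [← R8a_mod p G hG (n + t * p), Nat.add_mul_mod_self_right, R8a_mod p G hG]

theorem R8a_per (S : Finset ℕ) (g : ℕ → ℕ → ℝ) (hper : ∀ p ∈ S, ∀ n, g p (n + p) = g p n)
    (W n₀ k : ℕ) :
    ∏ p ∈ S, g p (n₀ + W * (k + ∏ p ∈ S, p)) = ∏ p ∈ S, g p (n₀ + W * k) := by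
  refine Finset.prod_congr rfl fun p hp => ?_
  obtain ⟨c, hc⟩ := Finset.dvd_prod_of_mem (fun p : ℕ => p) hp
  have : n₀ + W * (k + ∏ p ∈ S, p) = (n₀ + W * k) + (W * c) * p := by
    have hc' : ∏ p ∈ S, p = p * c := hc
    rw [hc']; ring
  rw [this, R8a_shift p (g p) (hper p hp)]

theorem R8a_full (S : Finset ℕ) (hS : ∀ p ∈ S, Nat.Prime p) (g : ℕ → ℕ → ℝ)
    (hper : ∀ p ∈ S, ∀ n, g p (n + p) = g p n) (W n₀ : ℕ)
    (hW : ∀ p ∈ S, Nat.Coprime p W) :
    ∑ k ∈ range (∏ p ∈ S, p), ∏ p ∈ S, g p (n₀ + W * k) = ∏ p ∈ S, ∑ c ∈ range p, g p c := by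
  induction S using Finset.induction_on with
  | empty => simp
  | insert p S hpS ih =>
    have hS' : ∀ q ∈ S, Nat.Prime q := fun q hq => hS q (Finset.mem_insert_of_mem hq)
    have hper' : ∀ q ∈ S, ∀ n, g q (n + q) = g q n :=
      fun q hq => hper q (Finset.mem_insert_of_mem hq)
    have hW' : ∀ q ∈ S, Nat.Coprime q W := fun q hq => hW q (Finset.mem_insert_of_mem hq)
    have hp := hS p (Finset.mem_insert_self _ _)
    have hpp := hper p (Finset.mem_insert_self _ _)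
    have hpos : 0 < ∏ q ∈ S, q := Finset.prod_pos fun q hq => (hS' q hq).pos
    have hcop : Nat.Coprime p (∏ q ∈ S, q) := by
      refine Nat.Coprime.prod_right fun q hq => ?_
      refine (Nat.coprime_primes hp (hS' q hq)).2 ?_
      rintro rfl
      exact hpS hq
    rw [Finset.prod_insert hpS, Finset.prod_insert hpS]
    have h1 : ∀ k, ∏ q ∈ insert p S, g q (n₀ + W * k) =
        g p (n₀ + W * k) * ∏ q ∈ S, g q (n₀ + W * k) := fun k => Finset.prod_insert hpS
    simp only [h1]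
    rw [R8a_crt p (∏ q ∈ S, q) hp.pos hpos hcop (fun k => g p (n₀ + W * k))
      (fun k => ∏ q ∈ S, g q (n₀ + W * k)) ?_ ?_, ih hS' hper' hW',
      R8a_lin p hp.pos (g p) hpp W n₀ (hW p (Finset.mem_insert_self _ _))]
    · intro n
      have : n₀ + W * (n + p) = (n₀ + W * n) + W * p := by ring
      rw [this, R8a_shift p (g p) hpp]
    · intro n
      exact R8a_per S g hper' W n₀ n

theorem R8a_mult (q : ℕ) (F : ℕ → ℝ) (hF : ∀ n, F (n + q) = F n) (t s : ℕ) :
    ∑ k ∈ range (t * q + s), F k = t * ∑ k ∈ range q, F k + ∑ k ∈ range s, F k := by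
  induction t with
  | zero => simp
  | succ t ih =>
    have h : (t + 1) * q + s = q + (t * q + s) := by ring
    rw [h, Finset.sum_range_add]
    have : ∀ k, F (q + k) = F k := fun k => by rw [Nat.add_comm, hF]
    simp only [this]
    rw [ih]
    push_cast
    ring

theorem R8a_avg (q : ℕ) (hq : 0 < q) (F : ℕ → ℝ) (hF : ∀ n, F (n + q) = F n)
    (hle : ∀ n, |F n| ≤ 1) (K : ℕ) (hK : 0 < K) :
    |(∑ k ∈ range K, F k) / (K : ℝ) - (∑ k ∈ range q, F k) / (q : ℝ)| ≤ 2 * q / K := by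
  have hq' : (0 : ℝ) < q := by exact_mod_cast hq
  have hK' : (0 : ℝ) < K := by exact_mod_cast hK
  have hb : ∀ m : ℕ, |∑ k ∈ range m, F k| ≤ m := by
    intro m
    refine (Finset.abs_sum_le_sum_abs _ _).trans ?_
    refine (Finset.sum_le_sum fun k _ => hle k).trans ?_
    simp
  set s := K % q with hs
  set t := K / q with ht
  have hKe : K = t * q + s := by rw [hs, ht]; exact (Nat.div_add_mod' K q).symm
  have hKr : (K : ℝ) = t * q + s := by exact_mod_cast hKe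
  have hsq : s ≤ q := (Nat.mod_lt K hq).le
  have hsq' : (s : ℝ) ≤ q := by exact_mod_cast hsq
  have hsum : ∑ k ∈ range K, F k = t * ∑ k ∈ range q, F k + ∑ k ∈ range s, F k := by
    conv_lhs => rw [hKe]
    exact R8a_mult q F hF t s
  have key : (∑ k ∈ range K, F k) / (K : ℝ) - (∑ k ∈ range q, F k) / (q : ℝ) =
      ((∑ k ∈ range s, F k) - s / q * ∑ k ∈ range q, F k) / K := by
    rw [hsum]
    field_simp
    rw [hKr]
    ring
  rw [key, abs_div, abs_of_pos hK']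
  refine div_le_div_of_nonneg_right ?_ hK'.le
  refine (abs_sub _ _).trans ?_
  have h1 := hb s
  have h2 : |(s : ℝ) / q * ∑ k ∈ range q, F k| ≤ s := by
    rw [abs_mul, abs_of_nonneg (by positivity : (0 : ℝ) ≤ s / q)]
    calc (s : ℝ) / q * |∑ k ∈ range q, F k| ≤ s / q * q :=
          mul_le_mul_of_nonneg_left (hb q) (by positivity)
      _ = s := by field_simp
  linarith

theorem avg_prod (S : Finset ℕ) (hS : ∀ p ∈ S, Nat.Prime p) (g : ℕ → ℕ → ℝ)
    (hper : ∀ p ∈ S, ∀ n, g p (n + p) = g p n) (hle : ∀ p ∈ S, ∀ n, |g p n| ≤ 1) (W n₀ K : ℕ)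
    (hW : ∀ p ∈ S, Nat.Coprime p W) (hK : 0 < K) :
    |(∑ k ∈ range K, ∏ p ∈ S, g p (n₀ + W * k)) / (K : ℝ) -
        ∏ p ∈ S, ((∑ c ∈ range p, g p c) / (p : ℝ))| ≤ 2 * rr S / K := by
  have hq : 0 < ∏ p ∈ S, p := Finset.prod_pos fun q hq => (hS q hq).pos
  have hrr : rr S = ((∏ p ∈ S, p : ℕ) : ℝ) := by
    unfold rr
    push_cast
    rfl
  have hmean : ∏ p ∈ S, ((∑ c ∈ range p, g p c) / (p : ℝ)) =
      (∑ k ∈ range (∏ p ∈ S, p), ∏ p ∈ S, g p (n₀ + W * k)) / ((∏ p ∈ S, p : ℕ) : ℝ) := by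
    rw [R8a_full S hS g hper W n₀ hW, Finset.prod_div_distrib]
    push_cast
    rfl
  rw [hmean, hrr]
  refine R8a_avg _ hq (fun k => ∏ p ∈ S, g p (n₀ + W * k)) (fun n => R8a_per S g hper W n₀ n)
    (fun n => ?_) K hK
  rw [Finset.abs_prod]
  exact Finset.prod_le_one (fun p _ => abs_nonneg _) fun p hp => hle p hp _

end Pool.Agent.LibRG87
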