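import Pool.Agent.LibRG87.R0
import Pool.Agent.LibRG87.R8a
import Pool.Agent.LibRG87.R8b

/-!
Row R8c: the average of `ee β * ee β'`. With `S = sp β ∪ sp β'` and `g p n = loc b p (β p) n * loc b p (β' p) n`
(extend `β` by `none` outside `P`), `ee β n * ee β' n = ∏_{p ∈ S} g p n` (the other factors are 1) and
`KK β β' = ∏_{p ∈ S} mean (g p)` (`loc_avg`; the other factors are `gg p none none = 1`). Then `avg_prod` and
`rr (S) ≤ rr (sp β) * rr (sp β')`.
-/

open Finset

namespace Pool.Agent.LibRG87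

variable {ι : Type} [Fintype ι] [DecidableEq ι] (P : Finset ℕ)

/-- extension of `β` by `none` -/
def r8c_ext (β : P → Option ι) (p : ℕ) : Option ι := if h : p ∈ P then β ⟨p, h⟩ else none

omit [Fintype ι] [DecidableEq ι] in
theorem r8c_ext_coe (β : P → Option ι) (p : P) : r8c_ext P β (p : ℕ) = β p := by
  unfold r8c_ext
  rw [dif_pos p.2]

omit [Fintype ι] [DecidableEq ι] in
theorem r8c_ext_none {β : P → Option ι} {p : ℕ} (hp : p ∈ P) (h : p ∉ sp P β) :
    r8c_ext P β p = none := by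
  unfold r8c_ext
  rw [dif_pos hp]
  by_contra h1
  refine h ?_
  unfold sp
  exact mem_image.2 ⟨⟨p, hp⟩, mem_filter.2 ⟨mem_univ _, h1⟩, rfl⟩

theorem avg_ee (hP : ∀ p ∈ P, Nat.Prime p) (hP3 : ∀ p ∈ P, 3 ≤ p) (b : ι → ℕ)
    (hb : ∀ p ∈ P, ∀ i j : ι, i ≠ j → ¬ b i ≡ b j [MOD p]) (W n₀ K : ℕ)
    (hW : ∀ p ∈ P, Nat.Coprime p W) (hK : 0 < K) (β β' : P → Option ι) :
    |(∑ k ∈ range K, ee P b β (n₀ + W * k) * ee P b β' (n₀ + W * k)) / (K : ℝ) - KK P β β'| ≤
      2 * (rr (sp P β) * rr (sp P β')) / K := by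
  classical
  set S : Finset ℕ := sp P β ∪ sp P β' with hS
  have hSP : S ⊆ P := union_subset (sp_subset P β) (sp_subset P β')
  set g : ℕ → ℕ → ℝ := fun p n => loc b p (r8c_ext P β p) n * loc b p (r8c_ext P β' p) n with hg
  have h1 : ∀ n, ee P b β n * ee P b β' n = ∏ p ∈ S, g p n := by
    intro n
    unfold ee
    rw [← prod_mul_distrib, prod_subset hSP (f := fun p => g p n), ← prod_coe_sort P]
    · refine prod_congr rfl fun p _ => ?_
      simp only [hg, r8c_ext_coe]
    · intro p hp hpS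
      have h2 : p ∉ sp P β := fun h => hpS (mem_union_left _ h)
      have h3 : p ∉ sp P β' := fun h => hpS (mem_union_right _ h)
      simp [hg, r8c_ext_none P hp h2, r8c_ext_none P hp h3, loc]
  have h2 : KK P β β' = ∏ p ∈ S, ((∑ c ∈ range p, g p c) / (p : ℝ)) := by
    have h3 : ∏ p ∈ S, ((∑ c ∈ range p, g p c) / (p : ℝ)) =
        ∏ p ∈ S, gg p (r8c_ext P β p) (r8c_ext P β' p) := by
      refine prod_congr rfl fun p hp => ?_
      exact loc_avg b (hP p (hSP hp)) (hP3 p (hSP hp)) (hb p (hSP hp)) _ _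
    rw [h3]
    unfold KK
    rw [prod_subset hSP (f := fun p => gg p (r8c_ext P β p) (r8c_ext P β' p)),
      ← prod_coe_sort P]
    · refine prod_congr rfl fun p _ => ?_
      simp only [r8c_ext_coe]
    · intro p hp hpS
      have h2 : p ∉ sp P β := fun h => hpS (mem_union_left _ h)
      have h3 : p ∉ sp P β' := fun h => hpS (mem_union_right _ h)
      simp [r8c_ext_none P hp h2, r8c_ext_none P hp h3, gg]
  have h3 : (∑ k ∈ range K, ee P b β (n₀ + W * k) * ee P b β' (n₀ + W * k)) =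
      ∑ k ∈ range K, ∏ p ∈ S, g p (n₀ + W * k) := sum_congr rfl fun k _ => h1 _
  rw [h3, h2]
  have h4 := avg_prod S (fun p hp => hP p (hSP hp)) g
    (fun p _ n => by simp only [hg, loc_per])
    (fun p hp n => by
      simp only [hg]
      rw [abs_mul]
      have h5 : 2 ≤ p := (hP p (hSP hp)).two_le
      exact mul_le_one₀ (abs_loc_le b h5 _ _) (abs_nonneg _) (abs_loc_le b h5 _ _))
    W n₀ K (fun p hp => hW p (hSP hp)) hK
  refine h4.trans ?_
  have h5 : rr S ≤ rr (sp P β) * rr (sp P β') := by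
    have h6 : rr S * rr (sp P β ∩ sp P β') = rr (sp P β) * rr (sp P β') := by
      unfold rr
      exact prod_union_inter
    have h7 : 1 ≤ rr (sp P β ∩ sp P β') :=
      one_le_rr P hP (inter_subset_left.trans (sp_subset P β))
    have h8 : 0 < rr S := rr_pos P hP hSP
    rw [← h6]
    nlinarith
  have hK' : (0 : ℝ) < K := by exact_mod_cast hK
  gcongr

end Pool.Agent.LibRG87
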