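import Pool.Agent.LibRG87.R2
import Pool.Agent.LibRG87.R3
import Pool.Agent.LibRG87.R4
import Pool.Agent.LibRG87.R6
import Pool.Agent.LibRG87.R7
import Pool.Agent.LibRG87.R8c
import Pool.Agent.LibRG87.R9
import Pool.Agent.LibRG87.R10

/-! The covering lemma, finite form. -/

set_option autoImplicit false

open Finset

namespace Pool.Agent.LibRG87

variable {ι : Type} [Fintype ι] [DecidableEq ι] (P : Finset ℕ)

theorem Fin_prod_FF (z : ℝ) (β : P → Option ι) :
    (∏ i, ff P z (fb P β i)) ^ 2 / ph (sp P β) = ∏ i, FF P z (fb P β i) := by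
  rw [ph_sp, ← Finset.prod_pow, ← Finset.prod_div_distrib]
  rfl

theorem Fin_sum_FF_le (hP : ∀ p ∈ P, Nat.Prime p) (z : ℝ) :
    ∑ β : P → Option ι, ∏ i, FF P z (fb P β i) ≤ SS P z ^ Fintype.card ι := by
  have h := sum_beta_le P (ι := ι) (fun A => ∏ i, FF P z (A i)) (fun A hA => by
    apply Finset.prod_nonneg
    intro i _
    exact FF_nonneg P hP z (Finset.mem_powerset.1 (Fintype.mem_piFinset.1 hA i)))
  rw [sum_fam_prod] at h
  exact h

open scoped Classical in
theorem Fin_sum_FF_tail (hP : ∀ p ∈ P, Nat.Prime p) (z T : ℝ) :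
    ∑ β : P → Option ι, (if T < rr (sp P β) then ∏ i, FF P z (fb P β i) else 0) ≤
      ∑ A ∈ Fintype.piFinset (fun _ : ι => P.powerset) with T < ∏ i, rr (A i),
        ∏ i, FF P z (A i) := by
  have h := sum_beta_le P (ι := ι)
    (fun A => if T < ∏ i, rr (A i) then ∏ i, FF P z (A i) else 0) (fun A hA => by
    by_cases h1 : T < ∏ i, rr (A i)
    · simp only [h1, if_true]
      apply Finset.prod_nonneg
      intro i _
      exact FF_nonneg P hP z (Finset.mem_powerset.1 (Fintype.mem_piFinset.1 hA i))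
    · simp only [h1, if_false]
      exact le_rfl)
  rw [Finset.sum_filter]
  refine le_trans (le_of_eq ?_) h
  apply Finset.sum_congr rfl
  intro β _
  rw [rr_sp]

/-- The diagonal form of `yy` is large. -/
theorem Fin_DD_yy (hP : ∀ p ∈ P, Nat.Prime p) {w : ℕ} (hw : 3 ≤ w) (hPw : ∀ p ∈ P, w < p)
    {z T : ℝ} (hT : 1 < T) (hZ : 1 ≤ ZZ P z * Real.log w) :
    SS P z ^ Fintype.card ι * (1 - (Fintype.card ι : ℝ) ^ 2 / ((w : ℝ) - 1) -
        Fintype.card ι * (1 / ZZ P z) / Real.log T) ≤ DD P (yy P z T : (P → Option ι) → ℝ) := by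
  classical
  have hw1 : (1 : ℝ) < w := by exact_mod_cast (by omega : 1 < w)
  have hPw' : ∀ p ∈ P, (w : ℝ) < p := fun p hp => by exact_mod_cast hPw p hp
  have hDD : DD P (yy P z T : (P → Option ι) → ℝ) =
      ∑ β : P → Option ι, (∏ i, FF P z (fb P β i)) -
      ∑ β : P → Option ι, (if T < rr (sp P β) then ∏ i, FF P z (fb P β i) else 0) := by
    rw [DD, ← Finset.sum_sub_distrib]
    apply Finset.sum_congr rfl
    intro β _
    rw [yy]
    by_cases h : rr (sp P β) ≤ T
    · rw [if_pos h, if_neg (not_lt.2 h), sub_zero, Fin_prod_FF]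
    · rw [if_neg h, if_pos (not_le.1 h)]
      simp
  have hFF : ∀ A ∈ P.powerset, 0 ≤ FF P z A := fun A hA =>
    FF_nonneg P hP z (Finset.mem_powerset.1 hA)
  have h1 := sum_beta_ge P (ι := ι) hP (FF P z) hFF
    (fun p hp => sum_FF_mem P hP hw1 hPw' hZ hp)
  have h2 := (Fin_sum_FF_tail P (ι := ι) hP z T).trans
    (markov P hP (FF P z) hFF (one_le_SS P hP z) hT)
  rw [sum_FF_log P hP hw1 hPw' hZ] at h2
  have h3 := sum_inv_sq P (by omega : 2 ≤ w) hPw
  have hS : (0 : ℝ) ≤ SS P z ^ Fintype.card ι :=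
    pow_nonneg (le_trans zero_le_one (one_le_SS P hP z)) _
  have h4 : (Fintype.card ι : ℝ) ^ 2 * ∑ p ∈ P, 1 / ((p : ℝ) - 1) ^ 2 ≤
      (Fintype.card ι : ℝ) ^ 2 / ((w : ℝ) - 1) := by
    rw [div_eq_mul_one_div]
    exact mul_le_mul_of_nonneg_left h3 (by positivity)
  have h5 : SS P z ^ Fintype.card ι * (1 - (Fintype.card ι : ℝ) ^ 2 / ((w : ℝ) - 1)) ≤
      SS P z ^ Fintype.card ι *
        (1 - (Fintype.card ι : ℝ) ^ 2 * ∑ p ∈ P, 1 / ((p : ℝ) - 1) ^ 2) :=
    mul_le_mul_of_nonneg_left (by linarith) hS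
  rw [hDD]
  have h6 : SS P z = ∑ A ∈ P.powerset, FF P z A := rfl
  rw [h6] at h5 ⊢
  have h7 : (∑ A ∈ P.powerset, FF P z A) ^ Fintype.card ι *
      (1 - (Fintype.card ι : ℝ) ^ 2 / ((w : ℝ) - 1) -
        Fintype.card ι * (1 / ZZ P z) / Real.log T) =
      (∑ A ∈ P.powerset, FF P z A) ^ Fintype.card ι *
        (1 - (Fintype.card ι : ℝ) ^ 2 / ((w : ℝ) - 1)) -
      (∑ A ∈ P.powerset, FF P z A) ^ Fintype.card ι *
        (Fintype.card ι * (1 / ZZ P z) / Real.log T) := by ring
  rw [h7]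
  linarith

theorem Fin_card_sp (hP : ∀ p ∈ P, Nat.Prime p) {w : ℕ} (hw : 3 ≤ w) (hPw : ∀ p ∈ P, w < p)
    {T : ℝ} (β : P → Option ι) (h : rr (sp P β) ≤ T) :
    ((sp P β).card : ℝ) ≤ Real.log T / Real.log w := by
  have hw0 : (0 : ℝ) < w := by exact_mod_cast (by omega : 0 < w)
  have hlw : 0 < Real.log w := Real.log_pos (by exact_mod_cast (by omega : 1 < w))
  have h1 : (w : ℝ) ^ (sp P β).card ≤ rr (sp P β) := by
    rw [rr, ← Finset.prod_const]
    apply Finset.prod_le_prod
    · intro p _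
      exact hw0.le
    · intro p hp
      exact_mod_cast (hPw p (sp_subset P β hp)).le
  have h2 := Real.log_le_log (by positivity) (h1.trans h)
  rw [Real.log_pow] at h2
  rw [le_div_iff₀ hlw]
  exact h2

/-- The diagonal form of `yc` is small. -/
theorem Fin_DD_yc (hP : ∀ p ∈ P, Nat.Prime p) {w : ℕ} (hw : 3 ≤ w) (hPw : ∀ p ∈ P, w < p)
    {z T : ℝ} (hz : 1 < z) (hT : 1 < T) (hZ : 1 ≤ ZZ P z * Real.log w) (i₀ : ι) :
    DD P (yc P z T i₀ : (P → Option ι) → ℝ) ≤ SS P z ^ Fintype.card ι *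
      ((2 * Real.log T / (((w : ℝ) - 1) * Real.log w)) ^ 2 +
        Real.exp (-(Real.log (T / z) / Real.log z) +
          2 * (Fintype.card ι * (1 / ZZ P z) / Real.log z))) := by
  classical
  have hw1 : (1 : ℝ) < w := by exact_mod_cast (by omega : 1 < w)
  have hPw' : ∀ p ∈ P, (w : ℝ) < p := fun p hp => by exact_mod_cast hPw p hp
  have hFF : ∀ A ∈ P.powerset, 0 ≤ FF P z A := fun A hA =>
    FF_nonneg P hP z (Finset.mem_powerset.1 hA)
  have hprodFF : ∀ β : P → Option ι, 0 ≤ ∏ i, FF P z (fb P β i) := fun β =>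
    Finset.prod_nonneg fun i _ => FF_nonneg P hP z (fb_subset P β i)
  set ε : ℝ := 2 * Real.log T / (((w : ℝ) - 1) * Real.log w) with hε
  have hlw : 0 < Real.log w := Real.log_pos hw1
  have hε0 : 0 ≤ ε := by
    have := Real.log_pos hT
    have h1 : 0 < (w : ℝ) - 1 := by linarith
    positivity
  have hterm : ∀ β : P → Option ι, (yc P z T i₀ β) ^ 2 / ph (sp P β) ≤
      ε ^ 2 * ∏ i, FF P z (fb P β i) +
        (if T / z < rr (sp P β) then ∏ i, FF P z (fb P β i) else 0) := by
    intro β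
    have hc0 := cc_nonneg P (T := T) hP hw1 hPw' hZ β
    have hc1 := cc_le_one P (T := T) hP hw1 hPw' hZ β
    have hcc : (cc P z T β) ^ 2 ≤ ε ^ 2 + (if T / z < rr (sp P β) then 1 else 0) := by
      by_cases h1 : T / z < rr (sp P β)
      · rw [if_pos h1]
        nlinarith [sq_nonneg ε]
      · rw [if_neg h1, add_zero]
        have h2 : rr (sp P β) * z ≤ T := by
          rw [not_lt, le_div_iff₀ (by linarith)] at h1
          exact h1
        have h3 : rr (sp P β) ≤ T := by
          have h4 : 0 < rr (sp P β) := rr_pos P hP (sp_subset P β)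
          nlinarith
        have h4 := cc_small P hP hw1 hPw' hZ β h2 hz
        have h5 := Fin_card_sp P hP hw hPw β h3
        have h6 : cc P z T β ≤ ε := by
          refine h4.trans ?_
          have h7 : ε = 2 * (Real.log T / Real.log w) / ((w : ℝ) - 1) := by
            rw [hε]
            have h8 : (w : ℝ) - 1 ≠ 0 := by linarith
            field_simp
          rw [h7]
          apply div_le_div_of_nonneg_right _ (by linarith)
          linarith
        exact pow_le_pow_left₀ hc0 h6 2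
    have hyc : (yc P z T i₀ β) ^ 2 / ph (sp P β) ≤
        (∏ i, FF P z (fb P β i)) * (cc P z T β) ^ 2 := by
      rw [yc]
      by_cases h1 : ∀ p, β p ≠ some i₀
      · rw [if_pos h1, mul_pow, mul_div_right_comm, Fin_prod_FF]
      · rw [if_neg h1]
        have := mul_nonneg (hprodFF β) (sq_nonneg (cc P z T β))
        simpa using this
    refine hyc.trans ((mul_le_mul_of_nonneg_left hcc (hprodFF β)).trans (le_of_eq ?_))
    by_cases h1 : T / z < rr (sp P β)
    · rw [if_pos h1, if_pos h1]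
      ring
    · rw [if_neg h1, if_neg h1]
      ring
  have h1 : DD P (yc P z T i₀ : (P → Option ι) → ℝ) ≤
      ε ^ 2 * ∑ β : P → Option ι, (∏ i, FF P z (fb P β i)) +
      ∑ β : P → Option ι, (if T / z < rr (sp P β) then ∏ i, FF P z (fb P β i) else 0) := by
    rw [DD, Finset.mul_sum, ← Finset.sum_add_distrib]
    exact Finset.sum_le_sum fun β _ => hterm β
  have hTz : 0 < T / z := by positivity
  have h2 := (Fin_sum_FF_tail P (ι := ι) hP z (T / z)).trans
    (chernoff P hP (FF P z) hFF (one_le_SS P hP z) hz hTz (fun A hA hne => by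
      by_cases hA0 : A = ∅
      · rw [hA0]
        simp [rr]
        exact hz.le
      · apply ff_le_rr P hA0
        intro h0
        apply hne
        rw [FF, h0]
        simp))
  rw [sum_FF_log P hP hw1 hPw' hZ] at h2
  have h3 := mul_le_mul_of_nonneg_left (Fin_sum_FF_le P (ι := ι) hP z) (sq_nonneg ε)
  have h4 : SS P z = ∑ A ∈ P.powerset, FF P z A := rfl
  rw [h4] at h3 ⊢
  rw [mul_add]
  linarith

end Pool.Agent.LibRG87
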