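import Pool.Agent.LibRG87.Fin

/-! The covering lemma, finite form: the contradiction. -/

set_option autoImplicit false

open Finset

namespace Pool.Agent.LibRG87

variable {ι : Type} [Fintype ι] [DecidableEq ι] (P : Finset ℕ)

theorem Fin_avg (hP : ∀ p ∈ P, Nat.Prime p) {w : ℕ} (hw : 3 ≤ w) (hPw : ∀ p ∈ P, w < p)
    (hN : Fintype.card ι + 1 ≤ w) {T : ℝ} (hT : 1 < T) (b : ι → ℕ)
    (hb : ∀ p ∈ P, ∀ i j : ι, i ≠ j → ¬ b i ≡ b j [MOD p]) (W n₀ K : ℕ)
    (hW : ∀ p ∈ P, Nat.Coprime p W) (hK : 0 < K) (y : (P → Option ι) → ℝ)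
    (hy : ∀ β, |y β| ≤ 1) (hyT : ∀ β, y β ≠ 0 → rr (sp P β) ≤ T) :
    |(∑ k ∈ range K, PhiF P b y (n₀ + W * k) ^ 2) / (K : ℝ) - QQ P y| ≤ 18 * T ^ 6 / K := by
  classical
  have hK' : (0 : ℝ) < K := by exact_mod_cast hK
  have hP3 : ∀ p ∈ P, 3 ≤ p := fun p hp => by have := hPw p hp; omega
  have h1 : (∑ k ∈ range K, PhiF P b y (n₀ + W * k) ^ 2) / (K : ℝ) - QQ P y =
      ∑ β, ∑ β', y β * y β' * ((∑ k ∈ range K, ee P b β (n₀ + W * k) *
        ee P b β' (n₀ + W * k)) / (K : ℝ) - KK P β β') := by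
    have h2 : ∀ k, PhiF P b y (n₀ + W * k) ^ 2 =
        ∑ β, ∑ β', y β * y β' * (ee P b β (n₀ + W * k) * ee P b β' (n₀ + W * k)) := by
      intro k
      rw [PhiF, sq, Finset.sum_mul_sum]
      apply Finset.sum_congr rfl
      intro β _
      apply Finset.sum_congr rfl
      intro β' _
      ring
    rw [Finset.sum_congr rfl fun k _ => h2 k, Finset.sum_comm]
    rw [QQ, Finset.sum_div, ← Finset.sum_sub_distrib]
    apply Finset.sum_congr rfl
    intro β _
    rw [Finset.sum_comm, Finset.sum_div, ← Finset.sum_sub_distrib]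
    apply Finset.sum_congr rfl
    intro β' _
    rw [← Finset.mul_sum]
    ring
  rw [h1]
  set u : (P → Option ι) → ℝ := fun β => if rr (sp P β) ≤ T then (1 : ℝ) else 0 with hu
  have hyu : ∀ β, |y β| ≤ u β := by
    intro β
    by_cases h : rr (sp P β) ≤ T
    · simp only [hu, h, if_true]
      exact hy β
    · simp only [hu, h, if_false]
      have : y β = 0 := by
        by_contra h0
        exact h (hyT β h0)
      rw [this, abs_zero]
  have hterm : ∀ β β', |y β * y β' * ((∑ k ∈ range K, ee P b β (n₀ + W * k) *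
        ee P b β' (n₀ + W * k)) / (K : ℝ) - KK P β β')| ≤ u β * u β' * (2 * T ^ 2 / K) := by
    intro β β'
    rw [abs_mul, abs_mul]
    have h2 := avg_ee P hP hP3 b hb W n₀ K hW hK β β'
    have hr1 : 0 < rr (sp P β) := rr_pos P hP (sp_subset P β)
    have hr2 : 0 < rr (sp P β') := rr_pos P hP (sp_subset P β')
    by_cases h3 : rr (sp P β) ≤ T
    · by_cases h4 : rr (sp P β') ≤ T
      · have h5 : 2 * (rr (sp P β) * rr (sp P β')) / K ≤ 2 * T ^ 2 / K := by
          apply div_le_div_of_nonneg_right _ hK'.le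
          have : rr (sp P β) * rr (sp P β') ≤ T * T := mul_le_mul h3 h4 hr2.le (by linarith)
          nlinarith
        apply mul_le_mul (mul_le_mul (hyu β) (hyu β') (abs_nonneg _) _) (h2.trans h5)
          (abs_nonneg _)
        · apply mul_nonneg
          · exact le_trans (abs_nonneg _) (hyu β)
          · exact le_trans (abs_nonneg _) (hyu β')
        · exact le_trans (abs_nonneg _) (hyu β)
      · have h5 : y β' = 0 := by
          by_contra h0
          exact h4 (hyT β' h0)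
        rw [h5, abs_zero, mul_zero, zero_mul]
        have hu1 : 0 ≤ u β := le_trans (abs_nonneg _) (hyu β)
        have hu2 : 0 ≤ u β' := le_trans (abs_nonneg _) (hyu β')
        positivity
    · have h5 : y β = 0 := by
        by_contra h0
        exact h3 (hyT β h0)
      rw [h5, abs_zero, zero_mul, zero_mul]
      have hu1 : 0 ≤ u β := le_trans (abs_nonneg _) (hyu β)
      have hu2 : 0 ≤ u β' := le_trans (abs_nonneg _) (hyu β')
      positivity
  have hsum : |∑ β, ∑ β', y β * y β' * ((∑ k ∈ range K, ee P b β (n₀ + W * k) *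
        ee P b β' (n₀ + W * k)) / (K : ℝ) - KK P β β')| ≤
      ∑ β, ∑ β', u β * u β' * (2 * T ^ 2 / K) := by
    refine (Finset.abs_sum_le_sum_abs _ _).trans (Finset.sum_le_sum fun β _ => ?_)
    exact (Finset.abs_sum_le_sum_abs _ _).trans (Finset.sum_le_sum fun β' _ => hterm β β')
  refine hsum.trans ?_
  have hcard := card_beta (ι := ι) P (by omega : 2 ≤ w) hPw hN hT.le
  have hU : ∑ β, ∑ β', u β * u β' * (2 * T ^ 2 / K) = (∑ β, u β) ^ 2 * (2 * T ^ 2 / K) := by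
    rw [sq (∑ β, u β), Finset.sum_mul_sum, Finset.sum_mul]
    apply Finset.sum_congr rfl
    intro β _
    rw [Finset.sum_mul]
  rw [hU]
  have hU0 : 0 ≤ ∑ β, u β := Finset.sum_nonneg fun β _ => le_trans (abs_nonneg _) (hyu β)
  have hU1 : (∑ β, u β) ^ 2 ≤ (3 * T ^ 2) ^ 2 := pow_le_pow_left₀ hU0 hcard 2
  calc (∑ β, u β) ^ 2 * (2 * T ^ 2 / K) ≤ (3 * T ^ 2) ^ 2 * (2 * T ^ 2 / K) :=
        mul_le_mul_of_nonneg_right hU1 (by positivity)
    _ = 18 * T ^ 6 / K := by ring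

theorem Fin_delta (hP : ∀ p ∈ P, Nat.Prime p) {w : ℕ} (hw : 3 ≤ w) (hPw : ∀ p ∈ P, w < p)
    {T δ : ℝ} (hδ : Real.exp (Fintype.card ι * (Real.log T / Real.log w) / w) ≤ 1 + δ) (β : P → Option ι)
    (h : rr (sp P β) ≤ T) :
    ∏ p ∈ sp P β, (1 + (Fintype.card ι : ℝ) / ((p : ℝ) - 1)) ≤ 1 + δ := by
  have hw0 : (0 : ℝ) < w := by exact_mod_cast (by omega : 0 < w)
  refine le_trans ?_ hδ
  have h1 : ∏ p ∈ sp P β, (1 + (Fintype.card ι : ℝ) / ((p : ℝ) - 1)) ≤
      ∏ _p ∈ sp P β, Real.exp ((Fintype.card ι : ℝ) / w) := by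
    have hkey : ∀ p ∈ sp P β, (w : ℝ) ≤ (p : ℝ) - 1 := by
      intro p hp
      have h2 := hPw p (sp_subset P β hp)
      have h3 : ((w + 1 : ℕ) : ℝ) ≤ p := by exact_mod_cast h2
      push_cast at h3
      linarith
    apply Finset.prod_le_prod
    · intro p hp
      have := hkey p hp
      have h2 : 0 ≤ (Fintype.card ι : ℝ) / ((p : ℝ) - 1) := by
        apply div_nonneg (Nat.cast_nonneg _)
        linarith
      linarith
    · intro p hp
      have h3 : (Fintype.card ι : ℝ) / ((p : ℝ) - 1) ≤ (Fintype.card ι : ℝ) / w :=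
        div_le_div_of_nonneg_left (Nat.cast_nonneg _) hw0 (hkey p hp)
      have h4 := Real.add_one_le_exp ((Fintype.card ι : ℝ) / w)
      linarith
  refine h1.trans ?_
  rw [Finset.prod_const, ← Real.exp_nat_mul]
  apply Real.exp_le_exp.2
  have h2 := Fin_card_sp P hP hw hPw β h
  have h3 : (0 : ℝ) ≤ Fintype.card ι := Nat.cast_nonneg _
  rw [mul_div_assoc', div_le_div_iff_of_pos_right hw0]
  nlinarith

theorem Fin_yy_le (hP : ∀ p ∈ P, Nat.Prime p) {w : ℕ} (hw : 3 ≤ w) (hPw : ∀ p ∈ P, w < p)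
    {z T : ℝ} (hZ : 1 ≤ ZZ P z * Real.log w) (β : P → Option ι) :
    |yy P z T β| ≤ 1 ∧ (yy P z T β ≠ 0 → rr (sp P β) ≤ T) := by
  have hw1 : (1 : ℝ) < w := by exact_mod_cast (by omega : 1 < w)
  have hPw' : ∀ p ∈ P, (w : ℝ) < p := fun p hp => by exact_mod_cast hPw p hp
  rw [yy]
  by_cases h : rr (sp P β) ≤ T
  · rw [if_pos h]
    refine ⟨?_, fun _ => h⟩
    rw [Finset.abs_prod]
    exact Finset.prod_le_one (fun i _ => abs_nonneg _)
      (fun i _ => abs_ff_le P hP hw1 hPw' hZ (fb_subset P β i))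
  · rw [if_neg h]
    simp

theorem Fin_yc_le (hP : ∀ p ∈ P, Nat.Prime p) {w : ℕ} (hw : 3 ≤ w) (hPw : ∀ p ∈ P, w < p)
    {z T : ℝ} (hZ : 1 ≤ ZZ P z * Real.log w) (i₀ : ι) (β : P → Option ι) :
    |yc P z T i₀ β| ≤ 1 ∧ (yc P z T i₀ β ≠ 0 → rr (sp P β) ≤ T) := by
  have hw1 : (1 : ℝ) < w := by exact_mod_cast (by omega : 1 < w)
  have hPw' : ∀ p ∈ P, (w : ℝ) < p := fun p hp => by exact_mod_cast hPw p hp
  rw [yc]
  by_cases h : ∀ p, β p ≠ some i₀
  · rw [if_pos h]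
    have hc0 := cc_nonneg P (T := T) hP hw1 hPw' hZ β
    have hc1 := cc_le_one P (T := T) hP hw1 hPw' hZ β
    constructor
    · rw [abs_mul, Finset.abs_prod, abs_of_nonneg hc0]
      have h1 : ∏ i, |ff P z (fb P β i)| ≤ 1 :=
        Finset.prod_le_one (fun i _ => abs_nonneg _)
          (fun i _ => abs_ff_le P hP hw1 hPw' hZ (fb_subset P β i))
      exact mul_le_one₀ h1 hc0 hc1
    · intro h1
      by_contra h2
      apply h1
      rw [cc_eq_zero P hP β (not_le.1 h2), mul_zero]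
  · rw [if_neg h]
    simp

/-- **The covering lemma, finite form.** -/
theorem cover_fin (hP : ∀ p ∈ P, Nat.Prime p) {w : ℕ} (hw : 3 ≤ w) (hPw : ∀ p ∈ P, w < p)
    (hN : Fintype.card ι + 1 ≤ w) {z T δ : ℝ} (hz : 1 < z) (hT : 1 < T)
    (hZ : 1 ≤ ZZ P z * Real.log w) (b : ι → ℕ)
    (hb : ∀ p ∈ P, ∀ i j : ι, i ≠ j → ¬ b i ≡ b j [MOD p]) (W n₀ K : ℕ)
    (hW : ∀ p ∈ P, Nat.Coprime p W) (hK : 0 < K)
    (hδ : Real.exp (Fintype.card ι * (Real.log T / Real.log w) / w) ≤ 1 + δ) (hδ1 : δ ≤ 1)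
    (hnum : Fintype.card ι * ((1 + δ) * ((2 * Real.log T / (((w : ℝ) - 1) * Real.log w)) ^ 2 +
        Real.exp (-(Real.log (T / z) / Real.log z) +
          2 * (Fintype.card ι * (1 / ZZ P z) / Real.log z)))) +
        (Fintype.card ι + 1) * (18 * T ^ 6 / K) <
      (1 - δ) * (1 - (Fintype.card ι : ℝ) ^ 2 / ((w : ℝ) - 1) -
        Fintype.card ι * (1 / ZZ P z) / Real.log T)) :
    ∃ k < K, ∀ i : ι, ∃ p ∈ P, p ∣ n₀ + W * k + b i := by
  by_contra hcon
  push Not at hcon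
  have hK' : (0 : ℝ) < K := by exact_mod_cast hK
  have hP3 : ∀ p ∈ P, 3 ≤ p := fun p hp => by have := hPw p hp; omega
  have hδ0 : 0 ≤ δ := by
    have h1 : 1 ≤ Real.exp (Fintype.card ι * (Real.log T / Real.log w) / w) := by
      apply Real.one_le_exp
      have := Real.log_pos hT
      have hlw : 0 < Real.log w := Real.log_pos (by exact_mod_cast (by omega : 1 < w))
      positivity
    linarith
  set S := SS P z ^ Fintype.card ι with hS
  have hS1 : 1 ≤ S := one_le_pow₀ (one_le_SS P hP z)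
  set E := 18 * T ^ 6 / (K : ℝ) with hE
  have hE0 : 0 ≤ E := by positivity
  set D1 := (1 - (Fintype.card ι : ℝ) ^ 2 / ((w : ℝ) - 1) -
        Fintype.card ι * (1 / ZZ P z) / Real.log T) with hD1
  set D2 := ((2 * Real.log T / (((w : ℝ) - 1) * Real.log w)) ^ 2 +
        Real.exp (-(Real.log (T / z) / Real.log z) +
          2 * (Fintype.card ι * (1 / ZZ P z) / Real.log z))) with hD2
  have hD20 : 0 ≤ D2 := by positivity
  -- the average of `Φ²`
  have hy := Fin_yy_le (ι := ι) P (T := T) hP hw hPw hZ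
  have hA := Fin_avg P hP hw hPw hN hT b hb W n₀ K hW hK (yy P z T) (fun β => (hy β).1)
    (fun β => (hy β).2)
  have hB := schur P hP hP3 (yy P z T : (P → Option ι) → ℝ)
    (fun β hβ => Fin_delta P hP hw hPw hδ β ((hy β).2 hβ))
  have hC := Fin_DD_yy (ι := ι) P hP hw hPw hT hZ
  have hDD0 : ∀ y : (P → Option ι) → ℝ, 0 ≤ DD P y := fun y =>
    Finset.sum_nonneg fun β _ => div_nonneg (sq_nonneg _) (ph_pos P hP (sp_subset P β)).le
  have hlow : S * ((1 - δ) * D1) - E ≤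
      (∑ k ∈ range K, PhiF P b (yy P z T) (n₀ + W * k) ^ 2) / (K : ℝ) := by
    rw [abs_le] at hA hB
    have h1 : (1 - δ) * (S * D1) ≤ (1 - δ) * DD P (yy P z T : (P → Option ι) → ℝ) :=
      mul_le_mul_of_nonneg_left hC (by linarith)
    nlinarith [hA.1, hB.1, h1]
  -- the averages of `Φ_{i₀}²`
  have hup : ∀ i₀ : ι, (∑ k ∈ range K, PhiF P b (yc P z T i₀) (n₀ + W * k) ^ 2) / (K : ℝ) ≤
      S * ((1 + δ) * D2) + E := by
    intro i₀
    have hy' := Fin_yc_le (ι := ι) P (T := T) hP hw hPw hZ i₀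
    have hA' := Fin_avg P hP hw hPw hN hT b hb W n₀ K hW hK (yc P z T i₀)
      (fun β => (hy' β).1) (fun β => (hy' β).2)
    have hB' := schur P hP hP3 (yc P z T i₀ : (P → Option ι) → ℝ)
      (fun β hβ => Fin_delta P hP hw hPw hδ β ((hy' β).2 hβ))
    have hC' := Fin_DD_yc (ι := ι) P hP hw hPw hz hT hZ i₀
    rw [abs_le] at hA' hB'
    have h1 : (1 + δ) * DD P (yc P z T i₀ : (P → Option ι) → ℝ) ≤ (1 + δ) * (S * D2) :=
      mul_le_mul_of_nonneg_left hC' (by linarith)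
    nlinarith [hA'.2, hB'.2, h1]
  -- pointwise
  have hpt : ∀ k ∈ range K, PhiF P b (yy P z T) (n₀ + W * k) ^ 2 ≤
      ∑ i₀ : ι, PhiF P b (yc P z T i₀) (n₀ + W * k) ^ 2 := by
    intro k hk
    obtain ⟨i₀, hi₀⟩ := hcon k (Finset.mem_range.1 hk)
    rw [collapse P b z T i₀ (n₀ + W * k) hi₀]
    exact Finset.single_le_sum (f := fun i₀ : ι => PhiF P b (yc P z T i₀) (n₀ + W * k) ^ 2)
      (fun i _ => sq_nonneg _) (Finset.mem_univ i₀)
  have hsum : (∑ k ∈ range K, PhiF P b (yy P z T) (n₀ + W * k) ^ 2) / (K : ℝ) ≤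
      Fintype.card ι * (S * ((1 + δ) * D2) + E) := by
    calc (∑ k ∈ range K, PhiF P b (yy P z T) (n₀ + W * k) ^ 2) / (K : ℝ)
        ≤ (∑ k ∈ range K, ∑ i₀ : ι, PhiF P b (yc P z T i₀) (n₀ + W * k) ^ 2) / (K : ℝ) :=
          div_le_div_of_nonneg_right (Finset.sum_le_sum hpt) hK'.le
      _ = ∑ i₀ : ι, (∑ k ∈ range K, PhiF P b (yc P z T i₀) (n₀ + W * k) ^ 2) / (K : ℝ) := by
          rw [Finset.sum_comm, Finset.sum_div]
      _ ≤ ∑ _i₀ : ι, (S * ((1 + δ) * D2) + E) := Finset.sum_le_sum fun i _ => hup i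
      _ = Fintype.card ι * (S * ((1 + δ) * D2) + E) := by
          rw [Finset.sum_const, Finset.card_univ, nsmul_eq_mul]
  have hfin := hlow.trans hsum
  have hN0 : (0 : ℝ) ≤ Fintype.card ι := Nat.cast_nonneg _
  have h1 : S * ((1 - δ) * D1 - Fintype.card ι * ((1 + δ) * D2)) ≤
      (Fintype.card ι + 1) * E := by nlinarith [hfin]
  have h2 : 0 ≤ (Fintype.card ι + 1 : ℝ) * E := by positivity
  have h3 : (Fintype.card ι + 1) * E < (1 - δ) * D1 - Fintype.card ι * ((1 + δ) * D2) := by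
    linarith
  nlinarith [h1, h2, h3, hS1]

end Pool.Agent.LibRG87
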