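import Pool.Agent.LibRG87.EDefs

/-!
Row G2: the length in terms of `X`. `Y = ⌊κ log X⌋₊`, `0 < κ ≤ 1`. For large `X`: `Y ≥ κ log X / 2`,
`Y ≤ log X`, `log Y ≥ (log log X) / 2`, `0 < log log Y ≤ log log log X`,
`log log log Y ≥ (log log log log X) / 2 > 0`, so the real number under the floor in `hY c₀ Y` is at
least `(c₀ κ / 16) R(X)`; `c = c₀ κ / 32`, the floor costs at most `1` and `R(X) → ∞`.
-/

open Filter

namespace Pool.Agent.LibRG87

/-- the record function `log X (log log X)^2 log log log log X / (log log log X)^2` -/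
noncomputable def RX (X : ℝ) : ℝ :=
  Real.log X * (Real.log (Real.log X)) ^ 2 * Real.log (Real.log (Real.log (Real.log X))) /
    (Real.log (Real.log (Real.log X))) ^ 2

theorem hY_ge {κ c₀ : ℝ} (hκ : 0 < κ) (hκ1 : κ ≤ 1) (hc : 0 < c₀) : ∃ c : ℝ, 0 < c ∧
    ∀ᶠ X : ℝ in atTop, c * RX X ≤ (hY c₀ ⌊κ * Real.log X⌋₊ : ℝ) := by
  refine ⟨c₀ * κ / 32, by positivity, ?_⟩
  have hL1 := Real.tendsto_log_atTop
  have hL2 := hL1.comp hL1
  have hL3 := hL1.comp hL2
  have hL4 := hL1.comp hL3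
  filter_upwards [hL1.eventually_ge_atTop (max (32 / (c₀ * κ)) (4 / κ)),
    hL2.eventually_ge_atTop (2 * |Real.log (κ / 2)|),
    hL3.eventually_ge_atTop (2 * Real.log 2), hL3.eventually_ge_atTop 1,
    hL4.eventually_ge_atTop (2 * Real.log 2), hL4.eventually_ge_atTop 1,
    hL2.eventually_ge_atTop 1] with X h1 h2 h3 h3' h4 h4' h2'
  simp only [Function.comp_apply] at h2 h3 h3' h4 h4' h2'
  set L := Real.log X with hL
  set l2 := Real.log L with hl2
  set l3 := Real.log l2 with hl3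
  set l4 := Real.log l3 with hl4
  have h1a : 32 / (c₀ * κ) ≤ L := le_trans (le_max_left _ _) h1
  have h1b : 4 / κ ≤ L := le_trans (le_max_right _ _) h1
  have hLκ : 4 ≤ L * κ := by rwa [div_le_iff₀ hκ] at h1b
  have hLpos : 0 < L := by
    have : 0 < 4 / κ := by positivity
    linarith
  have hlog2 : 0 < Real.log 2 := Real.log_pos (by norm_num)
  -- `Y`
  set Y : ℕ := ⌊κ * L⌋₊ with hYd
  have hY1 : (Y : ℝ) ≤ κ * L := Nat.floor_le (by positivity)
  have hY2 : κ * L - 1 < Y := by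
    have := Nat.lt_floor_add_one (κ * L)
    linarith
  have hY3 : κ * L / 2 ≤ Y := by linarith
  have hY4 : (Y : ℝ) ≤ L := le_trans hY1 (by nlinarith)
  have hYpos : (0 : ℝ) < Y := lt_of_lt_of_le (by positivity) hY3
  -- `log Y`
  have hlY1 : Real.log Y ≤ l2 := Real.log_le_log hYpos hY4
  have hlY2 : l2 / 2 ≤ Real.log Y := by
    have e1 : Real.log (κ * L / 2) ≤ Real.log Y := Real.log_le_log (by positivity) hY3
    have e2 : Real.log (κ * L / 2) = Real.log (κ / 2) + l2 := by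
      rw [show κ * L / 2 = κ / 2 * L by ring, Real.log_mul (by positivity) hLpos.ne']
    have e3 := neg_abs_le (Real.log (κ / 2))
    linarith
  have hlYpos : 0 < Real.log Y := by linarith
  -- `log log Y`
  have hllY1 : Real.log (Real.log Y) ≤ l3 := Real.log_le_log hlYpos hlY1
  have hllY2 : l3 / 2 ≤ Real.log (Real.log Y) := by
    have e1 : Real.log (l2 / 2) ≤ Real.log (Real.log Y) := Real.log_le_log (by linarith) hlY2
    have e2 : Real.log (l2 / 2) = l3 - Real.log 2 := by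
      rw [Real.log_div (by linarith) (by norm_num)]
    linarith
  have hllYpos : 0 < Real.log (Real.log Y) := by linarith
  -- `log log log Y`
  have hlllY : l4 / 2 ≤ Real.log (Real.log (Real.log Y)) := by
    have e1 : Real.log (l3 / 2) ≤ Real.log (Real.log (Real.log Y)) :=
      Real.log_le_log (by linarith) hllY2
    have e2 : Real.log (l3 / 2) = l4 - Real.log 2 := by
      rw [Real.log_div (by linarith) (by norm_num)]
    linarith
  have hl3pos : 0 < l3 := by linarith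
  have hl4pos : 0 < l4 := by linarith
  -- the record function
  have hRX : RX X = L * l2 ^ 2 * l4 / l3 ^ 2 := rfl
  have hRXL : L ≤ RX X := by
    rw [hRX, le_div_iff₀ (by positivity)]
    have e1 : l3 ≤ l2 := by
      have := Real.log_le_sub_one_of_pos (show 0 < l2 by linarith)
      linarith
    have e2 : l3 ^ 2 ≤ l2 ^ 2 := pow_le_pow_left₀ hl3pos.le e1 2
    have e3 : L * l2 ^ 2 * 1 ≤ L * l2 ^ 2 * l4 :=
      mul_le_mul_of_nonneg_left h4' (by positivity)
    calc L * l3 ^ 2 ≤ L * l2 ^ 2 := mul_le_mul_of_nonneg_left e2 hLpos.le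
      _ = L * l2 ^ 2 * 1 := (mul_one _).symm
      _ ≤ _ := e3
  have hbig : 1 ≤ c₀ * κ / 32 * RX X := by
    have e1 : 32 ≤ L * (c₀ * κ) := by rwa [div_le_iff₀ (by positivity)] at h1a
    have e2 : c₀ * κ / 32 * L ≤ c₀ * κ / 32 * RX X :=
      mul_le_mul_of_nonneg_left hRXL (by positivity)
    linarith
  have hval : c₀ * κ / 16 * RX X ≤ c₀ * Y * (Real.log Y) ^ 2 *
      Real.log (Real.log (Real.log Y)) / (Real.log (Real.log Y)) ^ 2 := by
    rw [hRX]
    have e1 : c₀ * κ / 16 * (L * l2 ^ 2 * l4 / l3 ^ 2)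
        = c₀ * (κ * L / 2) * (l2 / 2) ^ 2 * (l4 / 2) / l3 ^ 2 := by ring
    rw [e1]
    have e2 : c₀ * (κ * L / 2) ≤ c₀ * Y := mul_le_mul_of_nonneg_left hY3 hc.le
    have e3 : (l2 / 2) ^ 2 ≤ (Real.log Y) ^ 2 := pow_le_pow_left₀ (by linarith) hlY2 2
    have e4 : c₀ * (κ * L / 2) * (l2 / 2) ^ 2 ≤ c₀ * Y * (Real.log Y) ^ 2 :=
      mul_le_mul e2 e3 (by positivity) (by positivity)
    have e5 : c₀ * (κ * L / 2) * (l2 / 2) ^ 2 * (l4 / 2)
        ≤ c₀ * Y * (Real.log Y) ^ 2 * Real.log (Real.log (Real.log Y)) :=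
      mul_le_mul e4 hlllY (by positivity) (by positivity)
    have e6 : (Real.log (Real.log Y)) ^ 2 ≤ l3 ^ 2 := pow_le_pow_left₀ hllYpos.le hllY1 2
    exact div_le_div₀ (le_trans (by positivity) e5) e5 (by positivity) e6
  have hfl : c₀ * Y * (Real.log Y) ^ 2 *
      Real.log (Real.log (Real.log Y)) / (Real.log (Real.log Y)) ^ 2 < (hY c₀ Y : ℝ) + 1 := by
    unfold Pool.Agent.LibRG87.hY
    exact Nat.lt_floor_add_one _
  linarith

/-- the window is shorter than `Y ^ 3` -/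
theorem hY_lt {c₀ : ℝ} (hc : 0 < c₀) : ∃ Y₀ : ℕ, ∀ Y : ℕ, Y₀ ≤ Y → hY c₀ Y < Y ^ 3 := by
  set M : ℝ := max c₀ (Real.exp (Real.exp 1)) + 1 with hM
  refine ⟨⌈M⌉₊, fun Y hYM => ?_⟩
  have h1 : M ≤ Y := le_trans (Nat.le_ceil _) (by exact_mod_cast hYM)
  have h2 : c₀ < Y := by
    have := le_max_left c₀ (Real.exp (Real.exp 1))
    linarith
  have h3 : Real.exp (Real.exp 1) ≤ Y := by
    have := le_max_right c₀ (Real.exp (Real.exp 1))
    linarith
  have hYpos : (0 : ℝ) < Y := by linarith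
  have h4 : Real.exp 1 ≤ Real.log Y := by rwa [Real.le_log_iff_exp_le hYpos]
  have hlpos : 0 < Real.log Y := lt_of_lt_of_le (Real.exp_pos 1) h4
  have h5 : 1 ≤ Real.log (Real.log Y) := by rwa [Real.le_log_iff_exp_le hlpos]
  set a := Real.log Y with ha
  set b := Real.log a with hb
  have h6 : Real.log b ≤ b ^ 2 := by
    have := Real.log_le_sub_one_of_pos (show 0 < b by linarith)
    nlinarith
  have h7 : a ^ 2 ≤ Y := by
    have e1 : (Real.log Y / 2) ≤ Real.exp (Real.log Y / 2) - 1 := by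
      have := Real.add_one_le_exp (Real.log Y / 2)
      linarith
    have e2 : Real.exp (Real.log Y / 2) ^ 2 = Y := by
      rw [← Real.exp_nat_mul]
      have : ((2 : ℕ) : ℝ) * (Real.log Y / 2) = Real.log Y := by push_cast; ring
      rw [this, Real.exp_log hYpos]
    -- `exp (a / 2) ≥ a` for all `a`
    have e3 : a ≤ Real.exp (a / 2) := by
      have := Real.quadratic_le_exp_of_nonneg (show 0 ≤ a / 2 by linarith)
      nlinarith [sq_nonneg (a - 2)]
    calc a ^ 2 ≤ (Real.exp (a / 2)) ^ 2 := pow_le_pow_left₀ hlpos.le e3 2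
      _ = Y := e2
  have h8 : c₀ * Y * a ^ 2 * Real.log b / b ^ 2 < (Y : ℝ) ^ 3 := by
    rw [div_lt_iff₀ (by positivity)]
    have hb2 : 0 < b ^ 2 := by positivity
    calc c₀ * Y * a ^ 2 * Real.log b ≤ c₀ * Y * a ^ 2 * b ^ 2 :=
          mul_le_mul_of_nonneg_left h6 (by positivity)
      _ < Y * Y * a ^ 2 * b ^ 2 := by
          have e1 : c₀ * (Y * a ^ 2 * b ^ 2) < Y * (Y * a ^ 2 * b ^ 2) :=
            mul_lt_mul_of_pos_right h2 (by positivity)
          nlinarith
      _ ≤ Y * Y * Y * b ^ 2 := by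
          have e1 : (Y : ℝ) * Y * a ^ 2 ≤ Y * Y * Y := mul_le_mul_of_nonneg_left h7 (by positivity)
          exact mul_le_mul_of_nonneg_right e1 hb2.le
      _ = (Y : ℝ) ^ 3 * b ^ 2 := by ring
  unfold Pool.Agent.LibRG87.hY
  have h9 : (((Y ^ 3 : ℕ)) : ℝ) = (Y : ℝ) ^ 3 := by push_cast; ring
  by_cases hneg : 0 ≤ c₀ * Y * a ^ 2 * Real.log b / b ^ 2
  · rw [Nat.floor_lt hneg, h9]
    exact h8
  · rw [Nat.floor_of_nonpos (not_le.1 hneg).le]
    have : 0 < Y := by exact_mod_cast hYpos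
    positivity

end Pool.Agent.LibRG87
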