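import Pool.Agent.LibRG87.R11
import Pool.Agent.LibRG87.Z
import Pool.Agent.LibRG87.E11
import Pool.Agent.LibRG87.G1
import Pool.Agent.LibRG87.G2

/-!
Row G3: the final assembly.
-/

open Finset Filter

namespace Pool.Agent.LibRG87

theorem W_le {W Y : ℕ} (h : W ≤ 4 ^ (Y / 8)) : (W : ℝ) ≤ Real.exp (Y / 5) := by
  have h1 : (W : ℝ) ≤ (4 : ℝ) ^ (Y / 8) := by exact_mod_cast h
  refine h1.trans ?_
  have h2 : (4 : ℝ) = Real.exp (2 * Real.log 2) := by
    rw [two_mul, Real.exp_add, Real.exp_log (by norm_num)]; norm_num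
  rw [h2, ← Real.exp_nat_mul]
  apply Real.exp_le_exp.2
  have h3 : ((Y / 8 : ℕ) : ℝ) ≤ Y / 8 := Nat.cast_div_le
  have h4 := Real.log_two_lt_d9
  have h5 : 0 < Real.log 2 := Real.log_pos (by norm_num)
  have h6 : (0 : ℝ) ≤ Y := by positivity
  nlinarith

open scoped Classical in
theorem record_count {ε : ℝ} (hε : 0 < ε) : ∃ c : ℝ, 0 < c ∧ ∀ᶠ X : ℝ in atTop,
    X ^ (1 - ε) ≤ (((Icc 1 ⌊X⌋₊).filter fun n : ℕ =>
      ∀ q : ℕ, q.Prime → n < q → (n : ℝ) + c * RX X < q).card : ℝ) := by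
  obtain ⟨ε₁, hε₁, Y₁, hpar⟩ := params
  obtain ⟨c₀, hc₀, Y₂, hsurv⟩ := survivors ε₁ hε₁
  obtain ⟨Y₃, hlt⟩ := hY_lt hc₀
  obtain ⟨κ, hκdef⟩ : ∃ κ : ℝ, κ = min ε 1 := ⟨_, rfl⟩
  have hκ : 0 < κ := by rw [hκdef]; exact lt_min hε one_pos
  have hκ1 : κ ≤ 1 := by rw [hκdef]; exact min_le_right _ _
  have hκε : κ ≤ ε := by rw [hκdef]; exact min_le_left _ _
  obtain ⟨c, hc, hge⟩ := hY_ge hκ hκ1 hc₀
  refine ⟨c, hc, ?_⟩
  have hYt : Tendsto (fun X : ℝ => ⌊κ * Real.log X⌋₊) atTop atTop :=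
    tendsto_nat_floor_atTop.comp (Real.tendsto_log_atTop.const_mul_atTop hκ)
  have t1 : ∀ᶠ X : ℝ in atTop, 144 ≤ X ^ (3 * κ / 5) :=
    (tendsto_rpow_atTop (by positivity)).eventually_ge_atTop 144
  have t2 : ∀ᶠ X : ℝ in atTop, 2304 * (ε₁ * Real.log X + 1) ≤ X ^ (1 / 2 : ℝ) := by
    have h1 : Tendsto (fun X : ℝ => (2304 * (ε₁ * Real.log X + 1)) / X ^ (1 / 2 : ℝ)) atTop
        (nhds 0) := by
      have h2 := (isLittleO_log_rpow_atTop (show (0:ℝ) < 1 / 2 by norm_num)).tendsto_div_nhds_zero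
      have h3 : Tendsto (fun X : ℝ => 1 / X ^ (1 / 2 : ℝ)) atTop (nhds 0) :=
        (tendsto_rpow_atTop (by norm_num)).const_div_atTop 1
      have h4 := ((h2.const_mul (2304 * ε₁)).add (h3.const_mul 2304))
      simp only [mul_zero, add_zero] at h4
      refine h4.congr fun X => ?_
      ring
    filter_upwards [h1.eventually_lt_const one_pos, eventually_gt_atTop 0] with X hX hX0
    have h5 : 0 < X ^ (1 / 2 : ℝ) := Real.rpow_pos_of_pos hX0 _
    rw [div_lt_one h5] at hX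
    exact hX.le
  have t3 : ∀ᶠ X : ℝ in atTop, 16 ≤ X ^ (9 / 20 : ℝ) :=
    (tendsto_rpow_atTop (by norm_num)).eventually_ge_atTop 16
  have t4 : ∀ᶠ X : ℝ in atTop, 8 * Real.log X + 8 ≤ X ^ (1 / 2 : ℝ) := by
    have h1 : Tendsto (fun X : ℝ => (8 * Real.log X + 8) / X ^ (1 / 2 : ℝ)) atTop
        (nhds 0) := by
      have h2 := (isLittleO_log_rpow_atTop (show (0:ℝ) < 1 / 2 by norm_num)).tendsto_div_nhds_zero
      have h3 : Tendsto (fun X : ℝ => 1 / X ^ (1 / 2 : ℝ)) atTop (nhds 0) :=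
        (tendsto_rpow_atTop (by norm_num)).const_div_atTop 1
      have h4 := ((h2.const_mul 8).add (h3.const_mul 8))
      simp only [mul_zero, add_zero] at h4
      refine h4.congr fun X => ?_
      ring
    filter_upwards [h1.eventually_lt_const one_pos, eventually_gt_atTop 0] with X hX hX0
    have h5 : 0 < X ^ (1 / 2 : ℝ) := Real.rpow_pos_of_pos hX0 _
    rw [div_lt_one h5] at hX
    exact hX.le
  filter_upwards [hge, hYt.eventually_ge_atTop (max (max Y₁ Y₂) Y₃), t1, t2, t3, t4,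
    eventually_ge_atTop (16 : ℝ)] with X hXge hXY ht1 ht2 ht3 ht4 hX16
  set Y : ℕ := ⌊κ * Real.log X⌋₊ with hYdef
  have hX0 : 0 < X := by linarith
  have hX1 : 1 ≤ X := by linarith
  have hlX : 0 < Real.log X := Real.log_pos (by linarith)
  have hYle : (Y : ℝ) ≤ κ * Real.log X := Nat.floor_le (by positivity)
  have hYle' : (Y : ℝ) ≤ Real.log X := by nlinarith
  have hY1 : Y₁ ≤ Y := le_trans (le_trans (le_max_left _ _) (le_max_left _ _)) hXY
  have hY2 : Y₂ ≤ Y := le_trans (le_trans (le_max_right _ _) (le_max_left _ _)) hXY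
  have hY3 : Y₃ ≤ Y := le_trans (le_max_right _ _) hXY
  obtain ⟨W, n₀, hW0, hW4, hWp, hcard⟩ := hsurv Y hY2
  have hh := hlt Y hY3
  set h : ℕ := hY c₀ Y with hhdef
  set B : Finset ℕ := (Icc 1 h).filter (fun b => (n₀ + b).Coprime W) with hB
  obtain ⟨p1, p2, p3, p4, p5, p6, p7, p8, p9⟩ := hpar Y hY1 _ _ rfl rfl B.card hcard
  set z : ℕ := (Y ^ 3) ^ (2 ^ ⌊Real.log Y / 4⌋₊) with hz
  -- sizes
  have hWr : (W : ℝ) ≤ Real.exp (Y / 5) := W_le hW4
  have hWr0 : (0 : ℝ) < W := by exact_mod_cast hW0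
  have hXexp : ∀ s : ℝ, X ^ s = Real.exp (s * Real.log X) := fun s => by
    rw [Real.rpow_def_of_pos hX0, mul_comm]
  have hWX : (W : ℝ) ≤ X ^ (1 / 2 : ℝ) := by
    refine hWr.trans ?_
    rw [hXexp]
    apply Real.exp_le_exp.2
    linarith
  have hXhalf : X ^ (1 / 2 : ℝ) * X ^ (1 / 2 : ℝ) = X := by
    rw [← Real.rpow_add hX0]; norm_num
  have hXh0 : 0 < X ^ (1 / 2 : ℝ) := Real.rpow_pos_of_pos hX0 _
  have hXh4 : 4 ≤ X ^ (1 / 2 : ℝ) := by
    nlinarith
  set K : ℕ := ⌊X / (4 * W)⌋₊ with hK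
  have hKle : (K : ℝ) ≤ X / (4 * W) := Nat.floor_le (by positivity)
  have hone : 1 ≤ X / (4 * W) := by
    rw [le_div_iff₀ (by positivity)]
    nlinarith
  have hKge : X / (8 * W) ≤ K := by
    have h1 : X / (4 * W) < K + 1 := Nat.lt_floor_add_one _
    have h2 : X / (8 * W) = X / (4 * W) / 2 := by
      rw [div_div]; ring_nf
    have h3 : (1 : ℝ) ≤ K := by
      have : 1 ≤ K := by
        rw [hK]
        exact Nat.le_floor (by exact_mod_cast hone)
      exact_mod_cast this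
    rw [h2]
    linarith
  have hKpos : 0 < K := by
    have : (0 : ℝ) < K := lt_of_lt_of_le (by positivity) hKge
    exact_mod_cast this
  -- the condition on K
  have hKerr : 16 * (((Fintype.card B : ℝ) + 1) * (18 * Real.exp (Y / 20) ^ 6)) ≤ (K : ℝ) := by
    rw [Fintype.card_coe]
    refine le_trans ?_ hKge
    rw [le_div_iff₀ (by positivity), ← Real.exp_nat_mul]
    have h1 : Real.exp ((6 : ℕ) * (Y / 20)) * W ≤ X ^ (1 / 2 : ℝ) := by
      calc Real.exp ((6 : ℕ) * (Y / 20)) * W ≤ Real.exp ((6 : ℕ) * (Y / 20)) * Real.exp (Y / 5) := by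
            apply mul_le_mul_of_nonneg_left hWr (Real.exp_pos _).le
        _ = Real.exp (Y / 2) := by
            rw [← Real.exp_add]; congr 1; push_cast; ring
        _ ≤ X ^ (1 / 2 : ℝ) := by
            rw [hXexp]; apply Real.exp_le_exp.2; linarith
    have h2 : (B.card : ℝ) + 1 ≤ ε₁ * Real.log X + 1 := by
      have := mul_le_mul_of_nonneg_left hYle' hε₁.le
      linarith
    have h3 : 0 ≤ (B.card : ℝ) + 1 := by positivity
    calc 16 * (((B.card : ℝ) + 1) * (18 * Real.exp ((6 : ℕ) * (Y / 20)))) * (8 * W)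
        = (2304 * ((B.card : ℝ) + 1)) * (Real.exp ((6 : ℕ) * (Y / 20)) * W) := by ring
      _ ≤ (2304 * (ε₁ * Real.log X + 1)) * X ^ (1 / 2 : ℝ) := by
          apply mul_le_mul (by linarith) h1 (by positivity) (by nlinarith)
      _ ≤ X ^ (1 / 2 : ℝ) * X ^ (1 / 2 : ℝ) := mul_le_mul_of_nonneg_right ht2 hXh0.le
      _ = X := hXhalf
  -- the covering lemma
  have hPprime : ∀ p ∈ PP (Y ^ 3) z, Nat.Prime p := fun p hp => (Finset.mem_filter.1 hp).2
  have hPw : ∀ p ∈ PP (Y ^ 3) z, Y ^ 3 < p := fun p hp =>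
    (Finset.mem_Ioc.1 (Finset.mem_filter.1 hp).1).1
  have hPz : ∀ p ∈ PP (Y ^ 3) z, p ≤ z := fun p hp =>
    (Finset.mem_Ioc.1 (Finset.mem_filter.1 hp).1).2
  have hY8 : Y / 8 ≤ Y ^ 3 := by
    have h1 : Y / 8 ≤ Y := Nat.div_le_self _ _
    have h2 : Y ≤ Y ^ 3 := Nat.le_self_pow (by norm_num) Y
    omega
  have hBmem : ∀ i : B, 1 ≤ (i : ℕ) ∧ (i : ℕ) ≤ h := fun i =>
    Finset.mem_Icc.1 (Finset.mem_filter.1 i.2).1
  have hcop : ∀ p ∈ PP (Y ^ 3) z, Nat.Coprime p W := by
    intro p hp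
    rw [(hPprime p hp).coprime_iff_not_dvd]
    intro hd
    have := hWp p (hPprime p hp) hd
    have := hPw p hp
    omega
  have hcov := covering (ι := B) (PP (Y ^ 3) z) hPprime p1 hPw p2
    (by rw [Real.one_lt_exp_iff]
        have : 0 < Y := by
          rcases Nat.eq_zero_or_pos Y with h0 | h0
          · rw [h0] at p1; norm_num at p1
          · exact h0
        positivity) (fun i : B => (i : ℕ))
    (by
      intro p hp i j hij hmod
      apply hij
      have h1 := hPw p hp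
      have h2 := (hBmem i).2
      have h3 := (hBmem j).2
      exact Subtype.ext (Nat.ModEq.eq_of_lt_of_lt hmod (by omega) (by omega)))
    W (n₀ % W + W * K) K hcop hKpos p4 (by rw [Fintype.card_coe]; exact p5)
    (by rw [Fintype.card_coe]; exact p6) (by rw [Fintype.card_coe]; exact p7)
    (by rw [Fintype.card_coe]; exact p8) (by rw [Fintype.card_coe]; exact p9) hKerr
  -- injection
  have hKz : (z : ℝ) < K := by
    refine lt_of_le_of_lt p3 (lt_of_lt_of_le ?_ hKge)
    rw [lt_div_iff₀ (by positivity)]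
    have h1 : Real.exp (Y / 20) ≤ X ^ (1 / 20 : ℝ) := by
      rw [hXexp]; apply Real.exp_le_exp.2; linarith
    have h2 : X ^ (1 / 20 : ℝ) * X ^ (9 / 20 : ℝ) = X ^ (1 / 2 : ℝ) := by
      rw [← Real.rpow_add hX0]; norm_num
    have h3 : 0 < X ^ (1 / 20 : ℝ) := Real.rpow_pos_of_pos hX0 _
    have h5 : Real.exp (Y / 20) * 16 ≤ X ^ (1 / 2 : ℝ) := by
      rw [← h2]
      exact mul_le_mul h1 ht3 (by norm_num) h3.le
    have h6 : Real.exp (Y / 20) * (8 * W) * 2 ≤ X := by
      calc Real.exp (Y / 20) * (8 * W) * 2 = (Real.exp (Y / 20) * 16) * W := by ring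
        _ ≤ X ^ (1 / 2 : ℝ) * X ^ (1 / 2 : ℝ) :=
            mul_le_mul h5 hWX hWr0.le hXh0.le
        _ = X := hXhalf
    have h7 : 0 < Real.exp (Y / 20) * (8 * W) := by positivity
    linarith
  have hzK : z < K := by exact_mod_cast hKz
  have hYK : Y < K := by
    have h1 : (Y : ℝ) < K := by
      refine lt_of_lt_of_le ?_ hKge
      rw [lt_div_iff₀ (by positivity)]
      have h2 : (Y : ℝ) * (8 * W) ≤ (8 * Real.log X) * W := by nlinarith
      have h3 : (8 * Real.log X) * W < X ^ (1 / 2 : ℝ) * X ^ (1 / 2 : ℝ) := by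
        calc (8 * Real.log X) * W < X ^ (1 / 2 : ℝ) * W :=
              mul_lt_mul_of_pos_right (by linarith) hWr0
          _ ≤ _ := mul_le_mul_of_nonneg_left hWX hXh0.le
      rw [hXhalf] at h3
      linarith
    exact_mod_cast h1
  set Gd := (range K).filter (fun k => ∀ i : B, ∃ p ∈ PP (Y ^ 3) z,
    p ∣ n₀ % W + W * K + W * k + (i : ℕ)) with hGd
  set Tgt := (Icc 1 ⌊X⌋₊).filter fun n : ℕ =>
      ∀ q : ℕ, q.Prime → n < q → (n : ℝ) + c * RX X < q with hTgt
  have hcardle : Gd.card ≤ Tgt.card := by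
    apply Finset.card_le_card_of_injOn (fun k => n₀ % W + W * K + W * k)
    · intro k hk
      beta_reduce
      rw [Finset.mem_coe, hGd, Finset.mem_filter, Finset.mem_range] at hk
      obtain ⟨hkK, hk⟩ := hk
      have hnK : K ≤ n₀ % W + W * K + W * k := by
        have : K ≤ W * K := Nat.le_mul_of_pos_left K hW0
        omega
      rw [Finset.mem_coe, hTgt, Finset.mem_filter, Finset.mem_Icc]
      refine ⟨⟨by omega, ?_⟩, ?_⟩
      · apply Nat.le_floor
        have h1 : n₀ % W < W := Nat.mod_lt _ hW0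
        have h1' : ((n₀ % W : ℕ) : ℝ) ≤ W := by exact_mod_cast h1.le
        have h2 : (k : ℝ) ≤ K := by exact_mod_cast hkK.le
        push_cast
        have h3 : (W : ℝ) * K ≤ X / 4 := by
          calc (W : ℝ) * K ≤ W * (X / (4 * W)) := mul_le_mul_of_nonneg_left hKle hWr0.le
            _ = X / 4 := by field_simp
        have h4 : (W : ℝ) * k ≤ W * K := mul_le_mul_of_nonneg_left h2 hWr0.le
        have h5 : (W : ℝ) * 4 ≤ X := by nlinarith
        linarith
      · intro q hq hnq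
        by_contra hcon
        push Not at hcon
        have hq1 : q ≤ n₀ % W + W * K + W * k + h := by
          have h1 : (q : ℝ) ≤ ((n₀ % W + W * K + W * k : ℕ) : ℝ) + h := by
            refine hcon.trans ?_
            linarith
          exact_mod_cast h1
        obtain ⟨b, hb⟩ : ∃ b, q = n₀ % W + W * K + W * k + b := ⟨q - (n₀ % W + W * K + W * k), by omega⟩
        have hb1 : 1 ≤ b := by omega
        have hbh : b ≤ h := by omega
        by_cases hbc : (n₀ + b).Coprime W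
        · have hbB : b ∈ B := by
            rw [hB, Finset.mem_filter, Finset.mem_Icc]
            exact ⟨⟨hb1, hbh⟩, hbc⟩
          obtain ⟨p, hp, hpd⟩ := hk ⟨b, hbB⟩
          simp only at hpd
          rw [← hb] at hpd
          have h1 := (Nat.prime_dvd_prime_iff_eq (hPprime p hp) hq).1 hpd
          have h2 := hPz p hp
          omega
        · obtain ⟨p, hp, hp1, hp2⟩ := Nat.Prime.not_coprime_iff_dvd.1 hbc
          have h1 : p ∣ q := by
            have h2 : q = (n₀ % W + b) + W * (K + k) := by rw [hb]; ring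
            have h3 : n₀ + b = (n₀ % W + b) + W * (n₀ / W) := by
              have := Nat.mod_add_div n₀ W
              omega
            rw [h3] at hp1
            have h4 : p ∣ n₀ % W + b := (Nat.dvd_add_left (hp2.mul_right _)).1 hp1
            rw [h2]
            exact dvd_add h4 (hp2.mul_right _)
          have h5 := (Nat.prime_dvd_prime_iff_eq hp hq).1 h1
          have h6 := hWp p hp hp2
          omega
    · intro k _ k' _ hkk
      simp only at hkk
      have : W * k = W * k' := by omega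
      exact Nat.eq_of_mul_eq_mul_left hW0 this
  -- conclusion
  have hT4 : Real.exp (Y / 20) ^ 4 * W ≤ X ^ (2 * κ / 5) := by
    rw [← Real.exp_nat_mul]
    calc Real.exp ((4 : ℕ) * (Y / 20)) * W ≤ Real.exp ((4 : ℕ) * (Y / 20)) * Real.exp (Y / 5) := by
          apply mul_le_mul_of_nonneg_left hWr (Real.exp_pos _).le
      _ = Real.exp (2 * Y / 5) := by
          rw [← Real.exp_add]; congr 1; push_cast; ring
      _ ≤ X ^ (2 * κ / 5) := by
          rw [hXexp]; apply Real.exp_le_exp.2; nlinarith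
  have hcardr : (Gd.card : ℝ) ≤ Tgt.card := by exact_mod_cast hcardle
  have hmain : X ≤ 144 * X ^ (2 * κ / 5) * Tgt.card := by
    have h1 : X / (8 * W) ≤ 18 * Real.exp (Y / 20) ^ 4 * Tgt.card :=
      hKge.trans (hcov.trans (mul_le_mul_of_nonneg_left hcardr (by positivity)))
    rw [div_le_iff₀ (by positivity)] at h1
    have h2 : 0 ≤ (Tgt.card : ℝ) := by positivity
    calc X ≤ 18 * Real.exp (Y / 20) ^ 4 * Tgt.card * (8 * W) := h1
      _ = 144 * (Real.exp (Y / 20) ^ 4 * W) * Tgt.card := by ring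
      _ ≤ 144 * X ^ (2 * κ / 5) * Tgt.card := by
          apply mul_le_mul_of_nonneg_right _ h2
          linarith
  have h1 : X ^ (1 - ε) ≤ X ^ (1 - κ) :=
    Real.rpow_le_rpow_of_exponent_le hX1 (by linarith)
  refine h1.trans ?_
  have h2 : X ^ (2 * κ / 5) * X ^ (3 * κ / 5) * X ^ (1 - κ) = X := by
    rw [← Real.rpow_add hX0, ← Real.rpow_add hX0]
    have : 2 * κ / 5 + 3 * κ / 5 + (1 - κ) = 1 := by ring
    rw [this, Real.rpow_one]
  have h3 : 0 < X ^ (2 * κ / 5) := Real.rpow_pos_of_pos hX0 _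
  have h4 : 0 < X ^ (1 - κ) := Real.rpow_pos_of_pos hX0 _
  have h5 : 144 * X ^ (2 * κ / 5) * X ^ (1 - κ) ≤ 144 * X ^ (2 * κ / 5) * Tgt.card := by
    refine le_trans ?_ hmain
    calc 144 * X ^ (2 * κ / 5) * X ^ (1 - κ) ≤ X ^ (3 * κ / 5) * X ^ (2 * κ / 5) * X ^ (1 - κ) := by
          apply mul_le_mul_of_nonneg_right _ h4.le
          exact mul_le_mul_of_nonneg_right ht1 h3.le
      _ = X ^ (2 * κ / 5) * X ^ (3 * κ / 5) * X ^ (1 - κ) := by ring
      _ = X := h2
  exact le_of_mul_le_mul_left h5 (by positivity)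

end Pool.Agent.LibRG87
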