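import Pool.Agent.LibRG87.G2

/-!
Row G4: from prime free windows to gaps between consecutive primes. If `n ≥ 2` and there is no prime in
`(n, n + h]`, let `p` be the largest prime `≤ n` and `q` the smallest prime `> n` (`Nat.exists_infinite_primes`,
`Nat.find`): `q > n + h`, so `q - p > h`; with `k = Nat.primeCounting' p` (`Nat.nth Nat.Prime k = p`,
`Nat.nth_count`) the next one `Nat.nth Nat.Prime (k + 1)` is `q` (`Nat.nth_count`, `Nat.count_succ`,
`Nat.lt_nth_iff_count_lt`).
-/

namespace Pool.Agent.LibRG87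

theorem gap_of_window {n : ℕ} {h : ℝ} (hn : 2 ≤ n)
    (hw : ∀ q : ℕ, q.Prime → n < q → (n : ℝ) + h < q) :
    ∃ k : ℕ, Nat.nth Nat.Prime k ≤ n ∧
      h < (Nat.nth Nat.Prime (k + 1) : ℝ) - Nat.nth Nat.Prime k := by
  have h1 : 0 < Nat.count Nat.Prime (n + 1) := by
    have h2 : Nat.count Nat.Prime 3 ≤ Nat.count Nat.Prime (n + 1) :=
      Nat.count_monotone _ (by omega)
    have h3 : Nat.count Nat.Prime 3 = 1 := by decide
    omega
  refine ⟨Nat.count Nat.Prime (n + 1) - 1, ?_, ?_⟩
  · have h2 : Nat.nth Nat.Prime (Nat.count Nat.Prime (n + 1) - 1) < n + 1 :=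
      Nat.nth_lt_of_lt_count (by omega)
    omega
  · have h2 : Nat.nth Nat.Prime (Nat.count Nat.Prime (n + 1) - 1) < n + 1 :=
      Nat.nth_lt_of_lt_count (by omega)
    have h3 : Nat.count Nat.Prime (n + 1) - 1 + 1 = Nat.count Nat.Prime (n + 1) := by omega
    rw [h3]
    have h4 : n + 1 ≤ Nat.nth Nat.Prime (Nat.count Nat.Prime (n + 1)) :=
      Nat.le_nth_count Nat.infinite_setOfPred_prime _
    have h5 := hw _ (Nat.prime_nth_prime (Nat.count Nat.Prime (n + 1))) (by omega)
    have h6 : (Nat.nth Nat.Prime (Nat.count Nat.Prime (n + 1) - 1) : ℝ) ≤ n := by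
      exact_mod_cast Nat.lt_succ_iff.mp h2
    linarith

theorem G4_mono : ∀ᶠ x : ℝ in Filter.atTop, ∀ y : ℝ, x ≤ y → 0 ≤ RX x ∧ RX x ≤ RX y := by
  have t1 : Filter.Tendsto Real.log Filter.atTop Filter.atTop := Real.tendsto_log_atTop
  have t2 := t1.comp t1
  have t3 := t1.comp t2
  have t4 := t1.comp t3
  filter_upwards [Filter.eventually_ge_atTop (1 : ℝ), t1.eventually_ge_atTop 1,
    t2.eventually_ge_atTop (Real.exp 1), t3.eventually_ge_atTop 1, t4.eventually_ge_atTop 1]
    with x hx a1 a2 a3 a4 y hxy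
  simp only [Function.comp_apply] at a2 a3 a4
  have b1 : Real.log x ≤ Real.log y := Real.log_le_log (by linarith) hxy
  have b2 : Real.log (Real.log x) ≤ Real.log (Real.log y) := Real.log_le_log (by linarith) b1
  have e1 : (0 : ℝ) < Real.exp 1 := Real.exp_pos 1
  have b3 : Real.log (Real.log (Real.log x)) ≤ Real.log (Real.log (Real.log y)) :=
    Real.log_le_log (by linarith) b2
  have b4 : Real.log (Real.log (Real.log (Real.log x))) ≤
      Real.log (Real.log (Real.log (Real.log y))) := Real.log_le_log (by linarith) b3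
  have key := Real.log_div_self_antitoneOn (show Real.exp 1 ≤ Real.log (Real.log x) from a2)
    (show Real.exp 1 ≤ Real.log (Real.log y) from a2.trans b2) b2
  simp only at key
  have c1 : 0 < Real.log (Real.log (Real.log y)) / Real.log (Real.log y) := by
    apply div_pos <;> linarith
  have c2 : Real.log (Real.log x) / Real.log (Real.log (Real.log x)) ≤
      Real.log (Real.log y) / Real.log (Real.log (Real.log y)) := by
    rw [div_le_div_iff₀ (by linarith) (by linarith)] at key ⊢
    linarith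
  have c3 : 0 ≤ Real.log (Real.log x) / Real.log (Real.log (Real.log x)) := by
    apply div_nonneg <;> linarith
  have r : ∀ z : ℝ, RX z = Real.log z *
      (Real.log (Real.log z) / Real.log (Real.log (Real.log z))) ^ 2 *
      Real.log (Real.log (Real.log (Real.log z))) := by
    intro z
    unfold RX
    rw [div_pow]
    ring
  rw [r x, r y]
  constructor
  · have : (0 : ℝ) ≤ Real.log x := by linarith
    have : (0 : ℝ) ≤ Real.log (Real.log (Real.log (Real.log x))) := by linarith
    positivity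
  · have p1 : (Real.log (Real.log x) / Real.log (Real.log (Real.log x))) ^ 2 ≤
        (Real.log (Real.log y) / Real.log (Real.log (Real.log y))) ^ 2 :=
      pow_le_pow_left₀ c3 c2 2
    have p2 : Real.log x * (Real.log (Real.log x) / Real.log (Real.log (Real.log x))) ^ 2 ≤
        Real.log y * (Real.log (Real.log y) / Real.log (Real.log (Real.log y))) ^ 2 :=
      mul_le_mul b1 p1 (by positivity) (by linarith)
    exact mul_le_mul p2 b4 (by linarith)
      (mul_nonneg (by linarith) (by positivity))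

theorem G4_tendsto : Filter.Tendsto RX Filter.atTop Filter.atTop := by
  have t1 : Filter.Tendsto Real.log Filter.atTop Filter.atTop := Real.tendsto_log_atTop
  have t2 := t1.comp t1
  have t3 := t1.comp t2
  have t4 := t1.comp t3
  refine Filter.tendsto_atTop_mono' _ ?_ t1
  filter_upwards [t1.eventually_ge_atTop 1,
    t2.eventually_ge_atTop 1, t3.eventually_ge_atTop 1, t4.eventually_ge_atTop 1]
    with x a1 a2 a3 a4
  simp only [Function.comp_apply] at a2 a3 a4
  have c1 : Real.log (Real.log (Real.log x)) ≤ Real.log (Real.log x) := by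
    have := Real.log_le_sub_one_of_pos (show 0 < Real.log (Real.log x) by linarith)
    linarith
  unfold RX
  rw [le_div_iff₀ (by positivity)]
  have c2 : (Real.log (Real.log (Real.log x))) ^ 2 ≤ (Real.log (Real.log x)) ^ 2 :=
    pow_le_pow_left₀ (by linarith) c1 2
  calc Real.log x * (Real.log (Real.log (Real.log x))) ^ 2
      ≤ Real.log x * (Real.log (Real.log x)) ^ 2 :=
        mul_le_mul_of_nonneg_left c2 (by linarith)
    _ = Real.log x * (Real.log (Real.log x)) ^ 2 * 1 := by ring
    _ ≤ _ := mul_le_mul_of_nonneg_left a4 (mul_nonneg (by linarith) (by positivity))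

/-- gaps of the size `c R(X)` below `X` for all large `X` give infinitely many `k` -/
theorem infinitely_many {c : ℝ} (hc : 0 < c)
    (h : ∀ᶠ X : ℝ in Filter.atTop, ∃ k : ℕ, (Nat.nth Nat.Prime k : ℝ) ≤ X ∧
      c * RX X ≤ (Nat.nth Nat.Prime (k + 1) : ℝ) - Nat.nth Nat.Prime k) :
    ∃ᶠ k : ℕ in Filter.atTop, c / 2 * RX (Nat.nth Nat.Prime k) ≤
      (Nat.nth Nat.Prime (k + 1) : ℝ) - Nat.nth Nat.Prime k := by
  rw [Filter.frequently_atTop]
  intro K
  obtain ⟨X₁, hX₁⟩ := Filter.eventually_atTop.mp G4_mono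
  set K' : ℕ := max K ⌈X₁⌉₊ with hK'
  obtain ⟨X, ⟨k, hkX, hk⟩, hX⟩ := (h.and
    (G4_tendsto.eventually_gt_atTop ((Nat.nth Nat.Prime K' : ℝ) / c))).exists
  have hmono := Nat.nth_strictMono Nat.infinite_setOfPred_prime
  have hkK : K' ≤ k := by
    by_contra hlt
    have h1 : Nat.nth Nat.Prime (k + 1) ≤ Nat.nth Nat.Prime K' := hmono.monotone (by omega)
    have h2 : (Nat.nth Nat.Prime (k + 1) : ℝ) ≤ Nat.nth Nat.Prime K' := by exact_mod_cast h1
    have h3 : (0 : ℝ) ≤ Nat.nth Nat.Prime k := Nat.cast_nonneg _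
    rw [div_lt_iff₀ hc] at hX
    linarith
  refine ⟨k, le_trans (le_max_left _ _) hkK, ?_⟩
  have hle : X₁ ≤ (Nat.nth Nat.Prime k : ℝ) := by
    have h1 : k ≤ Nat.nth Nat.Prime k := hmono.le_apply
    have h2 : ⌈X₁⌉₊ ≤ Nat.nth Nat.Prime k := le_trans (le_trans (le_max_right _ _) hkK) h1
    exact le_trans (Nat.le_ceil X₁) (by exact_mod_cast h2)
  obtain ⟨m1, m2⟩ := hX₁ _ hle X hkX
  have h5 : c * RX (Nat.nth Nat.Prime k) ≤ c * RX X := mul_le_mul_of_nonneg_left m2 hc.le
  have h6 : c / 2 * RX (Nat.nth Nat.Prime k) ≤ c * RX (Nat.nth Nat.Prime k) := by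
    have : 0 ≤ c * RX (Nat.nth Nat.Prime k) := mul_nonneg hc.le m1
    linarith
  linarith

end Pool.Agent.LibRG87
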