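import Pool.Agent.LibRG87.R0

/-!
Row R5: facts on the coefficients `f(A) = -1/(Z log (rr A))` (`A ≠ ∅`, `rr A ≤ z`), `f(∅) = 1`.
(a), (b), (h) are the definition of `Z = ZZ P z` (`Z > 0` because `1 ≤ Z log w`). (c) `log (rr A) ≥ log w`
and `Z log w ≥ 1`. (e), (f): write `A = insert p A'`, `p ∉ A'`, `ph A = (p - 1) ph A'` and
`|f (insert p A')| ≤ |f A'|` (for `A' = ∅` this is (c), otherwise `rr` is larger, or `f (insert p A') = 0`).
-/

open Finset

namespace Pool.Agent.LibRG87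

variable {ι : Type} [Fintype ι] [DecidableEq ι] (P : Finset ℕ)
theorem ff_empty (z : ℝ) : ff P z ∅ = 1 := by
  simp [ff]

theorem ZZ_pos_of {P : Finset ℕ} {w z : ℝ} (hw : 1 < w) (hZ : 1 ≤ ZZ P z * Real.log w) : 0 < ZZ P z := by
  have hl : 0 < Real.log w := Real.log_pos hw
  by_contra hcon
  push Not at hcon
  nlinarith [mul_nonpos_of_nonpos_of_nonneg hcon hl.le]

theorem lt_rr {P : Finset ℕ} (hP : ∀ p ∈ P, Nat.Prime p) {w : ℝ} (hPw : ∀ p ∈ P, w < p)
    {A : Finset ℕ} (hA : A ⊆ P) (hA0 : A ≠ ∅) : w < rr A := by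
  obtain ⟨p, hp⟩ := Finset.nonempty_iff_ne_empty.mpr hA0
  have h1 : rr A = (p : ℝ) * rr (A.erase p) := by
    unfold rr
    rw [Finset.mul_prod_erase A (fun q => (q : ℝ)) hp]
  have h2 : 1 ≤ rr (A.erase p) := one_le_rr P hP ((Finset.erase_subset p A).trans hA)
  have h3 : w < p := hPw p (hA hp)
  have h4 : (0 : ℝ) ≤ p := Nat.cast_nonneg p
  rw [h1]
  nlinarith

theorem log_rr_pos {P : Finset ℕ} (hP : ∀ p ∈ P, Nat.Prime p) {w : ℝ} (hw : 1 < w)
    (hPw : ∀ p ∈ P, w < p) {A : Finset ℕ} (hA : A ⊆ P) (hA0 : A ≠ ∅) : 0 < Real.log (rr A) :=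
  Real.log_pos (hw.trans (lt_rr hP hPw hA hA0))

open scoped Classical in
/-- the summand of `ZZ` -/
noncomputable def qq (z : ℝ) (A : Finset ℕ) : ℝ :=
  if A.Nonempty ∧ rr A ≤ z then 1 / (ph A * Real.log (rr A)) else 0

open scoped Classical in
theorem ZZ_eq_sum (z : ℝ) : ZZ P z = ∑ A ∈ P.powerset, qq z A := by
  unfold ZZ qq
  rw [Finset.sum_filter]

theorem rr_empty : rr ∅ = 1 := by simp [rr]

theorem ph_empty : ph ∅ = 1 := by simp [ph]

open scoped Classical in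
theorem ff_div_eq {P : Finset ℕ} (z : ℝ) (A : Finset ℕ) :
    ff P z A / ph A = (if A = ∅ then 1 else 0) - qq z A / ZZ P z := by
  unfold ff qq
  by_cases hA0 : A = ∅
  · subst hA0
    simp [ph_empty]
  · have hne : A.Nonempty := Finset.nonempty_iff_ne_empty.mpr hA0
    by_cases hz : rr A ≤ z
    · simp only [hA0, if_false, hz, if_true, hne, true_and]
      simp only [one_div, mul_inv, div_eq_mul_inv, neg_mul]
      ring
    · simp [hA0, hz]

theorem qq_nonneg {P : Finset ℕ} (hP : ∀ p ∈ P, Nat.Prime p) {w : ℝ} (hw : 1 < w)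
    (hPw : ∀ p ∈ P, w < p) (z : ℝ) {A : Finset ℕ} (hA : A ⊆ P) : 0 ≤ qq z A := by
  classical
  unfold qq
  split_ifs with h
  · have h1 : 0 < ph A := ph_pos P hP hA
    have h2 : 0 < Real.log (rr A) := log_rr_pos hP hw hPw hA (Finset.nonempty_iff_ne_empty.mp h.1)
    positivity
  · exact le_refl 0

theorem ff_nonpos' {P : Finset ℕ} (hP : ∀ p ∈ P, Nat.Prime p) {w z : ℝ} (hw : 1 < w) (hPw : ∀ p ∈ P, w < p)
    (hZ : 1 ≤ ZZ P z * Real.log w) {A : Finset ℕ} (hA : A ⊆ P) (hA0 : A ≠ ∅) : ff P z A ≤ 0 := by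
  classical
  have hZ0 := ZZ_pos_of hw hZ
  have hl := log_rr_pos hP hw hPw hA hA0
  unfold ff
  rw [if_neg hA0]
  split_ifs with h
  · have : 0 < 1 / (ZZ P z * Real.log (rr A)) := by positivity
    linarith
  · exact le_refl 0

open scoped Classical in
theorem abs_ff_div_eq {P : Finset ℕ} (hP : ∀ p ∈ P, Nat.Prime p) {w z : ℝ} (hw : 1 < w)
    (hPw : ∀ p ∈ P, w < p) (hZ : 1 ≤ ZZ P z * Real.log w) {A : Finset ℕ} (hA : A ⊆ P) :
    |ff P z A| / ph A = (if A = ∅ then 1 else 0) + qq z A / ZZ P z := by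
  by_cases hA0 : A = ∅
  · subst hA0
    simp [ff_empty, ph_empty, qq]
  · have h1 := ff_div_eq (P := P) z A
    rw [if_neg hA0] at h1 ⊢
    rw [abs_of_nonpos (ff_nonpos' hP hw hPw hZ hA hA0), neg_div, h1]
    ring

open scoped Classical in
theorem sum_ite_empty : ∑ A ∈ P.powerset, (if A = ∅ then (1 : ℝ) else 0) = 1 := by
  rw [Finset.sum_ite_eq' P.powerset ∅ (fun _ => (1 : ℝ))]
  simp

theorem sum_ff (hP : ∀ p ∈ P, Nat.Prime p) {w z : ℝ} (hw : 1 < w) (hPw : ∀ p ∈ P, w < p)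
    (hZ : 1 ≤ ZZ P z * Real.log w) : ∑ A ∈ P.powerset, ff P z A / ph A = 0 := by
  classical
  have hZ0 := ZZ_pos_of hw hZ
  rw [Finset.sum_congr rfl (fun A _ => ff_div_eq (P := P) z A), Finset.sum_sub_distrib,
    ← Finset.sum_div, ← ZZ_eq_sum P z, div_self hZ0.ne', sum_ite_empty P, sub_self]

theorem sum_abs_ff (hP : ∀ p ∈ P, Nat.Prime p) {w z : ℝ} (hw : 1 < w) (hPw : ∀ p ∈ P, w < p)
    (hZ : 1 ≤ ZZ P z * Real.log w) : ∑ A ∈ P.powerset, |ff P z A| / ph A = 2 := by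
  classical
  have hZ0 := ZZ_pos_of hw hZ
  rw [Finset.sum_congr rfl (fun A hA => abs_ff_div_eq hP hw hPw hZ (Finset.mem_powerset.mp hA)),
    Finset.sum_add_distrib, ← Finset.sum_div, ← ZZ_eq_sum P z, div_self hZ0.ne', sum_ite_empty P]
  norm_num

theorem sum_FF_log (hP : ∀ p ∈ P, Nat.Prime p) {w z : ℝ} (hw : 1 < w) (hPw : ∀ p ∈ P, w < p)
    (hZ : 1 ≤ ZZ P z * Real.log w) :
    ∑ A ∈ P.powerset, FF P z A * Real.log (rr A) = 1 / ZZ P z := by
  classical
  have hZ0 := ZZ_pos_of hw hZ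
  have h1 : ∀ A ∈ P.powerset, FF P z A * Real.log (rr A) = qq z A / ZZ P z ^ 2 := by
    intro A hA
    have hA' := Finset.mem_powerset.mp hA
    unfold FF ff qq
    by_cases hA0 : A = ∅
    · subst hA0
      simp [rr_empty]
    · have hne : A.Nonempty := Finset.nonempty_iff_ne_empty.mpr hA0
      have hl := log_rr_pos hP hw hPw hA' hA0
      have hp := ph_pos P hP hA'
      by_cases hz : rr A ≤ z
      · simp only [hA0, if_false, hz, if_true, hne, true_and]
        field_simp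
      · simp [hA0, hz]
  rw [Finset.sum_congr rfl h1, ← Finset.sum_div, ← ZZ_eq_sum P z]
  field_simp

theorem abs_ff_le (hP : ∀ p ∈ P, Nat.Prime p) {w z : ℝ} (hw : 1 < w) (hPw : ∀ p ∈ P, w < p)
    (hZ : 1 ≤ ZZ P z * Real.log w) {A : Finset ℕ} (hA : A ⊆ P) : |ff P z A| ≤ 1 := by
  classical
  have hZ0 := ZZ_pos_of hw hZ
  by_cases hA0 : A = ∅
  · subst hA0
    simp [ff_empty]
  · have hl := log_rr_pos hP hw hPw hA hA0
    unfold ff
    rw [if_neg hA0]
    split_ifs with h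
    · rw [abs_neg, abs_of_nonneg (by positivity), div_le_one (by positivity)]
      refine hZ.trans (mul_le_mul_of_nonneg_left ?_ hZ0.le)
      exact Real.log_le_log (by linarith) (lt_rr hP hPw hA hA0).le
    · simp

theorem ff_nonpos (hP : ∀ p ∈ P, Nat.Prime p) {w z : ℝ} (hw : 1 < w) (hPw : ∀ p ∈ P, w < p)
    (hZ : 1 ≤ ZZ P z * Real.log w) {A : Finset ℕ} (hA : A ⊆ P) (hA0 : A ≠ ∅) : ff P z A ≤ 0 :=
  ff_nonpos' hP hw hPw hZ hA hA0

theorem ff_le_rr {z : ℝ} {A : Finset ℕ} (hA0 : A ≠ ∅) (h : ff P z A ≠ 0) : rr A ≤ z := by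
  classical
  by_contra hcon
  apply h
  unfold ff
  rw [if_neg hA0, if_neg hcon]

theorem FF_nonneg (hP : ∀ p ∈ P, Nat.Prime p) (z : ℝ) {A : Finset ℕ} (hA : A ⊆ P) :
    0 ≤ FF P z A := by
  unfold FF
  exact div_nonneg (sq_nonneg _) (ph_pos P hP hA).le

theorem one_le_SS (hP : ∀ p ∈ P, Nat.Prime p) (z : ℝ) : 1 ≤ SS P z := by
  unfold SS
  have h1 : FF P z ∅ = 1 := by simp [FF, ff_empty, ph_empty]
  rw [← h1]
  exact Finset.single_le_sum (f := fun A => FF P z A)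
    (fun A hA => FF_nonneg P hP z (Finset.mem_powerset.mp hA)) (Finset.empty_mem_powerset P)

/-- the coefficient decreases when a prime is added -/
theorem abs_ff_erase {P : Finset ℕ} (hP : ∀ p ∈ P, Nat.Prime p) {w z : ℝ} (hw : 1 < w)
    (hPw : ∀ p ∈ P, w < p) (hZ : 1 ≤ ZZ P z * Real.log w) {A : Finset ℕ} (hA : A ⊆ P) {p : ℕ}
    (hp : p ∈ A) : |ff P z A| ≤ |ff P z (A.erase p)| := by
  classical
  have hZ0 := ZZ_pos_of hw hZ
  have hA0 : A ≠ ∅ := Finset.nonempty_iff_ne_empty.mp ⟨p, hp⟩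
  have hE : A.erase p ⊆ P := (Finset.erase_subset p A).trans hA
  by_cases hE0 : A.erase p = ∅
  · rw [hE0, ff_empty, abs_one]
    exact abs_ff_le P hP hw hPw hZ hA
  · by_cases hz : rr A ≤ z
    · have h1 : rr A = (p : ℝ) * rr (A.erase p) := by
        unfold rr
        rw [Finset.mul_prod_erase A (fun q => (q : ℝ)) hp]
      have h2 : 1 ≤ rr (A.erase p) := one_le_rr P hP hE
      have h3 : (1 : ℝ) < p := hw.trans (hPw p (hA hp))
      have h4 : rr (A.erase p) ≤ rr A := by rw [h1]; nlinarith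
      have hl := log_rr_pos hP hw hPw hE hE0
      have hl' := log_rr_pos hP hw hPw hA hA0
      unfold ff
      rw [if_neg hA0, if_neg hE0, if_pos hz, if_pos (h4.trans hz), abs_neg, abs_neg,
        abs_of_nonneg (by positivity), abs_of_nonneg (by positivity)]
      apply one_div_le_one_div_of_le (by positivity)
      exact mul_le_mul_of_nonneg_left (Real.log_le_log (by linarith) h4) hZ0.le
    · have : ff P z A = 0 := by
        unfold ff
        rw [if_neg hA0, if_neg hz]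
      rw [this, abs_zero]
      exact abs_nonneg _

theorem ph_erase {A : Finset ℕ} {p : ℕ} (hp : p ∈ A) : ph A = ((p : ℝ) - 1) * ph (A.erase p) := by
  unfold ph
  rw [Finset.mul_prod_erase A (fun q => (q : ℝ) - 1) hp]

open scoped Classical in
/-- sums over the sets which contain `p` -/
theorem sum_mem_le {P : Finset ℕ} {p : ℕ} (g : Finset ℕ → ℝ) (hg : ∀ A ∈ P.powerset, 0 ≤ g A) (c : ℝ)
    (hc : 0 ≤ c) (h : ∀ A ∈ P.powerset, p ∈ A → g A ≤ g (A.erase p) * c) :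
    ∑ A ∈ P.powerset with p ∈ A, g A ≤ (∑ A ∈ P.powerset, g A) * c := by
  have h1 : ∑ A ∈ P.powerset with p ∈ A, g A ≤ ∑ A ∈ P.powerset with p ∈ A, g (A.erase p) * c := by
    refine Finset.sum_le_sum fun A hA => ?_
    rw [Finset.mem_filter] at hA
    exact h A hA.1 hA.2
  refine h1.trans ?_
  rw [← Finset.sum_mul]
  apply mul_le_mul_of_nonneg_right _ hc
  have hinj : Set.InjOn (fun A : Finset ℕ => A.erase p) (P.powerset.filter fun A => p ∈ A) := by
    intro A hA B hB hAB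
    rw [Finset.mem_coe, Finset.mem_filter] at hA hB
    have := congrArg (insert p) hAB
    simpa [Finset.insert_erase hA.2, Finset.insert_erase hB.2] using this
  rw [← Finset.sum_image hinj (f := g)]
  refine Finset.sum_le_sum_of_subset_of_nonneg ?_ (fun A hA _ => hg A hA)
  intro B hB
  rw [Finset.mem_image] at hB
  obtain ⟨A, hA, rfl⟩ := hB
  rw [Finset.mem_filter, Finset.mem_powerset] at hA
  exact Finset.mem_powerset.mpr ((Finset.erase_subset p A).trans hA.1)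

open scoped Classical in
theorem sum_FF_mem (hP : ∀ p ∈ P, Nat.Prime p) {w z : ℝ} (hw : 1 < w) (hPw : ∀ p ∈ P, w < p)
    (hZ : 1 ≤ ZZ P z * Real.log w) {p : ℕ} (hp : p ∈ P) :
    ∑ A ∈ P.powerset with p ∈ A, FF P z A ≤ (∑ A ∈ P.powerset, FF P z A) / ((p : ℝ) - 1) := by
  have hp1 : 0 < (p : ℝ) - 1 := by have := hPw p hp; linarith
  rw [div_eq_mul_inv]
  refine sum_mem_le (FF P z) (fun A hA => FF_nonneg P hP z (Finset.mem_powerset.mp hA)) _
    (inv_nonneg.mpr hp1.le) ?_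
  intro A hA hpA
  have hA' := Finset.mem_powerset.mp hA
  have hE : A.erase p ⊆ P := (Finset.erase_subset p A).trans hA'
  have h0 := ph_pos P hP hE
  have h1 := abs_ff_erase hP hw hPw hZ hA' hpA
  unfold FF
  rw [ph_erase hpA]
  have h2 : ff P z A ^ 2 ≤ ff P z (A.erase p) ^ 2 := sq_le_sq.mpr h1
  calc ff P z A ^ 2 / (((p : ℝ) - 1) * ph (A.erase p))
      ≤ ff P z (A.erase p) ^ 2 / (((p : ℝ) - 1) * ph (A.erase p)) :=
        div_le_div_of_nonneg_right h2 (by positivity)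
    _ = ff P z (A.erase p) ^ 2 / ph (A.erase p) * ((p : ℝ) - 1)⁻¹ := by
        field_simp

open scoped Classical in
theorem sum_ff_mem (hP : ∀ p ∈ P, Nat.Prime p) {w z : ℝ} (hw : 1 < w) (hPw : ∀ p ∈ P, w < p)
    (hZ : 1 ≤ ZZ P z * Real.log w) {p : ℕ} (hp : p ∈ P) :
    ∑ A ∈ P.powerset with p ∈ A, |ff P z A| / ph A ≤ 2 / ((p : ℝ) - 1) := by
  have hp1 : 0 < (p : ℝ) - 1 := by have := hPw p hp; linarith
  rw [div_eq_mul_inv, ← sum_abs_ff P hP hw hPw hZ]
  refine sum_mem_le (fun A => |ff P z A| / ph A)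
    (fun A hA => div_nonneg (abs_nonneg _) (ph_pos P hP (Finset.mem_powerset.mp hA)).le) _
    (inv_nonneg.mpr hp1.le) ?_
  intro A hA hpA
  have hA' := Finset.mem_powerset.mp hA
  have hE : A.erase p ⊆ P := (Finset.erase_subset p A).trans hA'
  have h0 := ph_pos P hP hE
  have h1 := abs_ff_erase hP hw hPw hZ hA' hpA
  show |ff P z A| / ph A ≤ |ff P z (A.erase p)| / ph (A.erase p) * ((p : ℝ) - 1)⁻¹
  rw [ph_erase hpA]
  calc |ff P z A| / (((p : ℝ) - 1) * ph (A.erase p))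
      ≤ |ff P z (A.erase p)| / (((p : ℝ) - 1) * ph (A.erase p)) :=
        div_le_div_of_nonneg_right h1 (by positivity)
    _ = |ff P z (A.erase p)| / ph (A.erase p) * ((p : ℝ) - 1)⁻¹ := by
        field_simp

end Pool.Agent.LibRG87
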