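import Pool.Agent.LibRG87.R2
import Pool.Agent.LibRG87.R3
import Pool.Agent.LibRG87.R4
import Pool.Agent.LibRG87.R5
import Pool.Agent.LibRG87.R6

/-!
Row R12: the diagonal forms of the coefficients `yy` and `yc`.
-/

open Finset

namespace Pool.Agent.LibRG87

variable {ι : Type} [Fintype ι] [DecidableEq ι] (P : Finset ℕ)

theorem prod_FF (z : ℝ) (β : P → Option ι) :
    ∏ i, FF P z (fb P β i) = (∏ i, ff P z (fb P β i)) ^ 2 / ph (sp P β) := by
  rw [ph_sp]
  simp only [FF]
  rw [Finset.prod_div_distrib, Finset.prod_pow]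

theorem DD_yy (z T : ℝ) : DD P (yy P z T : (P → Option ι) → ℝ) =
    ∑ β : P → Option ι, if rr (sp P β) ≤ T then ∏ i, FF P z (fb P β i) else 0 := by
  unfold DD
  refine Finset.sum_congr rfl fun β _ => ?_
  unfold yy
  split_ifs with h
  · rw [prod_FF]
  · simp

theorem prod_FF_nonneg (hP : ∀ p ∈ P, Nat.Prime p) (z : ℝ) (β : P → Option ι) :
    0 ≤ ∏ i, FF P z (fb P β i) :=
  Finset.prod_nonneg fun i _ => FF_nonneg P hP z (fb_subset P β i)

theorem DD_yy_ge (hP : ∀ p ∈ P, Nat.Prime p) {w z T : ℝ} (hw : 1 < w) (hPw : ∀ p ∈ P, w < p)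
    (hZ : 1 ≤ ZZ P z * Real.log w) (hT : 1 < T) :
    SS P z ^ Fintype.card ι * (1 - (Fintype.card ι : ℝ) ^ 2 * ∑ p ∈ P, 1 / ((p : ℝ) - 1) ^ 2 -
        Fintype.card ι * (1 / ZZ P z) / Real.log T) ≤
      DD P (yy P z T : (P → Option ι) → ℝ) := by
  classical
  have hF : ∀ A ∈ P.powerset, 0 ≤ FF P z A := fun A hA =>
    FF_nonneg P hP z (Finset.mem_powerset.1 hA)
  have h1 := sum_beta_ge (ι := ι) P hP (FF P z) hF (fun p hp => sum_FF_mem P hP hw hPw hZ hp)
  have h2 := markov (ι := ι) P hP (FF P z) hF (one_le_SS P hP z) hT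
  have h3 : ∑ β : P → Option ι, (if T < ∏ i, rr (fb P β i) then ∏ i, FF P z (fb P β i) else 0) ≤
      ∑ A ∈ Fintype.piFinset (fun _ : ι => P.powerset),
        (if T < ∏ i, rr (A i) then ∏ i, FF P z (A i) else 0) := by
    refine sum_beta_le P (fun A => if T < ∏ i, rr (A i) then ∏ i, FF P z (A i) else 0)
      fun A hA => ?_
    split_ifs
    · exact Finset.prod_nonneg fun i _ => hF _ (Fintype.mem_piFinset.1 hA i)
    · exact le_rfl
  rw [sum_FF_log P hP hw hPw hZ, Finset.sum_filter] at h2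
  have h4 : ∑ β : P → Option ι, ∏ i, FF P z (fb P β i) =
      DD P (yy P z T : (P → Option ι) → ℝ) +
        ∑ β : P → Option ι, (if T < ∏ i, rr (fb P β i) then ∏ i, FF P z (fb P β i) else 0) := by
    rw [DD_yy, ← Finset.sum_add_distrib]
    refine Finset.sum_congr rfl fun β _ => ?_
    rw [← rr_sp]
    split_ifs with h h' h'
    · exact absurd h' (not_lt.2 h)
    · simp
    · simp
    · exact absurd (not_le.1 h) h'
  change SS P z ^ _ * _ ≤ _ at h1
  change _ ≤ SS P z ^ _ * _ at h2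
  have h5 : SS P z ^ Fintype.card ι * (1 - (Fintype.card ι : ℝ) ^ 2 * ∑ p ∈ P, 1 / ((p : ℝ) - 1) ^ 2 -
        Fintype.card ι * (1 / ZZ P z) / Real.log T) =
      SS P z ^ Fintype.card ι * (1 - (Fintype.card ι : ℝ) ^ 2 * ∑ p ∈ P, 1 / ((p : ℝ) - 1) ^ 2) -
      SS P z ^ Fintype.card ι * (Fintype.card ι * (1 / ZZ P z) / Real.log T) := by ring
  rw [h5]
  linarith

theorem card_sp_le (hP : ∀ p ∈ P, Nat.Prime p) {w : ℝ} (hw : 1 < w) (hPw : ∀ p ∈ P, w < p)
    (β : P → Option ι) : ((sp P β).card : ℝ) * Real.log w ≤ Real.log (rr (sp P β)) := by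
  unfold rr
  rw [Real.log_prod (fun p hp => by
    have := (hP p (sp_subset P β hp)).pos
    positivity)]
  rw [← nsmul_eq_mul]
  refine Finset.card_nsmul_le_sum _ _ _ fun p hp => ?_
  exact Real.log_le_log (by linarith) (hPw p (sp_subset P β hp)).le

theorem DD_yc_le (hP : ∀ p ∈ P, Nat.Prime p) {w z T : ℝ} (hw : 1 < w) (hPw : ∀ p ∈ P, w < p)
    (hZ : 1 ≤ ZZ P z * Real.log w) (hz : 1 < z) (hT : 1 < T) (i₀ : ι) :
    DD P (yc P z T i₀) ≤ SS P z ^ Fintype.card ι *
      ((2 * Real.log T / ((w - 1) * Real.log w)) ^ 2 +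
        Real.exp (-(Real.log (T / z) / Real.log z) +
          2 * (Fintype.card ι * (1 / ZZ P z) / Real.log z))) := by
  classical
  have hlw : 0 < Real.log w := Real.log_pos hw
  have hF : ∀ A ∈ P.powerset, 0 ≤ FF P z A := fun A hA =>
    FF_nonneg P hP z (Finset.mem_powerset.1 hA)
  have hFz : ∀ A ∈ P.powerset, FF P z A ≠ 0 → rr A ≤ z := by
    intro A _ h
    by_cases hA0 : A = ∅
    · subst hA0
      simp [rr, hz.le]
    · apply ff_le_rr P hA0
      intro h0
      apply h
      simp [FF, h0]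
  have h2 := chernoff (ι := ι) P hP (FF P z) hF (one_le_SS P hP z) hz
    (div_pos (by linarith : (0:ℝ) < T) (by linarith : (0:ℝ) < z)) hFz
  rw [sum_FF_log P hP hw hPw hZ, Finset.sum_filter] at h2
  have h3 : ∑ β : P → Option ι, (if T / z < ∏ i, rr (fb P β i) then ∏ i, FF P z (fb P β i) else 0) ≤
      ∑ A ∈ Fintype.piFinset (fun _ : ι => P.powerset),
        (if T / z < ∏ i, rr (A i) then ∏ i, FF P z (A i) else 0) := by
    refine sum_beta_le P (fun A => if T / z < ∏ i, rr (A i) then ∏ i, FF P z (A i) else 0)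
      fun A hA => ?_
    split_ifs
    · exact Finset.prod_nonneg fun i _ => hF _ (Fintype.mem_piFinset.1 hA i)
    · exact le_rfl
  have h4 : ∑ β : P → Option ι, ∏ i, FF P z (fb P β i) ≤ SS P z ^ Fintype.card ι := by
    rw [SS, ← sum_fam_prod (ι := ι) P (FF P z)]
    exact sum_beta_le P (fun A => ∏ i, FF P z (A i)) fun A hA =>
      Finset.prod_nonneg fun i _ => hF _ (Fintype.mem_piFinset.1 hA i)
  set ε : ℝ := 2 * Real.log T / ((w - 1) * Real.log w) with hε
  have hT0 : 0 < Real.log T := Real.log_pos hT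
  have hε0 : 0 ≤ ε := by
    rw [hε]
    have : 0 < w - 1 := by linarith
    positivity
  have h5 : DD P (yc P z T i₀) ≤ ∑ β : P → Option ι, (ε ^ 2 * ∏ i, FF P z (fb P β i) +
      (if T / z < ∏ i, rr (fb P β i) then ∏ i, FF P z (fb P β i) else 0)) := by
    unfold DD
    refine Finset.sum_le_sum fun β _ => ?_
    have hn := prod_FF_nonneg P hP z β
    unfold yc
    split_ifs with ha hb hb
    · have hc1 := cc_le_one P hP hw hPw hZ (T := T) β
      have hc0 := cc_nonneg P hP hw hPw hZ (T := T) β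
      rw [mul_pow, mul_div_right_comm, ← prod_FF]
      have : cc P z T β ^ 2 ≤ 1 := by nlinarith
      nlinarith [mul_nonneg (sq_nonneg ε) hn]
    · rw [← rr_sp, not_lt] at hb
      have hc0 := cc_nonneg P hP hw hPw hZ (T := T) β
      have hb' : rr (sp P β) * z ≤ T := by
        rwa [le_div_iff₀ (by linarith)] at hb
      have hc := cc_small P hP hw hPw hZ β hb' hz
      have hr0 := rr_pos P hP (sp_subset P β)
      have hcard := card_sp_le P hP hw hPw β
      have hr : Real.log (rr (sp P β)) ≤ Real.log T := by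
        apply Real.log_le_log hr0
        nlinarith
      have hc2 : cc P z T β ≤ ε := by
        refine hc.trans ?_
        rw [hε, div_le_div_iff₀ (by linarith) (mul_pos (by linarith) hlw)]
        have : 0 ≤ w - 1 := by linarith
        nlinarith [mul_le_mul_of_nonneg_left (hcard.trans hr) this]
      rw [mul_pow, mul_div_right_comm, ← prod_FF]
      have : cc P z T β ^ 2 ≤ ε ^ 2 := by nlinarith
      nlinarith
    · simp only [ne_eq, OfNat.ofNat_ne_zero, not_false_eq_true, zero_pow, zero_div]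
      have := mul_nonneg (sq_nonneg ε) hn
      linarith
    · simp only [ne_eq, OfNat.ofNat_ne_zero, not_false_eq_true, zero_pow, zero_div]
      have := mul_nonneg (sq_nonneg ε) hn
      linarith
  rw [Finset.sum_add_distrib, ← Finset.mul_sum] at h5
  have h6 : 0 ≤ ε ^ 2 := sq_nonneg ε
  have h7 := mul_le_mul_of_nonneg_left h4 h6
  change _ ≤ SS P z ^ _ * _ at h2
  have h8 : SS P z ^ Fintype.card ι * (ε ^ 2 + Real.exp (-(Real.log (T / z) / Real.log z) +
          2 * (Fintype.card ι * (1 / ZZ P z) / Real.log z))) = ε ^ 2 * SS P z ^ Fintype.card ι +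
      SS P z ^ Fintype.card ι * Real.exp (-(Real.log (T / z) / Real.log z) +
          2 * (Fintype.card ι * (1 / ZZ P z) / Real.log z)) := by ring
  rw [h8]
  linarith

end Pool.Agent.LibRG87
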