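import Pool.Agent.LibRG87.R8c
import Pool.Agent.LibRG87.R9

/-!
Row R14: the mean square of `PhiF` is the quadratic form, up to a small error.
-/

open Finset

namespace Pool.Agent.LibRG87

variable {ι : Type} [Fintype ι] [DecidableEq ι] (P : Finset ℕ)

theorem avg_sq (hP : ∀ p ∈ P, Nat.Prime p) (hP3 : ∀ p ∈ P, 3 ≤ p) (b : ι → ℕ)
    (hb : ∀ p ∈ P, ∀ i j : ι, i ≠ j → ¬ b i ≡ b j [MOD p]) (W n₀ K : ℕ)
    (hW : ∀ p ∈ P, Nat.Coprime p W) (hK : 0 < K) {w : ℕ} (hw : 2 ≤ w) (hPw : ∀ p ∈ P, w < p)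
    (hN : Fintype.card ι + 1 ≤ w) {T : ℝ} (hT : 1 ≤ T) (y : (P → Option ι) → ℝ)
    (hy : ∀ β, |y β| ≤ 1) (hyT : ∀ β, T < rr (sp P β) → y β = 0) :
    |(∑ k ∈ range K, PhiF P b y (n₀ + W * k) ^ 2) / (K : ℝ) - QQ P y| ≤ 18 * T ^ 6 / K := by
  classical
  have hK' : (0 : ℝ) < K := by exact_mod_cast hK
  have h1 : (∑ k ∈ range K, PhiF P b y (n₀ + W * k) ^ 2) / (K : ℝ) - QQ P y =
      ∑ β, ∑ β', y β * y β' * ((∑ k ∈ range K, ee P b β (n₀ + W * k) * ee P b β' (n₀ + W * k)) / (K : ℝ) -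
        KK P β β') := by
    have h2 : ∀ n, PhiF P b y n ^ 2 = ∑ β, ∑ β', y β * y β' * (ee P b β n * ee P b β' n) := by
      intro n
      rw [pow_two, PhiF, Finset.sum_mul_sum]
      refine Finset.sum_congr rfl fun β _ => Finset.sum_congr rfl fun β' _ => ?_
      ring
    simp only [h2]
    rw [Finset.sum_comm, Finset.sum_div]
    simp only [QQ]
    rw [← Finset.sum_sub_distrib]
    refine Finset.sum_congr rfl fun β _ => ?_
    rw [Finset.sum_comm, Finset.sum_div, ← Finset.sum_sub_distrib]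
    refine Finset.sum_congr rfl fun β' _ => ?_
    rw [← Finset.mul_sum]
    ring
  rw [h1]
  have h3 : ∀ β β', |y β * y β' * ((∑ k ∈ range K, ee P b β (n₀ + W * k) * ee P b β' (n₀ + W * k)) / (K : ℝ) -
        KK P β β')| ≤ (if rr (sp P β) ≤ T then (1 : ℝ) else 0) *
          (if rr (sp P β') ≤ T then (1 : ℝ) else 0) * (2 * T ^ 2 / K) := by
    intro β β'
    by_cases h : rr (sp P β) ≤ T
    · by_cases h' : rr (sp P β') ≤ T
      · rw [if_pos h, if_pos h', one_mul, one_mul, abs_mul, abs_mul]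
        have h4 := avg_ee P hP hP3 b hb W n₀ K hW hK β β'
        have h5 : 2 * (rr (sp P β) * rr (sp P β')) / K ≤ 2 * T ^ 2 / K := by
          have hp := rr_pos P hP (sp_subset P β)
          have hp' := rr_pos P hP (sp_subset P β')
          apply div_le_div_of_nonneg_right _ hK'.le
          nlinarith
        have h6 : |y β| * |y β'| ≤ 1 := by
          have := hy β
          have := hy β'
          nlinarith [abs_nonneg (y β), abs_nonneg (y β')]
        calc _ ≤ 1 * (2 * T ^ 2 / K) :=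
              mul_le_mul h6 (h4.trans h5) (abs_nonneg _) zero_le_one
          _ = _ := one_mul _
      · rw [if_neg h', hyT β' (not_le.1 h')]
        simp
    · rw [if_neg h, hyT β (not_le.1 h)]
      simp
  have h7 := card_beta (ι := ι) P hw hPw hN hT
  refine (Finset.abs_sum_le_sum_abs _ _).trans ?_
  refine (Finset.sum_le_sum fun β _ => (Finset.abs_sum_le_sum_abs _ _).trans
    (Finset.sum_le_sum fun β' _ => h3 β β')).trans ?_
  have h8 : ∑ β : P → Option ι, ∑ β' : P → Option ι, (if rr (sp P β) ≤ T then (1 : ℝ) else 0) *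
          (if rr (sp P β') ≤ T then (1 : ℝ) else 0) * (2 * T ^ 2 / K) =
      (∑ β : P → Option ι, (if rr (sp P β) ≤ T then (1 : ℝ) else 0)) ^ 2 * (2 * T ^ 2 / K) := by
    rw [sq (∑ β : P → Option ι, (if rr (sp P β) ≤ T then (1 : ℝ) else 0)), Finset.sum_mul_sum,
      Finset.sum_mul]
    refine Finset.sum_congr rfl fun β _ => ?_
    rw [Finset.sum_mul]
  rw [h8]
  have h9 : 0 ≤ ∑ β : P → Option ι, (if rr (sp P β) ≤ T then (1 : ℝ) else 0) :=
    Finset.sum_nonneg fun β _ => by split_ifs <;> norm_num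
  have h10 : (∑ β : P → Option ι, (if rr (sp P β) ≤ T then (1 : ℝ) else 0)) ^ 2 ≤ (3 * T ^ 2) ^ 2 :=
    pow_le_pow_left₀ h9 h7 2
  calc _ ≤ (3 * T ^ 2) ^ 2 * (2 * T ^ 2 / K) :=
        mul_le_mul_of_nonneg_right h10 (by positivity)
    _ = _ := by ring

end Pool.Agent.LibRG87
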