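import Pool.Agent.LibRG87.R7
import Pool.Agent.LibRG87.R10
import Pool.Agent.LibRG87.R12
import Pool.Agent.LibRG87.R14

/-!
Row R11: the covering lemma.
-/

open Finset

namespace Pool.Agent.LibRG87

variable {ι : Type} [Fintype ι] [DecidableEq ι] (P : Finset ℕ)

theorem abs_yy_le (hP : ∀ p ∈ P, Nat.Prime p) {w z T : ℝ} (hw : 1 < w) (hPw : ∀ p ∈ P, w < p)
    (hZ : 1 ≤ ZZ P z * Real.log w) (β : P → Option ι) : |yy P z T β| ≤ 1 := by
  unfold yy
  split_ifs
  · rw [Finset.abs_prod]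
    exact Finset.prod_le_one (fun _ _ => abs_nonneg _) fun i _ =>
      abs_ff_le P hP hw hPw hZ (fb_subset P β i)
  · simp

theorem abs_yc_le (hP : ∀ p ∈ P, Nat.Prime p) {w z T : ℝ} (hw : 1 < w) (hPw : ∀ p ∈ P, w < p)
    (hZ : 1 ≤ ZZ P z * Real.log w) (i₀ : ι) (β : P → Option ι) : |yc P z T i₀ β| ≤ 1 := by
  unfold yc
  split_ifs
  · rw [abs_mul, Finset.abs_prod]
    have h1 : ∏ i, |ff P z (fb P β i)| ≤ 1 := Finset.prod_le_one (fun _ _ => abs_nonneg _) fun i _ =>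
      abs_ff_le P hP hw hPw hZ (fb_subset P β i)
    have h2 : |cc P z T β| ≤ 1 := by
      rw [abs_of_nonneg (cc_nonneg P hP hw hPw hZ β)]
      exact cc_le_one P hP hw hPw hZ β
    have h3 : 0 ≤ ∏ i, |ff P z (fb P β i)| := Finset.prod_nonneg fun _ _ => abs_nonneg _
    nlinarith [abs_nonneg (cc P z T β)]
  · simp

theorem rr_yy {z T : ℝ} (β : P → Option ι) (h : T < rr (sp P β)) : yy P z T β = 0 := by
  unfold yy
  rw [if_neg (not_le.2 h)]

theorem rr_yc (hP : ∀ p ∈ P, Nat.Prime p) {z T : ℝ} (i₀ : ι) (β : P → Option ι)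
    (h : T < rr (sp P β)) : yc P z T i₀ β = 0 := by
  unfold yc
  rw [cc_eq_zero P hP β h]
  simp

theorem prod_sp_le (hP : ∀ p ∈ P, Nat.Prime p) {w : ℝ} (hw : 1 < w) (hPw : ∀ p ∈ P, w < p)
    {T : ℝ} (β : P → Option ι) (h : rr (sp P β) ≤ T) {δ : ℝ}
    (hδ : Fintype.card ι * (Real.log T / ((w - 1) * Real.log w)) ≤ δ) (hδ1 : δ ≤ 1) :
    ∏ p ∈ sp P β, (1 + (Fintype.card ι : ℝ) / ((p : ℝ) - 1)) ≤ 1 + 2 * δ := by
  have hlw : 0 < Real.log w := Real.log_pos hw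
  have hr0 := rr_pos P hP (sp_subset P β)
  have hT0 : 0 < T := lt_of_lt_of_le hr0 h
  have h1 : ∏ p ∈ sp P β, (1 + (Fintype.card ι : ℝ) / ((p : ℝ) - 1)) ≤
      ∏ p ∈ sp P β, Real.exp (Fintype.card ι / (w - 1)) := by
    refine Finset.prod_le_prod (fun p hp => ?_) fun p hp => ?_
    · have := hPw p (sp_subset P β hp)
      have : 0 < (p : ℝ) - 1 := by linarith
      positivity
    · have h2 := hPw p (sp_subset P β hp)
      have h3 : (Fintype.card ι : ℝ) / ((p : ℝ) - 1) ≤ Fintype.card ι / (w - 1) :=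
        div_le_div_of_nonneg_left (by positivity) (by linarith) (by linarith)
      have h4 := Real.add_one_le_exp ((Fintype.card ι : ℝ) / (w - 1))
      linarith
  rw [Finset.prod_const, ← Real.exp_nat_mul] at h1
  have hcard := card_sp_le P hP hw hPw β
  have h5 : Real.log (rr (sp P β)) ≤ Real.log T := Real.log_le_log hr0 h
  have h6 : ((sp P β).card : ℝ) * (Fintype.card ι / (w - 1)) ≤ δ := by
    refine le_trans ?_ hδ
    have h7 : ((sp P β).card : ℝ) ≤ Real.log T / Real.log w := by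
      rw [le_div_iff₀ hlw]
      exact hcard.trans h5
    have h8 : (Fintype.card ι : ℝ) * (Real.log T / ((w - 1) * Real.log w)) =
        Real.log T / Real.log w * (Fintype.card ι / (w - 1)) := by
      have : w - 1 ≠ 0 := by linarith
      field_simp
    rw [h8]
    have : 0 < w - 1 := by linarith
    exact mul_le_mul_of_nonneg_right h7 (by positivity)
  have hd0 : 0 ≤ δ := by
    have : 0 < w - 1 := by linarith
    exact le_trans (by positivity) h6
  refine h1.trans ((Real.exp_le_exp.2 h6).trans ?_)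
  have h9 : Real.exp δ ≤ 1 + δ + δ ^ 2 := by
    have := Real.abs_exp_sub_one_sub_id_le (x := δ) (by rw [abs_of_nonneg hd0]; exact hδ1)
    have h10 := (abs_le.1 this).2
    linarith
  nlinarith

theorem abs_ee_le (hP : ∀ p ∈ P, Nat.Prime p) (b : ι → ℕ) (β : P → Option ι) (n : ℕ) :
    |ee P b β n| ≤ 1 := by
  unfold ee
  rw [Finset.abs_prod]
  exact Finset.prod_le_one (fun _ _ => abs_nonneg _) fun p _ =>
    abs_loc_le b (hP p p.2).two_le (β p) n

theorem abs_Phi_le (hP : ∀ p ∈ P, Nat.Prime p) {w : ℕ} (hw : 3 ≤ w) (hPw : ∀ p ∈ P, w < p)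
    {z T : ℝ} (hT : 1 ≤ T) (b : ι → ℕ) (hN : Fintype.card ι + 1 ≤ w)
    (hZ : 1 ≤ ZZ P z * Real.log w) (n : ℕ) : |PhiF P b (yy P z T) n| ≤ 3 * T ^ 2 := by
  classical
  have hw' : (1 : ℝ) < w := by exact_mod_cast (by omega : 1 < w)
  have hPw' : ∀ p ∈ P, (w : ℝ) < p := fun p hp => by exact_mod_cast hPw p hp
  refine le_trans ?_ (card_beta (ι := ι) P (by omega : 2 ≤ w) hPw hN hT)
  unfold PhiF
  refine (Finset.abs_sum_le_sum_abs _ _).trans (Finset.sum_le_sum fun β _ => ?_)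
  rw [abs_mul]
  split_ifs with h
  · have h1 := abs_yy_le P hP hw' hPw' hZ (T := T) β
    have h2 := abs_ee_le P hP b β n
    nlinarith [abs_nonneg (yy P z T β), abs_nonneg (ee P b β n)]
  · rw [rr_yy P β (not_le.1 h)]
    simp

open scoped Classical in
/-- the covering lemma, with the number of good `k` -/
theorem covering (hP : ∀ p ∈ P, Nat.Prime p) {w : ℕ} (hw : 3 ≤ w) (hPw : ∀ p ∈ P, w < p)
    {z T : ℝ} (hz : 1 < z) (hT : 1 < T) (b : ι → ℕ)
    (hb : ∀ p ∈ P, ∀ i j : ι, i ≠ j → ¬ b i ≡ b j [MOD p]) (W n₀ K : ℕ)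
    (hW : ∀ p ∈ P, Nat.Coprime p W) (hK : 0 < K)
    (hZ : 1 ≤ ZZ P z * Real.log w)
    (h1 : 8 * (Fintype.card ι : ℝ) ≤ ZZ P z * Real.log T)
    (h2 : 16 * (Fintype.card ι : ℝ) ^ 2 ≤ (w : ℝ) - 1)
    (h3 : 16 * ((Fintype.card ι : ℝ) * Real.log T) ≤ ((w : ℝ) - 1) * Real.log w)
    (h4 : 16 * ((Fintype.card ι : ℝ) * (2 * Real.log T / (((w : ℝ) - 1) * Real.log w)) ^ 2) ≤ 1)
    (h5 : 16 * ((Fintype.card ι : ℝ) * Real.exp (-(Real.log (T / z) / Real.log z) +
          2 * (Fintype.card ι * (1 / ZZ P z) / Real.log z))) ≤ 1)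
    (h6 : 16 * ((Fintype.card ι + 1) * (18 * T ^ 6)) ≤ (K : ℝ)) :
    (K : ℝ) ≤ 18 * T ^ 4 *
      ((range K).filter fun k => ∀ i, ∃ p ∈ P, p ∣ n₀ + W * k + b i).card := by
  have hw' : (1 : ℝ) < w := by exact_mod_cast (by omega : 1 < w)
  have hPw' : ∀ p ∈ P, (w : ℝ) < p := fun p hp => by exact_mod_cast hPw p hp
  have hP3 : ∀ p ∈ P, 3 ≤ p := fun p hp => by have := hPw p hp; omega
  have hlw : 0 < Real.log w := Real.log_pos hw'
  have hlT : 0 < Real.log T := Real.log_pos hT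
  have hZ0 : 0 < ZZ P z := by
    by_contra h
    have : ZZ P z * Real.log w ≤ 0 := mul_nonpos_of_nonpos_of_nonneg (not_lt.1 h) hlw.le
    linarith
  have hKr : (0 : ℝ) < K := by exact_mod_cast hK
  have hcw : Fintype.card ι + 1 ≤ w := by
    have h7 : (Fintype.card ι : ℝ) ≤ (Fintype.card ι : ℝ) ^ 2 := by
      rcases Nat.eq_zero_or_pos (Fintype.card ι) with h | h
      · rw [h]; norm_num
      · have : (1 : ℝ) ≤ Fintype.card ι := by exact_mod_cast h
        nlinarith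
    have h8 : ((Fintype.card ι + 1 : ℕ) : ℝ) ≤ (w : ℝ) := by
      push_cast
      have : (0 : ℝ) ≤ (Fintype.card ι : ℝ) ^ 2 := by positivity
      linarith
    exact_mod_cast h8
  set N : ℝ := (Fintype.card ι : ℝ) with hN
  have hN0 : 0 ≤ N := by positivity
  set S : ℝ := SS P z ^ Fintype.card ι with hS
  have hS1 : 1 ≤ S := one_le_pow₀ (one_le_SS P hP z)
  -- mean squares
  set E : ℝ := 18 * T ^ 6 / K with hE
  have hE0 : 0 ≤ E := by positivity
  have hE1 : 16 * ((N + 1) * E) ≤ 1 := by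
    rw [hE, show 16 * ((N + 1) * (18 * T ^ 6 / K)) = 16 * ((N + 1) * (18 * T ^ 6)) / K by ring,
      div_le_one hKr]
    exact h6
  have a1 := avg_sq P hP hP3 b hb W n₀ K hW hK (by omega : 2 ≤ w) hPw hcw hT.le (yy P z T)
    (abs_yy_le P hP hw' hPw' hZ) (fun β h => rr_yy P β h)
  have a2 := fun i₀ : ι => avg_sq P hP hP3 b hb W n₀ K hW hK (by omega : 2 ≤ w) hPw hcw hT.le
    (yc P z T i₀) (abs_yc_le P hP hw' hPw' hZ i₀) (fun β h => rr_yc P hP i₀ β h)
  -- Schur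
  have hd : N * (Real.log T / (((w : ℝ) - 1) * Real.log w)) ≤ 1 / 16 := by
    rw [← mul_div_assoc, div_le_iff₀ (mul_pos (by linarith) hlw)]
    linarith
  have s1 := schur P hP hP3 (yy P z T : (P → Option ι) → ℝ) (δ := 2 * (1 / 16)) fun β hβ =>
    prod_sp_le P hP hw' hPw' β (T := T) (by
      by_contra h
      exact hβ (rr_yy P β (not_le.1 h))) hd (by norm_num)
  have s2 := fun i₀ : ι => schur P hP hP3 (yc P z T i₀) (δ := 2 * (1 / 16)) fun β hβ =>
    prod_sp_le P hP hw' hPw' β (T := T) (by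
      by_contra h
      exact hβ (rr_yc P hP i₀ β (not_le.1 h))) hd (by norm_num)
  -- diagonal forms
  have d1 := DD_yy_ge (ι := ι) P hP hw' hPw' hZ hT
  have d2 := fun i₀ : ι => DD_yc_le P hP hw' hPw' hZ hz hT i₀
  have hsq := sum_inv_sq P (by omega : 2 ≤ w) hPw
  have d3 : 13 / 16 * S ≤ DD P (yy P z T : (P → Option ι) → ℝ) := by
    refine le_trans ?_ d1
    have e1 : N ^ 2 * ∑ p ∈ P, 1 / ((p : ℝ) - 1) ^ 2 ≤ 1 / 16 := by
      have : 0 ≤ N ^ 2 := by positivity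
      refine (mul_le_mul_of_nonneg_left hsq this).trans ?_
      rw [mul_one_div, div_le_iff₀ (by linarith)]
      linarith
    have e2 : N * (1 / ZZ P z) / Real.log T ≤ 1 / 8 := by
      rw [mul_one_div, div_div, div_le_iff₀ (mul_pos hZ0 hlT)]
      linarith
    nlinarith
  have d4 : ∑ i₀ : ι, DD P (yc P z T i₀) ≤ S * (1 / 8) := by
    refine (Finset.sum_le_sum fun i₀ _ => d2 i₀).trans ?_
    rw [Finset.sum_const, Finset.card_univ, nsmul_eq_mul, ← hN, mul_left_comm]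
    apply mul_le_mul_of_nonneg_left _ (by linarith)
    rw [mul_add]
    linarith
  -- the pointwise inequality
  set G := (range K).filter fun k => ∀ i, ∃ p ∈ P, p ∣ n₀ + W * k + b i with hG
  have p0 : ∑ k ∈ range K, (if ∀ i, ∃ p ∈ P, p ∣ n₀ + W * k + b i then (3 * T ^ 2) ^ 2 else 0) =
      G.card * (9 * T ^ 4) := by
    rw [← Finset.sum_filter, Finset.sum_const, nsmul_eq_mul]
    ring
  have p1 : ∑ k ∈ range K, PhiF P b (yy P z T) (n₀ + W * k) ^ 2 ≤
      G.card * (9 * T ^ 4) +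
        ∑ i₀ : ι, ∑ k ∈ range K, PhiF P b (yc P z T i₀) (n₀ + W * k) ^ 2 := by
    rw [Finset.sum_comm, ← p0, ← Finset.sum_add_distrib]
    refine Finset.sum_le_sum fun k hk => ?_
    have hnn : 0 ≤ ∑ i : ι, PhiF P b (yc P z T i) (n₀ + W * k) ^ 2 :=
      Finset.sum_nonneg fun _ _ => sq_nonneg _
    split_ifs with hgood
    · have h9 := abs_Phi_le P hP hw hPw hT.le b hcw hZ (n₀ + W * k)
      have h10 : PhiF P b (yy P z T) (n₀ + W * k) ^ 2 ≤ (3 * T ^ 2) ^ 2 := by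
        rw [← sq_abs]
        exact pow_le_pow_left₀ (abs_nonneg _) h9 2
      linarith
    · push Not at hgood
      obtain ⟨i₀, hi₀⟩ := hgood
      rw [collapse P b z T i₀ (n₀ + W * k) hi₀, zero_add]
      exact Finset.single_le_sum (f := fun i => PhiF P b (yc P z T i) (n₀ + W * k) ^ 2)
        (fun i _ => sq_nonneg _) (Finset.mem_univ i₀)
  have p2 : (∑ k ∈ range K, PhiF P b (yy P z T) (n₀ + W * k) ^ 2) / K ≤
      G.card * (9 * T ^ 4) / K +
      ∑ i₀ : ι, (∑ k ∈ range K, PhiF P b (yc P z T i₀) (n₀ + W * k) ^ 2) / K := by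
    rw [← Finset.sum_div, ← add_div]
    exact div_le_div_of_nonneg_right p1 hKr.le
  have p3 : ∑ i₀ : ι, (∑ k ∈ range K, PhiF P b (yc P z T i₀) (n₀ + W * k) ^ 2) / K ≤
      ∑ i₀ : ι, (9 / 8 * DD P (yc P z T i₀) + E) := by
    refine Finset.sum_le_sum fun i₀ _ => ?_
    have q1 := (abs_le.1 (a2 i₀)).2
    have q2 := (abs_le.1 (s2 i₀)).2
    linarith
  rw [Finset.sum_add_distrib, ← Finset.mul_sum, Finset.sum_const, Finset.card_univ, nsmul_eq_mul,
    ← hN] at p3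
  have q1 := (abs_le.1 a1).1
  have q2 := (abs_le.1 s1).1
  have q3 : 1 / 2 ≤ G.card * (9 * T ^ 4) / K := by nlinarith
  rw [le_div_iff₀ hKr] at q3
  linarith

end Pool.Agent.LibRG87
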